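import Mathlib

set_option autoImplicit false

/-!
# Arrangements, logarithmic derivations, plus-one generated arrangements: definitions
-/

namespace Pool.Agent.Zk48.PO

open MvPolynomial

universe u

/-- The linear form `∑ j, a j * x_j`. -/
noncomputable def linearForm {K : Type u} [Field K] {l : ℕ} (a : Fin l → K) :
    MvPolynomial (Fin l) K :=
  ∑ j, C (a j) * X j

/-- The hyperplane `{x | ∑ j, a j * x_j = 0}` in `K^l`. -/
def hyperplane {K : Type u} [Field K] {l : ℕ} (a : Fin l → K) : Submodule K (Fin l → K) :=
  LinearMap.ker (∑ j, a j • LinearMap.proj j : (Fin l → K) →ₗ[K] K)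

/-- `A` is the family of coefficient vectors of a central arrangement of `n` distinct
hyperplanes in `K^l`. -/
def IsArrangement {K : Type u} [Field K] {l n : ℕ} (A : Fin n → Fin l → K) : Prop :=
  (∀ i, A i ≠ 0) ∧ Function.Injective fun i => hyperplane (A i)

/-- The arrangement is essential: the intersection of all its hyperplanes is `{0}`. -/
def IsEssential {K : Type u} [Field K] {l n : ℕ} (A : Fin n → Fin l → K) : Prop :=
  ⨅ i, hyperplane (A i) = ⊥

/-- The arrangement is irreducible: there is no decomposition `K^l = V ⊕ W` into two nonzero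
subspaces such that every hyperplane contains `V` or `W`. -/
def IsIrreducible {K : Type u} [Field K] {l n : ℕ} (A : Fin n → Fin l → K) : Prop :=
  ∀ V W : Submodule K (Fin l → K), IsCompl V W →
    (∀ i, V ≤ hyperplane (A i) ∨ W ≤ hyperplane (A i)) → V = ⊥ ∨ W = ⊥

/-- The set of all intersections of subfamilies of the hyperplanes (the empty intersection
being `K^l`), ordered by inclusion. -/
def intersections {K : Type u} [Field K] {l n : ℕ} (A : Fin n → Fin l → K) :
    Set (Submodule K (Fin l → K)) :=
  {W | ∃ s : Set (Fin n), W = ⨅ i ∈ s, hyperplane (A i)}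

/-- The intersection lattice `L(A)`: all intersections of the hyperplanes, ordered by reverse
inclusion. -/
abbrev Lattice {K : Type u} [Field K] {l n : ℕ} (A : Fin n → Fin l → K) : Type u :=
  (intersections A)ᵒᵈ

/-- The module `D(A)` of logarithmic derivations. A derivation `∑ j, θ_j ∂/∂x_j` of the
polynomial ring `S` is written as the vector `(θ_j)` of its coefficients; it belongs to `D(A)` if
`θ(α_i) = ∑ j, a_{ij} θ_j` is divisible by the defining form `α_i = ∑ j, a_{ij} x_j`, for
each `i`. -/
noncomputable def logDer {K : Type u} [Field K] {l n : ℕ} (A : Fin n → Fin l → K) :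
    Submodule (MvPolynomial (Fin l) K) (Fin l → MvPolynomial (Fin l) K) where
  carrier := {θ | ∀ i, linearForm (A i) ∣ ∑ j, C (A i j) * θ j}
  add_mem' := fun {θ η} hθ hη i => by
    have h : ∑ j, C (A i j) * (θ + η) j = ∑ j, C (A i j) * θ j + ∑ j, C (A i j) * η j := by
      rw [← Finset.sum_add_distrib]
      exact Finset.sum_congr rfl fun j _ => by rw [Pi.add_apply, mul_add]
    rw [h]
    exact dvd_add (hθ i) (hη i)
  zero_mem' := fun i => by simp
  smul_mem' := fun r θ hθ i => by
    have h : ∑ j, C (A i j) * (r • θ) j = r * ∑ j, C (A i j) * θ j := by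
      rw [Finset.mul_sum]
      exact Finset.sum_congr rfl fun j _ => by rw [Pi.smul_apply, smul_eq_mul]; ring
    rw [h]
    exact dvd_mul_of_dvd_right (hθ i) r

/-- The derivations `θ_1, …, θ_l, φ` and the coefficients `f_1, …, f_l, α` give a minimal graded
free resolution `0 → S[-d-1] → S[-d] ⊕ ⨁ S[-e_i] → D(A) → 0` whose first map is
`(α, f_1, …, f_l)`, where `α` is a linear form. -/
structure IsPlusOneResolution {K : Type u} [Field K] {l n : ℕ} (A : Fin n → Fin l → K)
    (e : Fin l → ℕ) (d : ℕ)
    (θ : Fin l → Fin l → MvPolynomial (Fin l) K)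
    (φ : Fin l → MvPolynomial (Fin l) K)
    (f : Fin l → MvPolynomial (Fin l) K) (α : MvPolynomial (Fin l) K) : Prop where
  /-- the `θ_i` are logarithmic derivations -/
  theta_mem : ∀ i, θ i ∈ logDer A
  /-- `φ` is a logarithmic derivation -/
  phi_mem : φ ∈ logDer A
  /-- `θ_i` is homogeneous of degree `e_i` -/
  theta_homogeneous : ∀ i j, (θ i j).IsHomogeneous (e i)
  /-- `φ` is homogeneous of degree `d` -/
  phi_homogeneous : ∀ j, (φ j).IsHomogeneous d
  /-- `f_i` is homogeneous of degree `d + 1 - e_i` -/
  coeff_homogeneous : ∀ i, f i = 0 ∨ ∃ m, m + e i = d + 1 ∧ (f i).IsHomogeneous m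
  /-- `α` is a linear form -/
  alpha_homogeneous : α.IsHomogeneous 1
  /-- the `θ_i` and `φ` generate `D(A)` -/
  generate : ∀ η ∈ logDer A, ∃ (g : Fin l → MvPolynomial (Fin l) K) (h : MvPolynomial (Fin l) K),
    η = ∑ i, g i • θ i + h • φ
  /-- the relation -/
  relation : ∑ i, f i • θ i + α • φ = 0
  /-- every relation is a multiple of it -/
  relations : ∀ (g : Fin l → MvPolynomial (Fin l) K) (h : MvPolynomial (Fin l) K),
    ∑ i, g i • θ i + h • φ = 0 → ∃ c, (∀ i, g i = c * f i) ∧ h = c * α
  /-- the relation is not the zero relation, so the first map is injective -/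
  nonzero : α ≠ 0 ∨ ∃ i, f i ≠ 0
  /-- minimality: the entries of the first map lie in the irrelevant ideal -/
  minimal : ∀ i, constantCoeff (f i) = 0

/-- `A` is plus-one generated with exponents `e` and level `d`. -/
def PlusOneGenerated {K : Type u} [Field K] {l n : ℕ} (A : Fin n → Fin l → K)
    (e : Fin l → ℕ) (d : ℕ) : Prop :=
  ∃ θ φ f α, IsPlusOneResolution A e d θ φ f α

/-- `A` is strictly plus-one generated with exponents `e` and level `d`. -/
def StrictlyPlusOneGenerated {K : Type u} [Field K] {l n : ℕ} (A : Fin n → Fin l → K)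
    (e : Fin l → ℕ) (d : ℕ) : Prop :=
  ∃ θ φ f α, IsPlusOneResolution A e d θ φ f α ∧ α ≠ 0

/-- The statement of the question for arrangements in `K^l`: whether an essential arrangement is
(strictly) plus-one generated, and with which exponents and which level, is determined by its
intersection lattice. -/
def Question (K : Type u) [Field K] (l : ℕ) : Prop :=
  ∀ (m n : ℕ) (A : Fin m → Fin l → K) (B : Fin n → Fin l → K),
    IsArrangement A → IsArrangement B → IsEssential A → IsEssential B →
    Nonempty (Lattice A ≃o Lattice B) → ∀ (e : Fin l → ℕ) (d : ℕ),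
      (PlusOneGenerated A e d → PlusOneGenerated B e d) ∧
      (StrictlyPlusOneGenerated A e d → StrictlyPlusOneGenerated B e d)

end Pool.Agent.Zk48.PO
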