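import Mathlib
import Pool.Agent.Zk48.PO.Lat

set_option autoImplicit false

/-!
# Adding a variable: combinatorics

From an arrangement `A` in `K^l` and one of its hyperplanes `α = 0` we form the arrangement in
`K^(l+1)` consisting of the hyperplanes of `A` and of `w = 0` and `w = α`.
-/

namespace Pool.Agent.Zk48.PO

universe u

variable {K : Type u} [Field K] {l n : ℕ}

/-- the extended arrangement -/
def ext (A : Fin n → Fin l → K) (i0 : Fin n) : Fin (n + 2) → Fin (l + 1) → K :=
  Fin.cons (Fin.cons 1 0) (Fin.cons (Fin.cons 1 (-(A i0))) fun i => Fin.cons 0 (A i))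

theorem ext_zero (A : Fin n → Fin l → K) (i0 : Fin n) :
    ext A i0 0 = Fin.cons 1 0 := rfl
theorem ext_one (A : Fin n → Fin l → K) (i0 : Fin n) :
    ext A i0 (Fin.succ 0) = Fin.cons 1 (-(A i0)) := rfl
theorem ext_succ (A : Fin n → Fin l → K) (i0 i : Fin n) :
    ext A i0 i.succ.succ = Fin.cons 0 (A i) := rfl

theorem forall_ext {P : Fin (n + 2) → Prop} :
    (∀ i, P i) ↔ P 0 ∧ P (Fin.succ 0) ∧ ∀ i : Fin n, P i.succ.succ := by
  rw [Fin.forall_fin_succ, Fin.forall_fin_succ]

theorem sum0 (A : Fin n → Fin l → K) (i0 : Fin n) (x : Fin (l + 1) → K) :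
    ∑ k, ext A i0 0 k * x k = x 0 := by
  rw [ext_zero, Fin.sum_univ_succ]
  simp

theorem sum1 (A : Fin n → Fin l → K) (i0 : Fin n) (x : Fin (l + 1) → K) :
    ∑ k, ext A i0 (Fin.succ 0) k * x k = x 0 - ∑ k, A i0 k * x k.succ := by
  rw [ext_one, Fin.sum_univ_succ]
  simp [Finset.sum_neg_distrib, sub_eq_add_neg]

theorem sum2 (A : Fin n → Fin l → K) (i0 i : Fin n) (x : Fin (l + 1) → K) :
    ∑ k, ext A i0 i.succ.succ k * x k = ∑ k, A i k * x k.succ := by
  rw [ext_succ, Fin.sum_univ_succ]
  simp

theorem essential_iff {A : Fin n → Fin l → K} :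
    IsEssential A ↔ ∀ x : Fin l → K, (∀ i, ∑ k, A i k * x k = 0) → x = 0 := by
  unfold IsEssential
  rw [eq_bot_iff]
  constructor
  · intro h x hx
    have : x ∈ (⨅ i, hyperplane (A i)) := by
      rw [Submodule.mem_iInf]
      exact fun i => mem_hyperplane.2 (hx i)
    exact (Submodule.mem_bot K).1 (h this)
  · intro h x hx
    rw [Submodule.mem_iInf] at hx
    rw [Submodule.mem_bot]
    exact h x fun i => mem_hyperplane.1 (hx i)

theorem essential_ext {A : Fin n → Fin l → K} (i0 : Fin n) (h : IsEssential A) :
    IsEssential (ext A i0) := by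
  rw [essential_iff] at h ⊢
  intro x hx
  rw [forall_ext] at hx
  obtain ⟨h0, -, h2⟩ := hx
  rw [sum0] at h0
  have h3 := h (fun k => x k.succ) (fun i => by rw [← h2 i, sum2])
  funext k
  refine Fin.cases h0 (fun k => ?_) k
  exact congrFun h3 k

theorem arrangement_ext {A : Fin n → Fin l → K} (i0 : Fin n) (h : IsArrangement A) :
    IsArrangement (ext A i0) := by
  obtain ⟨hne, hinj⟩ := h
  obtain ⟨k0, hk0⟩ : ∃ k, A i0 k ≠ 0 := by
    by_contra hc
    push Not at hc
    exact hne i0 (funext hc)
  -- test vectors
  have t0 : ∀ i : Fin n, (Fin.cons 1 0 : Fin (l + 1) → K) ∈ hyperplane (ext A i0 i.succ.succ) := by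
    intro i
    rw [mem_hyperplane, sum2]
    simp
  have t1 : (Fin.cons 1 0 : Fin (l + 1) → K) ∉ hyperplane (ext A i0 0) := by
    rw [mem_hyperplane, sum0]
    simp
  have t2 : (Fin.cons 1 0 : Fin (l + 1) → K) ∉ hyperplane (ext A i0 (Fin.succ 0)) := by
    rw [mem_hyperplane, sum1]
    simp
  have t3 : (Fin.cons 0 (Pi.single k0 1) : Fin (l + 1) → K) ∈ hyperplane (ext A i0 0) := by
    rw [mem_hyperplane, sum0]
    simp
  have t4 : (Fin.cons 0 (Pi.single k0 1) : Fin (l + 1) → K) ∉
      hyperplane (ext A i0 (Fin.succ 0)) := by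
    rw [mem_hyperplane, sum1]
    simpa [Pi.single_apply] using hk0
  constructor
  · rw [forall_ext]
    refine ⟨?_, ?_, ?_⟩
    · intro h0
      have := congrFun h0 0
      rw [ext_zero] at this
      simp at this
    · intro h0
      have := congrFun h0 0
      rw [ext_one] at this
      simp at this
    · intro i h0
      apply hne i
      funext k
      have := congrFun h0 k.succ
      rw [ext_succ] at this
      simpa using this
  · have key : ∀ i j : Fin (n + 2), (hyperplane (ext A i0 i) = hyperplane (ext A i0 j)) →
        i = j := by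
      have hcases : ∀ i : Fin (n + 2), i = 0 ∨ i = Fin.succ 0 ∨ ∃ i' : Fin n, i = i'.succ.succ := by
        rw [forall_ext]
        exact ⟨Or.inl rfl, Or.inr (Or.inl rfl), fun i => Or.inr (Or.inr ⟨i, rfl⟩)⟩
      intro i j hij
      rcases hcases i with rfl | rfl | ⟨i, rfl⟩ <;> rcases hcases j with rfl | rfl | ⟨j, rfl⟩
      · rfl
      · exact absurd (hij ▸ t3) t4
      · exact absurd (hij.symm ▸ t0 j) t1
      · exact absurd (hij.symm ▸ t3) t4
      · rfl
      · exact absurd (hij.symm ▸ t0 j) t2
      · exact absurd (hij ▸ t0 i) t1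
      · exact absurd (hij ▸ t0 i) t2
      · have : i = j := by
          apply hinj
          apply SetLike.ext
          intro x
          have h1 : (Fin.cons 0 x : Fin (l + 1) → K) ∈ hyperplane (ext A i0 i.succ.succ) ↔
              (Fin.cons 0 x : Fin (l + 1) → K) ∈ hyperplane (ext A i0 j.succ.succ) := by
            rw [hij]
          rw [mem_hyperplane, mem_hyperplane, sum2, sum2] at h1
          simp only [Fin.cons_succ] at h1
          show x ∈ hyperplane (A i) ↔ x ∈ hyperplane (A j)
          rw [mem_hyperplane, mem_hyperplane]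
          exact h1
        rw [this]
    exact fun i j hij => key i j hij

theorem cl_ext {A B : Fin n → Fin l → K} (i0 : Fin n) (h : ∀ s i, Cl A s i ↔ Cl B s i)
    (s : Set (Fin (n + 2))) (i : Fin (n + 2)) : Cl (ext A i0) s i ↔ Cl (ext B i0) s i := by
  -- it suffices to prove one implication
  have main : ∀ {A B : Fin n → Fin l → K}, (∀ s i, Cl A s i ↔ Cl B s i) →
      Cl (ext A i0) s i → Cl (ext B i0) s i := by
    intro A B h hA x hx
    -- the index set on the old hyperplanes
    set sA : Set (Fin n) := {j | j.succ.succ ∈ s} with hsA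
    have hcases : ∀ i : Fin (n + 2), i = 0 ∨ i = Fin.succ 0 ∨ ∃ i' : Fin n, i = i'.succ.succ := by
      rw [forall_ext]
      exact ⟨Or.inl rfl, Or.inr (Or.inl rfl), fun i => Or.inr (Or.inr ⟨i, rfl⟩)⟩
    have hxA : ∀ j ∈ sA, ∑ k, B j k * x k.succ = 0 := by
      intro j hj
      rw [← sum2 B i0 j x]
      exact hx _ hj
    -- how to apply `hA`
    have apA : ∀ (w : K) (y : Fin l → K), (0 ∈ s → w = 0) →
        (Fin.succ 0 ∈ s → w = ∑ k, A i0 k * y k) → (∀ j ∈ sA, ∑ k, A j k * y k = 0) →
        ∑ k, ext A i0 i k * (Fin.cons w y : Fin (l + 1) → K) k = 0 := by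
      intro w y h0 h1 h2
      apply hA
      intro j hj
      rcases hcases j with rfl | rfl | ⟨j, rfl⟩
      · rw [sum0]; simpa using h0 hj
      · rw [sum1]; simpa [sub_eq_zero] using h1 hj
      · rw [sum2]; simpa using h2 j hj
    by_cases p0 : (0 : Fin (n + 2)) ∈ s
    · have hx0 : x 0 = 0 := by
        rw [← sum0 B i0 x]; exact hx _ p0
      by_cases p1 : (Fin.succ 0 : Fin (n + 2)) ∈ s
      · -- both
        have hx1 : ∑ k, B i0 k * x k.succ = 0 := by
          have := hx _ p1
          rw [sum1, hx0] at this
          linear_combination -this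
        rcases hcases i with rfl | rfl | ⟨i, rfl⟩
        · rw [sum0]; exact hx0
        · rw [sum1, hx0, hx1, sub_zero]
        · rw [sum2]
          have hB : Cl B (insert i0 sA) i := by
            rw [← h]
            intro y hy
            have := apA 0 y (fun _ => rfl) (fun _ => (hy i0 (Set.mem_insert _ _)).symm)
              (fun j hj => hy j (Set.mem_insert_of_mem _ hj))
            rw [sum2] at this
            simpa using this
          refine hB (fun k => x k.succ) ?_
          intro j hj
          rcases hj with rfl | hj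
          · exact hx1
          · exact hxA j hj
      · rcases hcases i with rfl | rfl | ⟨i, rfl⟩
        · rw [sum0]; exact hx0
        · rw [sum1, hx0, zero_sub, neg_eq_zero]
          have hB : Cl B sA i0 := by
            rw [← h]
            intro y hy
            have := apA 0 y (fun _ => rfl) (fun h5 => absurd h5 p1) hy
            rw [sum1] at this
            simpa using this
          exact hB _ hxA
        · rw [sum2]
          have hB : Cl B sA i := by
            rw [← h]
            intro y hy
            have := apA 0 y (fun _ => rfl) (fun h5 => absurd h5 p1) hy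
            rw [sum2] at this
            simpa using this
          exact hB _ hxA
    · by_cases p1 : (Fin.succ 0 : Fin (n + 2)) ∈ s
      · have hx1 : x 0 = ∑ k, B i0 k * x k.succ := by
          have := hx _ p1
          rw [sum1] at this
          exact sub_eq_zero.1 this
        rcases hcases i with rfl | rfl | ⟨i, rfl⟩
        · rw [sum0, hx1]
          have hB : Cl B sA i0 := by
            rw [← h]
            intro y hy
            have := apA (∑ k, A i0 k * y k) y (fun h5 => absurd h5 p0) (fun _ => rfl) hy
            rw [sum0] at this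
            simpa using this
          exact hB _ hxA
        · rw [sum1, hx1, sub_self]
        · rw [sum2]
          have hB : Cl B sA i := by
            rw [← h]
            intro y hy
            have := apA (∑ k, A i0 k * y k) y (fun h5 => absurd h5 p0) (fun _ => rfl) hy
            rw [sum2] at this
            simpa using this
          exact hB _ hxA
      · rcases hcases i with rfl | rfl | ⟨i, rfl⟩
        · exfalso
          have := apA 1 0 (fun h5 => absurd h5 p0) (fun h5 => absurd h5 p1) (by simp)
          rw [sum0] at this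
          simp at this
        · exfalso
          have := apA 1 0 (fun h5 => absurd h5 p0) (fun h5 => absurd h5 p1) (by simp)
          rw [sum1] at this
          simp at this
        · rw [sum2]
          have hB : Cl B sA i := by
            rw [← h]
            intro y hy
            have := apA 0 y (fun h5 => absurd h5 p0) (fun h5 => absurd h5 p1) hy
            rw [sum2] at this
            simpa using this
          exact hB _ hxA
  exact ⟨main h, main fun s i => (h s i).symm⟩

/-- all hyperplanes are linked by three-term relations -/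
def Conn (A : Fin n → Fin l → K) : Prop :=
  ∀ side : Fin n → Prop,
    (∀ (i j k : Fin n) (c d : K), c ≠ 0 → d ≠ 0 → A i + c • A j + d • A k = 0 →
      (side i ↔ side j) ∧ (side i ↔ side k)) → ∀ i j, (side i ↔ side j)

theorem conn_ext {A : Fin n → Fin l → K} (i0 : Fin n) (h : Conn A) : Conn (ext A i0) := by
  intro side hs
  have h1 := h (fun i => side i.succ.succ) (by
    intro i j k c d hc hd he
    apply hs _ _ _ c d hc hd
    rw [ext_succ, ext_succ, ext_succ]
    funext m
    refine Fin.cases ?_ (fun m => ?_) m
    · simp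
    · have := congrFun he m
      simpa using this)
  have h2 := hs 0 (Fin.succ 0) i0.succ.succ (-1) (-1) (neg_ne_zero.2 one_ne_zero)
    (neg_ne_zero.2 one_ne_zero) (by
    rw [ext_zero, ext_one, ext_succ]
    funext m
    refine Fin.cases ?_ (fun m => ?_) m
    · simp
    · simp)
  have h3 : ∀ i, side i ↔ side i0.succ.succ := by
    rw [forall_ext]
    exact ⟨h2.2, h2.1.symm.trans h2.2, fun i => h1 i i0⟩
  intro i j
  exact (h3 i).trans (h3 j).symm

theorem irreducible_of_conn {A : Fin n → Fin l → K} (hne : ∀ i, A i ≠ 0) (hess : IsEssential A)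
    (hn : 0 < n) (h : Conn A) : IsIrreducible A := by
  intro V W hVW hs
  have both : ∀ i, V ≤ hyperplane (A i) → W ≤ hyperplane (A i) → False := by
    intro i h1 h2
    have h3 : (⊤ : Submodule K (Fin l → K)) ≤ hyperplane (A i) := by
      rw [← hVW.sup_eq_top]; exact sup_le h1 h2
    apply hne i
    funext k
    have := mem_hyperplane.1 (h3 (Submodule.mem_top (x := Pi.single k (1 : K))))
    simpa [Pi.single_apply] using this
  -- a relation propagates containment
  have prop : ∀ (U : Submodule K (Fin l → K)) (i j k : Fin n) (c d : K),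
      A i + c • A j + d • A k = 0 → U ≤ hyperplane (A j) → U ≤ hyperplane (A k) →
      U ≤ hyperplane (A i) := by
    intro U i j k c d he hj hk x hx
    rw [mem_hyperplane]
    have h1 := mem_hyperplane.1 (hj hx)
    have h2 := mem_hyperplane.1 (hk hx)
    have h3 : ∑ m, A i m * x m + c * ∑ m, A j m * x m + d * ∑ m, A k m * x m = 0 := by
      rw [Finset.mul_sum, Finset.mul_sum, ← Finset.sum_add_distrib, ← Finset.sum_add_distrib]
      apply Finset.sum_eq_zero
      intro m _
      have := congrFun he m
      simp only [Pi.add_apply, Pi.smul_apply, smul_eq_mul, Pi.zero_apply] at this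
      linear_combination x m * this
    rw [h1, h2] at h3
    linear_combination h3
  have rot : ∀ (i j k : Fin n) (c d : K), c ≠ 0 → A i + c • A j + d • A k = 0 →
      A j + c⁻¹ • A i + (c⁻¹ * d) • A k = 0 := by
    intro i j k c d hc he
    have : c⁻¹ • (A i + c • A j + d • A k) = 0 := by rw [he, smul_zero]
    rw [← this, smul_add, smul_add, smul_smul, smul_smul, inv_mul_cancel₀ hc, one_smul]
    abel
  have swap : ∀ (i j k : Fin n) (c d : K), A i + c • A j + d • A k = 0 →
      A i + d • A k + c • A j = 0 := by
    intro i j k c d he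
    rw [← he]; abel
  -- the three indices are on the same side
  have same : ∀ (U U' : Submodule K (Fin l → K)) (i j k : Fin n) (c d : K),
      (∀ i, U ≤ hyperplane (A i) ∨ U' ≤ hyperplane (A i)) →
      (∀ i, U ≤ hyperplane (A i) → U' ≤ hyperplane (A i) → False) → c ≠ 0 →
      d ≠ 0 → A i + c • A j + d • A k = 0 → U ≤ hyperplane (A i) → U ≤ hyperplane (A j) := by
    intro U U' i j k c d hs hb hc hd he hi
    rcases hs j with hj | hj
    · exact hj
    · exfalso
      rcases hs k with hk | hk
      · exact hb j (prop U j i k _ _ (rot _ _ _ _ _ hc he) hi hk) hj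
      · exact hb i hi (prop U' i j k _ _ he hj hk)
  have conn := h (fun i => V ≤ hyperplane (A i)) (by
    intro i j k c d hc hd he
    have he2 := swap _ _ _ _ _ he
    refine ⟨⟨same V W i j k c d hs both hc hd he, fun hj => ?_⟩,
      ⟨same V W i k j d c hs both hd hc he2, fun hk => ?_⟩⟩
    · exact same V W j i k c⁻¹ (c⁻¹ * d) hs both (inv_ne_zero hc) (mul_ne_zero (inv_ne_zero hc) hd)
        (rot _ _ _ _ _ hc he) hj
    · exact same V W k i j d⁻¹ (d⁻¹ * c) hs both (inv_ne_zero hd) (mul_ne_zero (inv_ne_zero hd) hc)
        (rot _ _ _ _ _ hd he2) hk)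
  have final : ∀ U : Submodule K (Fin l → K), (∀ i, U ≤ hyperplane (A i)) → U = ⊥ := by
    intro U hU
    rw [eq_bot_iff]
    intro x hx
    rw [Submodule.mem_bot]
    exact essential_iff.1 hess x fun i => mem_hyperplane.1 (hU i hx)
  rcases hs ⟨0, hn⟩ with h0 | h0
  · left
    exact final V fun i => (conn i ⟨0, hn⟩).2 h0
  · right
    refine final W fun i => ?_
    rcases hs i with h1 | h1
    · exact absurd h0 (fun h0 => both ⟨0, hn⟩ ((conn i ⟨0, hn⟩).1 h1) h0)
    · exact h1

end Pool.Agent.Zk48.PO
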