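import Mathlib
import Pool.Agent.Zk48.PO.Defs

set_option autoImplicit false

/-!
# Homogeneous components of products
-/

namespace Pool.Agent.Zk48.PO

open MvPolynomial

universe u

variable {K : Type u} [Field K] {σ : Type*}

theorem hc_mul {a : MvPolynomial σ K} {d : ℕ} (ha : a.IsHomogeneous d) (q : MvPolynomial σ K)
    (m : ℕ) : homogeneousComponent (d + m) (a * q) = a * homogeneousComponent m q := by
  conv_lhs => rw [← sum_homogeneousComponent q, Finset.mul_sum, map_sum]
  have h1 : ∀ k, homogeneousComponent (d + m) (a * homogeneousComponent k q) =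
      if k = m then a * homogeneousComponent k q else 0 := by
    intro k
    have h2 : a * homogeneousComponent k q ∈ homogeneousSubmodule σ K (d + k) :=
      ha.mul (homogeneousComponent_isHomogeneous k q)
    rw [homogeneousComponent_of_mem h2]
    by_cases hk : k = m
    · rw [if_pos hk, if_pos (by rw [hk])]
    · rw [if_neg hk, if_neg (fun h => hk (by omega))]
  simp only [h1]
  rw [Finset.sum_ite_eq' (Finset.range (q.totalDegree + 1)) m]
  by_cases hm : m ∈ Finset.range (q.totalDegree + 1)
  · rw [if_pos hm]
  · rw [if_neg hm, homogeneousComponent_eq_zero, mul_zero]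
    rw [Finset.mem_range] at hm
    omega

theorem hc_mul_lt {a : MvPolynomial σ K} {d : ℕ} (ha : a.IsHomogeneous d)
    (q : MvPolynomial σ K) {m : ℕ} (hm : m < d) : homogeneousComponent m (a * q) = 0 := by
  conv_lhs => rw [← sum_homogeneousComponent q, Finset.mul_sum, map_sum]
  apply Finset.sum_eq_zero
  intro k _
  have h2 : a * homogeneousComponent k q ∈ homogeneousSubmodule σ K (d + k) :=
    ha.mul (homogeneousComponent_isHomogeneous k q)
  rw [homogeneousComponent_of_mem h2, if_neg (by omega)]

/-- a quotient of a homogeneous polynomial by a linear form is homogeneous -/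
theorem hom_quot {a F q : MvPolynomial σ K} {e : ℕ} (ha : a.IsHomogeneous 1) (ha0 : a ≠ 0)
    (hF : F.IsHomogeneous e) (h : F = a * q) : q = 0 ∨ ∃ m, m + 1 = e ∧ q.IsHomogeneous m := by
  by_cases hq : q = 0
  · exact Or.inl hq
  right
  have h1 : ∀ m, m + 1 ≠ e → homogeneousComponent m q = 0 := by
    intro m hm
    have h2 : homogeneousComponent (1 + m) (a * q) = 0 := by
      rw [← h, homogeneousComponent_of_mem hF, if_neg (by omega)]
    rw [hc_mul ha] at h2
    rcases mul_eq_zero.1 h2 with h3 | h3
    · exact absurd h3 ha0
    · exact h3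
  rcases Nat.eq_zero_or_pos e with he | he
  · exfalso
    apply hq
    rw [← sum_homogeneousComponent q]
    exact Finset.sum_eq_zero fun m _ => h1 m (by omega)
  · refine ⟨e - 1, by omega, ?_⟩
    have h2 : q = homogeneousComponent (e - 1) q := by
      conv_lhs => rw [← sum_homogeneousComponent q]
      by_cases hm : e - 1 ∈ Finset.range (q.totalDegree + 1)
      · rw [Finset.sum_eq_single_of_mem _ hm]
        intro m _ hm'
        exact h1 m (by omega)
      · rw [homogeneousComponent_eq_zero (e - 1) q (by rw [Finset.mem_range] at hm; omega)]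
        apply Finset.sum_eq_zero
        intro m hm'
        apply h1 m
        rintro rfl
        exact hm (by simpa using hm')
    rw [h2]
    exact homogeneousComponent_isHomogeneous _ _

theorem linearForm_hom {l : ℕ} (a : Fin l → K) : (linearForm a).IsHomogeneous 1 := by
  unfold linearForm
  exact IsHomogeneous.sum _ _ _ fun j _ => isHomogeneous_C_mul_X (a j) j

theorem linearForm_ne {l : ℕ} {a : Fin l → K} (ha : a ≠ 0) : linearForm a ≠ 0 := by
  intro h
  apply ha
  funext j
  have := congrArg (eval (Pi.single j (1 : K))) h
  simpa [linearForm, Pi.single_apply] using this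

end Pool.Agent.Zk48.PO
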