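import Mathlib

set_option autoImplicit false

/-!
# Linear forms in two variables over a field
-/

namespace Pool.Agent.Zk48.PO

open MvPolynomial

universe u

variable {K : Type u} [Field K]

/-- the linear form `a x + b y` in two variables -/
noncomputable def lf (a b : K) : MvPolynomial (Fin 2) K := C a * X 0 + C b * X 1

theorem mul_dvd_of {R : Type*} [CommRing R] [IsDomain R] {p q F : R} (hq : Prime q)
    (hpq : ¬ q ∣ p) (hp : p ∣ F) (hqF : q ∣ F) : p * q ∣ F := by
  obtain ⟨G, rfl⟩ := hp
  rcases hq.dvd_or_dvd hqF with h | h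
  · exact absurd h hpq
  · exact mul_dvd_mul_left p h

/-- substitution `x_i := s` -/
noncomputable def sb {σ : Type*} [DecidableEq σ] (i : σ) (s : MvPolynomial σ K) :
    MvPolynomial σ K →ₐ[K] MvPolynomial σ K :=
  aeval (Function.update X i s)

theorem sb_self {σ : Type*} [DecidableEq σ] (i : σ) (s : MvPolynomial σ K) :
    sb i s (X i) = s := by simp [sb]

theorem sb_ne {σ : Type*} [DecidableEq σ] {i j : σ} (h : j ≠ i) (s : MvPolynomial σ K) :
    sb i s (X j) = X j := by
  simp [sb, h]

theorem dvd_sub_sb {σ : Type*} [DecidableEq σ] (i : σ) (s f : MvPolynomial σ K) :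
    X i - s ∣ f - sb i s f := by
  induction f using MvPolynomial.induction_on with
  | C c => simp [sb]
  | add p q hp hq =>
    rw [map_add]
    have h : p + q - (sb i s p + sb i s q) = (p - sb i s p) + (q - sb i s q) := by ring
    rw [h]
    exact dvd_add hp hq
  | mul_X p j hp =>
    rw [map_mul]
    have h : p * X j - sb i s p * sb i s (X j) =
        (p - sb i s p) * X j + sb i s p * (X j - sb i s (X j)) := by ring
    rw [h]
    refine dvd_add (Dvd.dvd.mul_right hp _) (Dvd.dvd.mul_left ?_ _)
    by_cases h : j = i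
    · subst h
      rw [sb_self]
    · rw [sb_ne h, sub_self]
      exact dvd_zero _

theorem prime_of {σ : Type*} [DecidableEq σ] (i : σ) (s : MvPolynomial σ K)
    (hs : sb i s s = s) (hne : X i - s ≠ 0) : Prime (X i - s) := by
  have h0 : sb i s (X i - s) = 0 := by rw [map_sub, sb_self, hs, sub_self]
  refine ⟨hne, ?_, ?_⟩
  · intro h
    have h2 := h.map (sb i s)
    rw [h0] at h2
    exact not_isUnit_zero h2
  · intro f g hfg
    have h1 : sb i s f * sb i s g = 0 := by
      rw [← map_mul]
      obtain ⟨q, hq⟩ := hfg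
      rw [hq, map_mul, h0, zero_mul]
    rcases mul_eq_zero.1 h1 with h | h
    · left
      have := dvd_sub_sb i s f
      rwa [h, sub_zero] at this
    · right
      have := dvd_sub_sb i s g
      rwa [h, sub_zero] at this

theorem eval_lf (a b : K) (v : Fin 2 → K) : eval v (lf a b) = a * v 0 + b * v 1 := by
  simp [lf]

theorem lf_ne_zero {a b : K} (h : a ≠ 0 ∨ b ≠ 0) : lf a b ≠ 0 := by
  intro h0
  rcases h with h | h
  · have := congrArg (eval ![(1 : K), 0]) h0
    simp [eval_lf] at this
    exact h this
  · have := congrArg (eval ![(0 : K), 1]) h0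
    simp [eval_lf] at this
    exact h this

theorem prime_lf {a b : K} (h : a ≠ 0 ∨ b ≠ 0) : Prime (lf a b) := by
  have hu : ∀ c : K, c ≠ 0 → IsUnit (C c : MvPolynomial (Fin 2) K) := fun c hc =>
    (isUnit_iff_ne_zero.2 hc).map C
  rcases h with h | h
  · have hp := prime_of (K := K) (0 : Fin 2) (-(C (a⁻¹ * b) * X 1)) (by
      rw [map_neg, map_mul, sb_ne (by decide)]
      simp [sb]) (by
      intro h0
      have := congrArg (eval ![(1 : K), 0]) h0
      simp at this)
    have e : (X 0 - -(C (a⁻¹ * b) * X 1) : MvPolynomial (Fin 2) K) * C a = lf a b := by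
      unfold lf
      have h1 : (C (a⁻¹ * b) : MvPolynomial (Fin 2) K) * C a = C b := by
        rw [← C_mul]
        congr 1
        field_simp
      linear_combination (X 1) * h1
    rw [← e]
    exact (associated_mul_unit_right _ _ (hu a h)).prime hp
  · have hp := prime_of (K := K) (1 : Fin 2) (-(C (b⁻¹ * a) * X 0)) (by
      rw [map_neg, map_mul, sb_ne (by decide)]
      simp [sb]) (by
      intro h0
      have := congrArg (eval ![(0 : K), 1]) h0
      simp at this)
    have e : (X 1 - -(C (b⁻¹ * a) * X 0) : MvPolynomial (Fin 2) K) * C b = lf a b := by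
      unfold lf
      have h1 : (C (b⁻¹ * a) : MvPolynomial (Fin 2) K) * C b = C a := by
        rw [← C_mul]
        congr 1
        field_simp
      linear_combination (X 0) * h1
    rw [← e]
    exact (associated_mul_unit_right _ _ (hu b h)).prime hp

theorem not_dvd_of_eval {σ : Type*} {p q : MvPolynomial σ K} (Q : σ → K) (hp : eval Q p = 0)
    (hq : eval Q q ≠ 0) : ¬ p ∣ q := by
  rintro ⟨r, rfl⟩
  rw [map_mul, hp, zero_mul] at hq
  exact hq rfl

/-- `a x + b y` divides `g` only if `g (b, -a) = 0` -/
theorem lf_not_dvd {a b : K} {g : MvPolynomial (Fin 2) K} (h : eval ![b, -a] g ≠ 0) :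
    ¬ lf a b ∣ g :=
  not_dvd_of_eval ![b, -a] (by simp [eval_lf]; ring) h

end Pool.Agent.Zk48.PO
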