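import Mathlib
import Pool.Agent.Zk48.PO.Two

set_option autoImplicit false

/-!
# Interpolation conditions at colliding nodes
-/

namespace Pool.Agent.Zk48.PO

open Polynomial

set_option linter.unusedSectionVars false

variable {R : Type*} [CommRing R] [IsDomain R]

theorem eval_divX (p : R[X]) (s : R) : p.eval s = p.divX.eval s * s + p.coeff 0 := by
  conv_lhs => rw [← divX_mul_X_add p]
  simp

/-- two nodes `a, b` colliding modulo `w`, with opposite signs -/
theorem collide {f v : R[X]} {a b w N : R} (hw : Prime w) (hN : ¬ w ∣ N) (h2 : IsUnit (2 : R))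
    (hab : w ∣ a - b) (ha : f.eval a = v.eval a * N) (hb : f.eval b = - (v.eval b * N)) :
    w ∣ v.eval a ∧ w ∣ v.eval b := by
  have h1 : w ∣ f.eval a - f.eval b := hab.trans (sub_dvd_eval_sub a b f)
  have h3 : w ∣ v.eval a - v.eval b := hab.trans (sub_dvd_eval_sub a b v)
  have h4 : w ∣ N * (v.eval a + v.eval b) := by
    have e : N * (v.eval a + v.eval b) = f.eval a - f.eval b := by rw [ha, hb]; ring
    rw [e]; exact h1
  have h5 : w ∣ v.eval a + v.eval b := by
    rcases hw.dvd_or_dvd h4 with h | h
    · exact absurd h hN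
    · exact h
  have h6 : w ∣ 2 * v.eval a := by
    have e : 2 * v.eval a = (v.eval a + v.eval b) + (v.eval a - v.eval b) := by ring
    rw [e]; exact dvd_add h5 h3
  have h7 : w ∣ 2 * v.eval b := by
    have e : 2 * v.eval b = (v.eval a + v.eval b) - (v.eval a - v.eval b) := by ring
    rw [e]; exact dvd_sub h5 h3
  exact ⟨(h2.dvd_mul_left).1 h6, (h2.dvd_mul_left).1 h7⟩

/-- three nodes `0, x, -x` colliding modulo `x` -/
theorem collide3 {f v : R[X]} {x N : R} (hx : Prime x) (hN : ¬ x ∣ N) (h2 : IsUnit (2 : R))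
    (h0 : f.eval 0 = 0) (ha : f.eval x = v.eval x * N) (hb : f.eval (-x) = - (v.eval (-x) * N)) :
    x ∣ v.coeff 0 ∧ x ∣ v.coeff 1 := by
  have hf0 : f.coeff 0 = 0 := by rw [coeff_zero_eq_eval_zero, h0]
  have hc1 : v.coeff 1 = v.divX.coeff 0 := by rw [coeff_divX]
  have e1 := eval_divX f x
  have e2 := eval_divX f (-x)
  have e3 := eval_divX v x
  have e4 := eval_divX v (-x)
  have e5 := eval_divX v.divX x
  have e6 := eval_divX v.divX (-x)
  rw [hf0] at e1 e2
  obtain ⟨A, hA⟩ := sub_dvd_eval_sub x (-x) f.divX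
  obtain ⟨B, hB⟩ := sub_dvd_eval_sub x (-x) v.divX.divX
  constructor
  · have h1 : x ∣ v.eval x * N := by
      rw [← ha, e1, add_zero]; exact dvd_mul_left _ _
    rcases hx.dvd_or_dvd h1 with h | h
    · rw [e3] at h
      exact (dvd_add_right (dvd_mul_left _ _)).1 h
    · exact absurd h hN
  · have h3 : x * (x * (2 * A)) = x * (N * (2 * v.coeff 1 +
        x * (v.divX.divX.eval x - v.divX.divX.eval (-x)))) := by
      have e7 : f.eval x + f.eval (-x) = x * (x * (2 * A)) := by
        rw [e1, e2]; linear_combination x * hA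
      have e8 : v.eval x - v.eval (-x) = x * (2 * v.coeff 1 +
          x * (v.divX.divX.eval x - v.divX.divX.eval (-x))) := by
        rw [e3, e4, e5, e6, hc1]; ring
      rw [← e7, ha, hb]
      linear_combination N * e8
    have h4 := mul_left_cancel₀ hx.ne_zero h3
    have h5 : x ∣ N * (2 * v.coeff 1 +
        x * (v.divX.divX.eval x - v.divX.divX.eval (-x))) := ⟨_, h4.symm⟩
    rcases hx.dvd_or_dvd h5 with h | h
    · exact absurd h hN
    · have h6 := (dvd_add_left (dvd_mul_right x _)).1 h
      exact (h2.dvd_mul_left).1 h6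

/-- a product of linear factors divides a polynomial vanishing at distinct nodes -/
theorem prod_nodes_dvd {ι : Type*} (s : Finset ι) (nd : ι → R) (hnd : Set.InjOn nd s) {f : R[X]}
    (hf : ∀ i ∈ s, f.eval (nd i) = 0) : ∏ i ∈ s, (X - C (nd i)) ∣ f := by
  classical
  induction s using Finset.induction_on generalizing f with
  | empty => simp
  | insert a s ha ih =>
    rw [Finset.prod_insert ha]
    obtain ⟨g, hg⟩ := dvd_iff_isRoot.2 (hf a (Finset.mem_insert_self a s))
    rw [hg]
    apply mul_dvd_mul_left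
    apply ih (hnd.mono (by simp))
    intro i hi
    have h1 := hf i (Finset.mem_insert_of_mem hi)
    rw [hg, eval_mul, eval_sub, eval_X, eval_C] at h1
    rcases mul_eq_zero.1 h1 with h | h
    · exfalso
      have := hnd (Finset.mem_coe.2 (Finset.mem_insert_of_mem hi))
        (Finset.mem_coe.2 (Finset.mem_insert_self a s)) (sub_eq_zero.1 h)
      exact ha (this ▸ hi)
    · exact h

end Pool.Agent.Zk48.PO
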