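import Mathlib
import Pool.Agent.Zk48.PO.Defs

set_option autoImplicit false

/-!
# Working with the first variable as a polynomial variable
-/

namespace Pool.Agent.Zk48.PO

open MvPolynomial

universe u

variable {K : Type u} [Field K] {l n : ℕ}

/-- the ring `K[x_1, …, x_l][x_0]` -/
abbrev PP (K : Type u) [Field K] (l : ℕ) := Polynomial (MvPolynomial (Fin l) K)

/-- the isomorphism of `K[x_0, …, x_l]` with `K[x_1, …, x_l][x_0]` -/
noncomputable abbrev TT (K : Type u) [Field K] (l : ℕ) :
    MvPolynomial (Fin (l + 1)) K ≃ₐ[K] PP K l := finSuccEquiv K l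

theorem TT_C (c : K) : TT K l (C c) = Polynomial.C (C c) := by
  simp [finSuccEquiv_apply]

theorem TT_X0 : TT K l (X 0) = Polynomial.X := finSuccEquiv_X_zero

theorem TT_Xs (j : Fin l) : TT K l (X j.succ) = Polynomial.C (X j) := finSuccEquiv_X_succ

theorem TT_rename (p : MvPolynomial (Fin l) K) :
    TT K l (rename Fin.succ p) = Polynomial.C p := by
  induction p using MvPolynomial.induction_on with
  | C c => rw [rename_C, TT_C]
  | add p q hp hq => rw [map_add, map_add, hp, hq, Polynomial.C_add]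
  | mul_X p j hp => rw [map_mul, map_mul, rename_X, hp, TT_Xs, Polynomial.C_mul]

theorem TT_dvd {p q : MvPolynomial (Fin (l + 1)) K} : p ∣ q ↔ TT K l p ∣ TT K l q :=
  (map_dvd_iff (TT K l)).symm

theorem mem_logDer {A : Fin n → Fin (l + 1) → K}
    {θ : Fin (l + 1) → MvPolynomial (Fin (l + 1)) K} :
    θ ∈ logDer A ↔ ∀ i, TT K l (linearForm (A i)) ∣
      ∑ j, Polynomial.C (C (A i j)) * TT K l (θ j) := by
  refine forall_congr' fun i => ?_
  rw [TT_dvd, map_sum]
  refine iff_of_eq (congrArg _ (Finset.sum_congr rfl fun j _ => ?_))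
  rw [map_mul, TT_C]

end Pool.Agent.Zk48.PO
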