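import Mathlib
import Pool.Agent.Zk48.PO.ExtComb
import Pool.Agent.Zk48.PO.Model
import Pool.Agent.Zk48.PO.Hom
import Pool.Agent.Zk48.PO.Interp
import Pool.Agent.Zk48.PO.Two

set_option autoImplicit false

/-!
# Adding a variable: logarithmic derivations
-/

namespace Pool.Agent.Zk48.PO

open MvPolynomial

universe u

variable {K : Type u} [Field K] {l n : ℕ}

/-- include the polynomials in the last variables -/
noncomputable abbrev ren : MvPolynomial (Fin l) K →ₐ[K] MvPolynomial (Fin (l + 1)) K :=
  rename Fin.succ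

theorem ren_inj : Function.Injective (ren : MvPolynomial (Fin l) K →ₐ[K] _) :=
  rename_injective _ (Fin.succ_injective l)

/-- the form of the chosen hyperplane -/
noncomputable abbrev al0 (A : Fin n → Fin l → K) (i0 : Fin n) : MvPolynomial (Fin l) K :=
  linearForm (A i0)

theorem lf_ext0 (A : Fin n → Fin l → K) (i0 : Fin n) : linearForm (ext A i0 0) = X 0 := by
  unfold linearForm
  rw [ext_zero, Fin.sum_univ_succ]
  simp

theorem lf_ext1 (A : Fin n → Fin l → K) (i0 : Fin n) :
    linearForm (ext A i0 (Fin.succ 0)) = X 0 - ren (al0 A i0) := by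
  unfold linearForm
  rw [ext_one, Fin.sum_univ_succ]
  simp [linearForm, Finset.sum_neg_distrib, sub_eq_add_neg]

theorem lf_ext2 (A : Fin n → Fin l → K) (i0 i : Fin n) :
    linearForm (ext A i0 i.succ.succ) = ren (linearForm (A i)) := by
  unfold linearForm
  rw [ext_succ, Fin.sum_univ_succ]
  simp

theorem mem_ext {A : Fin n → Fin l → K} {i0 : Fin n}
    {θ : Fin (l + 1) → MvPolynomial (Fin (l + 1)) K} :
    θ ∈ logDer (ext A i0) ↔ X 0 ∣ θ 0 ∧
      X 0 - ren (al0 A i0) ∣ θ 0 - ∑ j, C (A i0 j) * θ j.succ ∧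
      ∀ i, ren (linearForm (A i)) ∣ ∑ j, C (A i j) * θ j.succ := by
  show (∀ i, linearForm (ext A i0 i) ∣ ∑ j, C (ext A i0 i j) * θ j) ↔ _
  rw [forall_ext]
  refine and_congr ?_ (and_congr ?_ (forall_congr' fun i => ?_))
  · rw [lf_ext0, ext_zero, Fin.sum_univ_succ]
    simp
  · rw [lf_ext1, ext_one, Fin.sum_univ_succ]
    simp [Finset.sum_neg_distrib, sub_eq_add_neg]
  · rw [lf_ext2, ext_succ, Fin.sum_univ_succ]
    simp

/-- the coefficient vectors of a derivation -/
noncomputable def cv (θ : Fin (l + 1) → MvPolynomial (Fin (l + 1)) K) (k : ℕ) :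
    Fin l → MvPolynomial (Fin l) K :=
  fun j => (TT K l (θ j.succ)).coeff k

theorem cv_mem {A : Fin n → Fin l → K} {i0 : Fin n}
    {θ : Fin (l + 1) → MvPolynomial (Fin (l + 1)) K} (h : θ ∈ logDer (ext A i0)) (k : ℕ) :
    cv θ k ∈ logDer A := by
  intro i
  have h1 := (mem_ext.1 h).2.2 i
  rw [TT_dvd, TT_rename, Polynomial.C_dvd_iff_dvd_coeff] at h1
  have h2 := h1 k
  rw [map_sum, Polynomial.finsetSum_coeff] at h2
  have h3 : ∑ j, C (A i j) * cv θ k j = ∑ j, (TT K l (C (A i j) * θ j.succ)).coeff k := by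
    refine Finset.sum_congr rfl fun j _ => ?_
    rw [map_mul, TT_C, Polynomial.coeff_C_mul]
    rfl
  rw [h3]
  exact h2

/-- assemble a polynomial from its coefficients -/
noncomputable def asm (N : ℕ) (g : ℕ → MvPolynomial (Fin l) K) : MvPolynomial (Fin (l + 1)) K :=
  ∑ k ∈ Finset.range N, X 0 ^ k * ren (g k)

theorem TT_asm (N : ℕ) (g : ℕ → MvPolynomial (Fin l) K) :
    TT K l (asm N g) = ∑ k ∈ Finset.range N, Polynomial.C (g k) * Polynomial.X ^ k := by
  unfold asm
  rw [map_sum]
  refine Finset.sum_congr rfl fun k _ => ?_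
  rw [map_mul, map_pow, TT_X0, TT_rename, mul_comm]

theorem asm_coeff {N : ℕ} {p : MvPolynomial (Fin (l + 1)) K}
    (hN : (TT K l p).natDegree < N) : asm N (fun k => (TT K l p).coeff k) = p := by
  apply (TT K l).injective
  rw [TT_asm]
  exact ((TT K l p).as_sum_range_C_mul_X_pow' hN).symm

theorem exists_bound {ι : Type*} (s : Finset ι) (p : ι → MvPolynomial (Fin (l + 1)) K) :
    ∃ N, ∀ i ∈ s, (TT K l (p i)).natDegree < N :=
  ⟨s.sup (fun i => (TT K l (p i)).natDegree) + 1, fun i hi =>
    Nat.lt_succ_of_le (Finset.le_sup (f := fun i => (TT K l (p i)).natDegree) hi)⟩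

/-- the lift of a derivation -/
noncomputable def lift (ζ : Fin l → MvPolynomial (Fin l) K) (q : MvPolynomial (Fin l) K) :
    Fin (l + 1) → MvPolynomial (Fin (l + 1)) K :=
  Fin.cons (X 0 * ren q) fun j => ren (ζ j)

theorem lift_mem {A : Fin n → Fin l → K} {i0 : Fin n} {ζ : Fin l → MvPolynomial (Fin l) K}
    {q : MvPolynomial (Fin l) K} (h : ζ ∈ logDer A)
    (hq : ∑ j, C (A i0 j) * ζ j = al0 A i0 * q) : lift ζ q ∈ logDer (ext A i0) := by
  have e : ∀ i, ∑ j, C (A i j) * lift ζ q j.succ = ren (∑ j, C (A i j) * ζ j) := by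
    intro i
    rw [map_sum]
    refine Finset.sum_congr rfl fun j _ => ?_
    rw [map_mul, rename_C]
    simp [lift]
  rw [mem_ext]
  refine ⟨?_, ?_, fun i => ?_⟩
  · simp [lift]
  · rw [e, hq, map_mul]
    refine ⟨ren q, ?_⟩
    simp only [lift, Fin.cons_zero]
    ring
  · rw [e]
    exact map_dvd ren (h i)

/-- the new derivation -/
noncomputable def tau (A : Fin n → Fin l → K) (i0 : Fin n) :
    Fin (l + 1) → MvPolynomial (Fin (l + 1)) K :=
  Fin.cons (X 0 * (X 0 - ren (al0 A i0))) 0

theorem tau_mem (A : Fin n → Fin l → K) (i0 : Fin n) : tau A i0 ∈ logDer (ext A i0) := by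
  rw [mem_ext]
  refine ⟨?_, ?_, fun i => ?_⟩
  · simp [tau]
  · simp [tau]
  · simp [tau]

theorem prime_new (p : MvPolynomial (Fin l) K) :
    Prime (X 0 - ren p : MvPolynomial (Fin (l + 1)) K) := by
  have h : TT K l (X 0 - ren p) = Polynomial.X - Polynomial.C p := by
    rw [map_sub, TT_X0, TT_rename]
  rw [← MulEquiv.prime_iff (TT K l).toMulEquiv]
  show Prime (TT K l (X 0 - ren p))
  rw [h]
  exact Polynomial.prime_X_sub_C p

theorem new_ndvd {p : MvPolynomial (Fin l) K} (hp : p ≠ 0) :
    ¬ (X 0 - ren p : MvPolynomial (Fin (l + 1)) K) ∣ X 0 := by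
  intro h
  rw [TT_dvd, map_sub, TT_X0, TT_rename, Polynomial.dvd_iff_isRoot, Polynomial.IsRoot.def,
    Polynomial.eval_X] at h
  exact hp h

theorem new_ne {p : MvPolynomial (Fin l) K} :
    (X 0 * (X 0 - ren p) : MvPolynomial (Fin (l + 1)) K) ≠ 0 :=
  mul_ne_zero (X_ne_zero 0) (prime_new p).ne_zero

/-- generation for the extended arrangement -/
theorem gen_ext {ι : Type*} [Fintype ι] {A : Fin n → Fin l → K} {i0 : Fin n} (hA : A i0 ≠ 0)
    {g : ι → Fin l → MvPolynomial (Fin l) K} {q : ι → MvPolynomial (Fin l) K}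
    (hg : ∀ i, g i ∈ logDer A) (hq : ∀ i, ∑ j, C (A i0 j) * g i j = al0 A i0 * q i)
    (hgen : ∀ η ∈ logDer A, ∃ c : ι → MvPolynomial (Fin l) K, η = ∑ i, c i • g i)
    {η : Fin (l + 1) → MvPolynomial (Fin (l + 1)) K} (hη : η ∈ logDer (ext A i0)) :
    ∃ (c : MvPolynomial (Fin (l + 1)) K) (G : ι → MvPolynomial (Fin (l + 1)) K),
      η = c • tau A i0 + ∑ i, G i • lift (g i) (q i) := by
  classical
  choose c hc using fun k => hgen (cv η k) (cv_mem hη k)
  obtain ⟨N, hN⟩ := exists_bound Finset.univ (fun j : Fin l => η j.succ)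
  set G : ι → MvPolynomial (Fin (l + 1)) K := fun i => asm N (fun k => c k i) with hG
  have h1 : ∀ j : Fin l, η j.succ = ∑ i, G i * ren (g i j) := by
    intro j
    apply (TT K l).injective
    rw [map_sum, ← asm_coeff (hN j (Finset.mem_univ j)), TT_asm]
    have h2 : ∀ k, (TT K l (η j.succ)).coeff k = ∑ i, c k i * g i j := by
      intro k
      have := congrFun (hc k) j
      rw [Finset.sum_apply] at this
      exact this
    simp only [h2, hG, map_mul, TT_asm, TT_rename, map_sum, Finset.sum_mul]
    rw [Finset.sum_comm]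
    refine Finset.sum_congr rfl fun i _ => Finset.sum_congr rfl fun k _ => ?_
    ring
  set ζ := η - ∑ i, G i • lift (g i) (q i) with hζ
  have hζm : ζ ∈ logDer (ext A i0) :=
    Submodule.sub_mem _ hη (Submodule.sum_mem _ fun i _ =>
      Submodule.smul_mem _ _ (lift_mem (hg i) (hq i)))
  have hζs : ∀ j : Fin l, ζ j.succ = 0 := by
    intro j
    rw [hζ, Pi.sub_apply, Finset.sum_apply, h1 j]
    simp [lift]
  obtain ⟨d1, d2, -⟩ := mem_ext.1 hζm
  simp only [hζs, mul_zero, Finset.sum_const_zero, sub_zero] at d2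
  obtain ⟨e, he⟩ := mul_dvd_of (prime_new (al0 A i0)) (new_ndvd (linearForm_ne hA)) d1 d2
  refine ⟨e, G, ?_⟩
  have h3 : ζ = e • tau A i0 := by
    funext j
    refine Fin.cases ?_ (fun j => ?_) j
    · rw [he]
      simp [tau]
      ring
    · rw [hζs]
      simp [tau]
  rw [← h3, hζ]
  abel

/-- relations for the extended arrangement -/
theorem rel_ext {ι : Type*} [Fintype ι] {A : Fin n → Fin l → K} {i0 : Fin n} (hA : A i0 ≠ 0)
    {g : ι → Fin l → MvPolynomial (Fin l) K} {q : ι → MvPolynomial (Fin l) K}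
    (hq : ∀ i, ∑ j, C (A i0 j) * g i j = al0 A i0 * q i)
    {c : MvPolynomial (Fin (l + 1)) K} {G : ι → MvPolynomial (Fin (l + 1)) K}
    (h : c • tau A i0 + ∑ i, G i • lift (g i) (q i) = 0) :
    c = 0 ∧ ∀ k, ∑ i, (TT K l (G i)).coeff k • g i = 0 := by
  have h1 : ∀ k, ∑ i, (TT K l (G i)).coeff k • g i = 0 := by
    intro k
    funext j
    have h2 := congrArg (fun p => (TT K l p).coeff k) (congrFun h j.succ)
    simp only [Pi.add_apply, Pi.smul_apply, smul_eq_mul, tau, Fin.cons_succ, Pi.zero_apply,
      mul_zero, zero_add, Finset.sum_apply, lift, map_sum, map_mul, TT_rename, map_zero,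
      Polynomial.finsetSum_coeff, Polynomial.coeff_mul_C, Polynomial.coeff_zero] at h2
    rw [Finset.sum_apply]
    simpa using h2
  refine ⟨?_, h1⟩
  have h2 : ∀ k, ∑ i, (TT K l (G i)).coeff k * q i = 0 := by
    intro k
    have h3 : al0 A i0 * ∑ i, (TT K l (G i)).coeff k * q i = 0 := by
      rw [Finset.mul_sum]
      have h4 : ∀ i, al0 A i0 * ((TT K l (G i)).coeff k * q i) =
          ∑ j, C (A i0 j) * ((TT K l (G i)).coeff k * g i j) := by
        intro i
        calc al0 A i0 * ((TT K l (G i)).coeff k * q i)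
            = (TT K l (G i)).coeff k * (al0 A i0 * q i) := by ring
          _ = _ := by
            rw [← hq, Finset.mul_sum]
            exact Finset.sum_congr rfl fun j _ => by ring
      simp only [h4]
      rw [Finset.sum_comm]
      apply Finset.sum_eq_zero
      intro j _
      rw [← Finset.mul_sum]
      have h5 := congrFun (h1 k) j
      rw [Finset.sum_apply] at h5
      have h6 : ∑ i, (TT K l (G i)).coeff k * g i j = 0 := h5
      rw [h6, mul_zero]
    rcases mul_eq_zero.1 h3 with h4 | h4
    · exact absurd h4 (linearForm_ne hA)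
    · exact h4
  have h3 : ∑ i, G i * ren (q i) = 0 := by
    apply (TT K l).injective
    rw [map_sum, map_zero]
    ext1 k
    rw [Polynomial.finsetSum_coeff, Polynomial.coeff_zero]
    simp only [map_mul, TT_rename, Polynomial.coeff_mul_C]
    exact h2 k
  have h4 := congrFun h 0
  simp only [Pi.add_apply, Pi.smul_apply, smul_eq_mul, tau, Fin.cons_zero, Pi.zero_apply,
    Finset.sum_apply, lift] at h4
  have h5 : ∑ i, G i * (X 0 * ren (q i)) = X 0 * ∑ i, G i * ren (q i) := by
    rw [Finset.mul_sum]
    exact Finset.sum_congr rfl fun i _ => by ring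
  rw [h5, h3, mul_zero, add_zero] at h4
  rcases mul_eq_zero.1 h4 with h6 | h6
  · exact h6
  · exact absurd h6 new_ne

theorem lift_hom {A : Fin n → Fin l → K} {i0 : Fin n} (hA : A i0 ≠ 0)
    {ζ : Fin l → MvPolynomial (Fin l) K} {q : MvPolynomial (Fin l) K} {e : ℕ}
    (hζ : ∀ j, (ζ j).IsHomogeneous e) (hq : ∑ j, C (A i0 j) * ζ j = al0 A i0 * q) (j : Fin (l + 1)) :
    (lift ζ q j).IsHomogeneous e := by
  refine Fin.cases ?_ (fun j => ?_) j
  · simp only [lift, Fin.cons_zero]
    have hF : (∑ j, C (A i0 j) * ζ j).IsHomogeneous e :=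
      IsHomogeneous.sum _ _ _ fun j _ => (hζ j).C_mul _
    rcases hom_quot (linearForm_hom (A i0)) (linearForm_ne hA) hF hq with h | ⟨m, hm, h⟩
    · rw [h, map_zero, mul_zero]
      exact isHomogeneous_zero _ _ _
    · have := (isHomogeneous_X K (0 : Fin (l + 1))).mul (h.rename_isHomogeneous (f := Fin.succ))
      rwa [add_comm 1 m, hm] at this
  · simp only [lift, Fin.cons_succ]
    exact (hζ j).rename_isHomogeneous

theorem tau_hom (A : Fin n → Fin l → K) (i0 : Fin n) (j : Fin (l + 1)) :
    (tau A i0 j).IsHomogeneous 2 := by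
  refine Fin.cases ?_ (fun j => ?_) j
  · simp only [tau, Fin.cons_zero]
    exact (isHomogeneous_X K 0).mul ((isHomogeneous_X K 0).sub
      ((linearForm_hom _).rename_isHomogeneous))
  · simp only [tau, Fin.cons_succ, Pi.zero_apply]
    exact isHomogeneous_zero _ _ _

/-- the resolution of the extended arrangement -/
theorem res_ext {A : Fin n → Fin l → K} {i0 : Fin n} (hA : A i0 ≠ 0) {e : Fin l → ℕ} {d : ℕ}
    {θ : Fin l → Fin l → MvPolynomial (Fin l) K} {φ : Fin l → MvPolynomial (Fin l) K}
    {f : Fin l → MvPolynomial (Fin l) K} {α : MvPolynomial (Fin l) K}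
    (h : IsPlusOneResolution A e d θ φ f α) :
    ∃ θ' φ' f', IsPlusOneResolution (ext A i0) (Fin.cons 2 e) d θ' φ' f' (ren α) := by
  choose q hq using fun i => h.theta_mem i i0
  obtain ⟨p, hp⟩ := h.phi_mem i0
  -- everything indexed by `Option (Fin l)`
  set g : Option (Fin l) → Fin l → MvPolynomial (Fin l) K := fun o => o.elim φ θ with hg
  set r : Option (Fin l) → MvPolynomial (Fin l) K := fun o => o.elim p q with hr
  have hgm : ∀ o, g o ∈ logDer A := by
    rintro (_ | i)
    · exact h.phi_mem
    · exact h.theta_mem i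
  have hgr : ∀ o, ∑ j, C (A i0 j) * g o j = al0 A i0 * r o := by
    rintro (_ | i)
    · exact hp
    · exact hq i
  have hgen : ∀ η ∈ logDer A, ∃ c : Option (Fin l) → MvPolynomial (Fin l) K,
      η = ∑ o, c o • g o := by
    intro η hη
    obtain ⟨c, k, hk⟩ := h.generate η hη
    refine ⟨fun o => o.elim k c, ?_⟩
    rw [Fintype.sum_option, hk, add_comm]
    rfl
  refine ⟨Fin.cons (tau A i0) (fun i => lift (θ i) (q i)), lift φ p,
    Fin.cons 0 (fun i => ren (f i)), ?_⟩
  have sum_split : ∀ (G : Fin (l + 1) → MvPolynomial (Fin (l + 1)) K)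
      (H : MvPolynomial (Fin (l + 1)) K),
      ∑ i, G i • (Fin.cons (tau A i0) (fun i => lift (θ i) (q i)) :
        Fin (l + 1) → Fin (l + 1) → MvPolynomial (Fin (l + 1)) K) i + H • lift φ p =
      G 0 • tau A i0 + ∑ o : Option (Fin l), (o.elim H (fun i => G i.succ)) •
        lift (g o) (r o) := by
    intro G H
    rw [Fin.sum_univ_succ, Fintype.sum_option, add_assoc]
    simp only [Fin.cons_zero, Fin.cons_succ, hg, hr, Option.elim]
    rw [add_comm (H • lift φ p)]
  constructor
  · intro i
    refine Fin.cases ?_ (fun i => ?_) i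
    · exact tau_mem A i0
    · exact lift_mem (h.theta_mem i) (hq i)
  · exact lift_mem h.phi_mem hp
  · intro i j
    refine Fin.cases ?_ (fun i => ?_) i
    · exact tau_hom A i0 j
    · exact lift_hom hA (h.theta_homogeneous i) (hq i) j
  · intro j
    exact lift_hom hA h.phi_homogeneous hp j
  · intro i
    refine Fin.cases ?_ (fun i => ?_) i
    · left; rfl
    · rcases h.coeff_homogeneous i with h1 | ⟨m, hm, h1⟩
      · left
        show ren (f i) = 0
        rw [h1, map_zero]
      · right
        exact ⟨m, hm, h1.rename_isHomogeneous⟩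
  · exact h.alpha_homogeneous.rename_isHomogeneous
  · intro η hη
    obtain ⟨c, G, hG⟩ := gen_ext hA hgm hgr hgen hη
    refine ⟨Fin.cons c (fun i => G (some i)), G none, ?_⟩
    rw [sum_split, hG]
    congr 1
    refine Finset.sum_congr rfl fun o _ => ?_
    cases o <;> rfl
  · rw [sum_split]
    have h1 := h.relation
    funext j
    refine Fin.cases ?_ (fun j => ?_) j
    · -- the first component
      have h2 : al0 A i0 * (∑ i, f i * q i + α * p) = 0 := by
        have h3 : ∀ j, ∑ i, f i * θ i j + α * φ j = 0 := by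
          intro j
          have := congrFun h1 j
          simp only [Pi.add_apply, Finset.sum_apply, Pi.smul_apply, smul_eq_mul,
            Pi.zero_apply] at this
          exact this
        calc al0 A i0 * (∑ i, f i * q i + α * p)
            = ∑ i, f i * (al0 A i0 * q i) + α * (al0 A i0 * p) := by
              rw [mul_add, Finset.mul_sum]
              congr 1
              · exact Finset.sum_congr rfl fun i _ => by ring
              · ring
          _ = ∑ i, f i * (∑ j, C (A i0 j) * θ i j) + α * ∑ j, C (A i0 j) * φ j := by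
              rw [hp]
              congr 1
              exact Finset.sum_congr rfl fun i _ => by rw [hq]
          _ = ∑ j, C (A i0 j) * (∑ i, f i * θ i j + α * φ j) := by
              simp only [Finset.mul_sum, mul_add, Finset.sum_add_distrib]
              congr 1
              · rw [Finset.sum_comm]
                exact Finset.sum_congr rfl fun i _ => Finset.sum_congr rfl fun j _ => by ring
              · exact Finset.sum_congr rfl fun i _ => by ring
          _ = 0 := by
              apply Finset.sum_eq_zero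
              intro j _
              rw [h3, mul_zero]
      have h4 : ∑ i, f i * q i + α * p = 0 := by
        rcases mul_eq_zero.1 h2 with h5 | h5
        · exact absurd h5 (linearForm_ne hA)
        · exact h5
      rw [Fintype.sum_option]
      simp only [Fin.cons_zero, zero_smul, zero_add, Pi.add_apply, Finset.sum_apply,
        Pi.smul_apply, smul_eq_mul, Option.elim, Fin.cons_succ, lift, hg, hr, Pi.zero_apply]
      have h5 := congrArg (fun t => X 0 * ren t) h4
      simp only [map_add, map_sum, map_mul, map_zero, mul_zero, mul_add, Finset.mul_sum] at h5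
      refine ((add_comm _ _).trans ?_).trans h5
      congr 1
      · exact Finset.sum_congr rfl fun i _ => by ring
      · ring
    · have h3 := congrFun h1 j
      simp only [Pi.add_apply, Finset.sum_apply, Pi.smul_apply, smul_eq_mul,
        Pi.zero_apply] at h3
      rw [Fintype.sum_option]
      simp only [Fin.cons_zero, zero_smul, zero_add, Pi.add_apply, Finset.sum_apply,
        Pi.smul_apply, smul_eq_mul, Option.elim, Fin.cons_succ, lift, hg, hr, Pi.zero_apply]
      have h5 := congrArg ren h3
      simp only [map_add, map_sum, map_mul, map_zero] at h5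
      exact (add_comm _ _).trans h5
  · intro G H hGH
    rw [sum_split] at hGH
    obtain ⟨h0, hk⟩ := rel_ext hA hgr hGH
    have h1 : ∀ k, ∃ c, (∀ i, (TT K l (G i.succ)).coeff k = c * f i) ∧
        (TT K l H).coeff k = c * α := by
      intro k
      apply h.relations
      have := hk k
      rw [Fintype.sum_option] at this
      simp only [Option.elim, hg] at this
      rw [add_comm]
      exact this
    choose c hc1 hc2 using h1
    obtain ⟨N, hN⟩ := exists_bound Finset.univ G
    set M := max N ((TT K l H).natDegree + 1) with hM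
    refine ⟨asm M c, fun i => ?_, ?_⟩
    · refine Fin.cases ?_ (fun i => ?_) i
      · rw [h0]; simp
      · apply (TT K l).injective
        have h2 := asm_coeff (N := M) (p := G i.succ)
          (lt_of_lt_of_le (hN _ (Finset.mem_univ _)) (le_max_left _ _))
        rw [← h2, map_mul, TT_asm, TT_asm]
        show _ = _ * TT K l (ren (f i))
        rw [TT_rename, Finset.sum_mul]
        refine Finset.sum_congr rfl fun k _ => ?_
        rw [hc1, Polynomial.C_mul]
        ring
    · apply (TT K l).injective
      have h2 := asm_coeff (N := M) (p := H)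
        (lt_of_lt_of_le (Nat.lt_succ_self _) (le_max_right _ _))
      rw [← h2, map_mul, TT_asm, TT_asm, TT_rename, Finset.sum_mul]
      refine Finset.sum_congr rfl fun k _ => ?_
      rw [hc2, Polynomial.C_mul]
      ring
  · rcases h.nonzero with h1 | ⟨i, h1⟩
    · left
      intro h2
      exact h1 (ren_inj (by rw [h2, map_zero]))
    · right
      refine ⟨i.succ, ?_⟩
      simp only [Fin.cons_succ]
      intro h2
      exact h1 (ren_inj (by rw [h2, map_zero]))
  · intro i
    refine Fin.cases ?_ (fun i => ?_) i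
    · exact map_zero _
    · simp only [Fin.cons_succ]
      rw [constantCoeff_rename]
      exact h.minimal i

end Pool.Agent.Zk48.PO
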