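import Mathlib

set_option autoImplicit false

/-!
# Explicit polynomials for the family of twelve lines
-/

namespace Pool.Agent.Zk48.PO

variable {R : Type*} [CommRing R]

/-- auxiliary polynomial -/
def Nn (t x y : R) : R := (x + y) * (x + t * y) * (2 * x + y) * (2 * x + t * y)
/-- auxiliary polynomial -/
def Ww (t x y : R) : R := 2 * x + (1 + t) * y
/-- auxiliary polynomial -/
def V1 (t x y : R) : R := x * Ww t x y
/-- auxiliary polynomial -/
def V2 (t x y z : R) : R := 2 * (1 + t) * z ^ 2 + (t - 1) ^ 2 * (x * y)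
/-- auxiliary polynomial -/
def F1 (t x y z : R) : R :=
  z * (Nn t x y * Ww t x y - (x + t * y) * (2 * x + t * y) * Ww t x y * (z ^ 2 - x ^ 2) +
    (3 * x + (t + 1) * y) * (z ^ 2 - x ^ 2) * (z ^ 2 - (x + y) ^ 2))
/-- auxiliary polynomial -/
def F2 (t x y z : R) : R :=
  z * (Nn t x y * (2 * (1 + t) * x + (t - 1) ^ 2 * y) +
    (x + t * y) * (2 * x + t * y) * (2 * (1 + t) * x + (2 * (1 + t) - (t - 1) ^ 2) * y) *
      (z ^ 2 - x ^ 2) -
    ((1 + t) * x + (4 * t - t ^ 2 - 1) * y) * (z ^ 2 - x ^ 2) * (z ^ 2 - (x + y) ^ 2))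
/-- auxiliary polynomial -/
def QQp (t x y z : R) : R :=
  z * (z ^ 2 - x ^ 2) * (z ^ 2 - (x + y) ^ 2) * (z ^ 2 - (x + t * y) ^ 2)
/-- auxiliary polynomial -/
def Al (t x y : R) : R := 2 * (1 + t) * (3 * x + (1 + t) * y)

theorem rel_B (t x y z : R) :
    V2 t x y z * F1 t x y z - V1 t x y * F2 t x y z = Al t x y * QQp t x y z := by
  unfold V2 F1 V1 F2 Al QQp Nn Ww
  ring

theorem F1_a (t x y : R) : F1 t x y x = V1 t x y * Nn t x y := by
  unfold F1 V1 Nn Ww; ring
theorem F1_b (t x y : R) : F1 t x y (x + y) = V1 t x y * Nn t x y := by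
  unfold F1 V1 Nn Ww; ring
theorem F1_c (t x y : R) : F1 t x y (x + t * y) = V1 t x y * Nn t x y := by
  unfold F1 V1 Nn Ww; ring
theorem F1_neg (t x y z : R) : F1 t x y (-z) = - F1 t x y z := by
  unfold F1; ring
theorem F2_a (t x y : R) : F2 t x y x = V2 t x y x * Nn t x y := by
  unfold F2 V2 Nn; ring
theorem F2_b (t x y : R) : F2 t x y (x + y) = V2 t x y (x + y) * Nn t x y := by
  unfold F2 V2 Nn; ring
theorem F2_c (t x y : R) : F2 t x y (x + t * y) = V2 t x y (x + t * y) * Nn t x y := by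
  unfold F2 V2 Nn; ring
theorem F2_neg (t x y z : R) : F2 t x y (-z) = - F2 t x y z := by
  unfold F2; ring
theorem V2_neg (t x y z : R) : V2 t x y (-z) = V2 t x y z := by
  unfold V2; ring

/-- `V2` vanishes at `z = ± (x + y)` modulo `w` -/
theorem V2_w (t x y : R) : V2 t x y (x + y) = Ww t x y * ((1 + t) * x + 2 * y) := by
  unfold V2 Ww; ring

/-! The special member `t = -1`. -/

/-- auxiliary polynomial -/
def Nm (x y : R) : R := (x + y) * (x - y) * (2 * x + y) * (2 * x - y)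
/-- auxiliary polynomial -/
def G1 (x y z : R) : R :=
  z * (2 * Nm x y - 2 * (x - y) * (2 * x - y) * (z ^ 2 - x ^ 2) +
    3 * (z ^ 2 - x ^ 2) * (z ^ 2 - (x + y) ^ 2))
/-- auxiliary polynomial -/
def V3 (x y z : R) : R := (z ^ 2 - x ^ 2) * (z ^ 2 - (x + y) ^ 2)
/-- auxiliary polynomial -/
def G3 (x y z : R) : R := V3 x y z * (z * ((x + y) * (2 * x + y) * (2 * x - y)))
/-- auxiliary polynomial -/
def Cc (x y z : R) : R := 3 * z ^ 2 - 7 * x ^ 2 - 6 * (x * y) - 2 * y ^ 2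

theorem rel_A (x y z : R) :
    V3 x y z * G1 x y z - 2 * x * G3 x y z = Cc x y z * QQp (-1) x y z := by
  unfold V3 G1 G3 Cc QQp Nm V3
  ring

theorem Nn_neg_one (x y : R) : Nn (-1) x y = Nm x y := by
  unfold Nn Nm; ring

theorem G1_a (x y : R) : G1 x y x = 2 * x * Nm x y := by
  unfold G1 Nm; ring
theorem G1_b (x y : R) : G1 x y (x + y) = 2 * x * Nm x y := by
  unfold G1 Nm; ring
theorem G1_c (x y : R) : G1 x y (x - y) = 2 * x * Nm x y := by
  unfold G1 Nm; ring
theorem G1_neg (x y z : R) : G1 x y (-z) = - G1 x y z := by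
  unfold G1; ring
theorem G3_a (x y : R) : G3 x y x = V3 x y x * Nm x y := by
  unfold G3 V3 Nm; ring
theorem G3_b (x y : R) : G3 x y (x + y) = V3 x y (x + y) * Nm x y := by
  unfold G3 V3 Nm; ring
theorem G3_c (x y : R) : G3 x y (x - y) = V3 x y (x - y) * Nm x y := by
  unfold G3 V3 Nm; ring
theorem G3_neg (x y z : R) : G3 x y (-z) = - G3 x y z := by
  unfold G3 V3; ring
theorem V3_neg (x y z : R) : V3 x y (-z) = V3 x y z := by
  unfold V3; ring

end Pool.Agent.Zk48.PO
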