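import Mathlib
import Pool.Agent.Zk48.PO.Defs
import Pool.Agent.Zk48.PO.Model
import Pool.Agent.Zk48.PO.Two

set_option autoImplicit false

/-!
# Arrangements in `K^3` written with a distinguished point

The coordinates of `K^3` are `z, x, y` (in this order). The arrangement `pencil nd dr` consists
of the planes `z = p x + q y` for the pairs `(p, q)` in `nd` and of the planes `d x + e y = 0` for
the pairs `(d, e)` in `dr`.
-/

namespace Pool.Agent.Zk48.PO

open MvPolynomial

universe u

variable {K : Type u} [Field K] {m r : ℕ}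

/-- the planes `z = p x + q y` and `d x + e y = 0` -/
def pencil (nd : Fin m → K × K) (dr : Fin r → K × K) : Fin (m + r) → Fin 3 → K :=
  Fin.append (fun i => ![1, -(nd i).1, -(nd i).2]) (fun k => ![0, (dr k).1, (dr k).2])

theorem forall_append {α : Type*} (a : Fin m → α) (b : Fin r → α) (P : α → Prop) :
    (∀ i, P (Fin.append a b i)) ↔ (∀ i, P (a i)) ∧ (∀ k, P (b k)) := by
  constructor
  · intro h
    refine ⟨fun i => ?_, fun k => ?_⟩
    · have := h (Fin.castAdd r i)
      rwa [Fin.append_left] at this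
    · have := h (Fin.natAdd m k)
      rwa [Fin.append_right] at this
  · rintro ⟨h1, h2⟩ i
    refine Fin.addCases (fun i => ?_) (fun k => ?_) i
    · rw [Fin.append_left]; exact h1 i
    · rw [Fin.append_right]; exact h2 k

/-- `x` in `K[x,y][z]` -/
noncomputable abbrev px (K : Type u) [Field K] : PP K 2 := Polynomial.C (X 0)
/-- `y` in `K[x,y][z]` -/
noncomputable abbrev py (K : Type u) [Field K] : PP K 2 := Polynomial.C (X 1)
/-- constants in `K[x,y][z]` -/
noncomputable abbrev pc (c : K) : PP K 2 := Polynomial.C (C c)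

/-- the conditions defining `D(A)` in `K[x,y][z]` -/
def IsLog (nd : Fin m → K × K) (dr : Fin r → K × K) (a b c : PP K 2) : Prop :=
  (∀ i, (Polynomial.X - Polynomial.C (lf (nd i).1 (nd i).2)) ∣
      a - (pc (nd i).1 * b + pc (nd i).2 * c)) ∧
  (∀ k, Polynomial.C (lf (dr k).1 (dr k).2) ∣ pc (dr k).1 * b + pc (dr k).2 * c)

theorem mem_logDer_pencil {nd : Fin m → K × K} {dr : Fin r → K × K}
    {θ : Fin 3 → MvPolynomial (Fin 3) K} :
    θ ∈ logDer (pencil nd dr) ↔
      IsLog nd dr (TT K 2 (θ 0)) (TT K 2 (θ 1)) (TT K 2 (θ 2)) := by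
  rw [mem_logDer]
  unfold pencil
  rw [forall_append _ _ (fun v : Fin 3 → K => TT K 2 (linearForm v) ∣
      ∑ j, Polynomial.C (C (v j)) * TT K 2 (θ j))]
  have hX1 : TT K 2 (X 1) = Polynomial.C (X 0) := TT_Xs (K := K) (l := 2) 0
  have hX2 : TT K 2 (X 2) = Polynomial.C (X 1) := TT_Xs (K := K) (l := 2) 1
  unfold IsLog
  refine and_congr (forall_congr' fun i => ?_) (forall_congr' fun k => ?_)
  · have h1 : TT K 2 (linearForm ![1, -(nd i).1, -(nd i).2]) =
        Polynomial.X - Polynomial.C (lf (nd i).1 (nd i).2) := by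
      unfold linearForm lf
      rw [Fin.sum_univ_three, map_add, map_add, map_mul, map_mul, map_mul, TT_C, TT_C, TT_C,
        TT_X0, hX1, hX2]
      simp
      ring
    have h2 : ∑ j, Polynomial.C (C ((![1, -(nd i).1, -(nd i).2] : Fin 3 → K) j)) *
        TT K 2 (θ j) = TT K 2 (θ 0) -
        (pc (nd i).1 * TT K 2 (θ 1) + pc (nd i).2 * TT K 2 (θ 2)) := by
      rw [Fin.sum_univ_three]
      simp
      ring
    rw [h1, h2]
  · have h1 : TT K 2 (linearForm ![0, (dr k).1, (dr k).2]) =
        Polynomial.C (lf (dr k).1 (dr k).2) := by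
      unfold linearForm lf
      rw [Fin.sum_univ_three, map_add, map_add, map_mul, map_mul, map_mul, TT_C, TT_C, TT_C,
        TT_X0, hX1, hX2]
      simp
    have h2 : ∑ j, Polynomial.C (C ((![0, (dr k).1, (dr k).2] : Fin 3 → K) j)) *
        TT K 2 (θ j) = pc (dr k).1 * TT K 2 (θ 1) + pc (dr k).2 * TT K 2 (θ 2) := by
      rw [Fin.sum_univ_three]
      simp
    rw [h1, h2]

/-- pairwise non-proportional directions -/
def Indep2 (dr : Fin r → K × K) : Prop :=
  (∀ k, (dr k).1 ≠ 0 ∨ (dr k).2 ≠ 0) ∧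
    ∀ k k', k ≠ k' → (dr k).1 * (dr k').2 - (dr k').1 * (dr k).2 ≠ 0

/-- The derivations of `K[x,y]` (with extra variable `z`) tangent to the pencil of lines. -/
theorem pencil_decomp {dr : Fin r → K × K} (hdr : Indep2 dr)
    {ηx ηy Q : MvPolynomial (Fin 2) K} (hη : X 0 * ηy - X 1 * ηx = Q)
    (hQ : Associated Q (∏ k, lf (dr k).1 (dr k).2)) {b c : PP K 2}
    (h : ∀ k, Polynomial.C (lf (dr k).1 (dr k).2) ∣ pc (dr k).1 * b + pc (dr k).2 * c) :
    ∃ u v : PP K 2, b = u * px K + v * Polynomial.C ηx ∧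
      c = u * py K + v * Polynomial.C ηy := by
  have h1 : ∀ k, Polynomial.C (lf (dr k).1 (dr k).2) ∣ px K * c - py K * b := by
    intro k
    obtain ⟨g, hg⟩ := h k
    have e1 : Polynomial.C (lf (dr k).1 (dr k).2) = pc (dr k).1 * px K + pc (dr k).2 * py K := by
      simp [lf]
    rw [e1] at hg ⊢
    rcases hdr.1 k with h0 | h0
    · refine ⟨pc (dr k).1⁻¹ * (c - py K * g), ?_⟩
      have e2 : pc (dr k).1⁻¹ * pc (dr k).1 = (1 : PP K 2) := by
        unfold pc
        rw [← Polynomial.C_mul, ← C_mul, inv_mul_cancel₀ h0]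
        simp
      linear_combination (-(px K) * c + py K * b) * e2 - (pc (dr k).1⁻¹ * py K) * hg
    · refine ⟨pc (dr k).2⁻¹ * (px K * g - b), ?_⟩
      have e2 : pc (dr k).2⁻¹ * pc (dr k).2 = (1 : PP K 2) := by
        unfold pc
        rw [← Polynomial.C_mul, ← C_mul, inv_mul_cancel₀ h0]
        simp
      linear_combination (-(px K) * c + py K * b) * e2 + (pc (dr k).2⁻¹ * px K) * hg
  have h2 : Polynomial.C Q ∣ px K * c - py K * b := by
    rw [Polynomial.C_dvd_iff_dvd_coeff]
    intro i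
    rw [hQ.dvd_iff_dvd_left]
    apply Finset.prod_dvd_of_isRelPrime
    · intro k _ k' _ hkk
      refine (Irreducible.isRelPrime_iff_not_dvd (prime_lf (hdr.1 k)).irreducible).2 ?_
      apply lf_not_dvd
      rw [eval_lf]
      have := hdr.2 k k' hkk
      intro h0
      apply this
      simp at h0
      linear_combination (-1 : K) * h0
    · intro k _
      exact (Polynomial.C_dvd_iff_dvd_coeff _ _).1 (h1 k) i
  obtain ⟨s, hs⟩ := h2
  have h3 : px K * (c - s * Polynomial.C ηy) = py K * (b - s * Polynomial.C ηx) := by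
    have : Polynomial.C Q = px K * Polynomial.C ηy - py K * Polynomial.C ηx := by
      rw [← hη]; simp
    rw [this] at hs
    linear_combination hs
  have hpx : Prime (px K) := Polynomial.prime_C_iff.2 X_prime
  have hxy : ¬ px K ∣ py K := by
    intro h0
    have h4 := (Polynomial.C_dvd_iff_dvd_coeff _ _).1 h0 0
    rw [Polynomial.coeff_C_zero] at h4
    exact not_dvd_of_eval (![0, 1] : Fin 2 → K) (by simp) (by simp) h4
  have h4 : px K ∣ b - s * Polynomial.C ηx := by
    rcases hpx.dvd_or_dvd (show px K ∣ py K * (b - s * Polynomial.C ηx) from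
      ⟨_, h3.symm⟩) with h5 | h5
    · exact absurd h5 hxy
    · exact h5
  obtain ⟨u, hu⟩ := h4
  refine ⟨u, s, ?_, ?_⟩
  · linear_combination hu
  · have h5 : px K * (c - s * Polynomial.C ηy) = px K * (py K * u) := by
      rw [h3, hu]; ring
    have h6 := mul_left_cancel₀ hpx.ne_zero h5
    linear_combination h6

/-- the node conditions -/
theorem node_eval {nd : Fin m → K × K} {dr : Fin r → K × K} {a b c u v : PP K 2}
    {ηx ηy : MvPolynomial (Fin 2) K}
    (h : IsLog nd dr a b c) (hb : b = u * px K + v * Polynomial.C ηx)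
    (hc : c = u * py K + v * Polynomial.C ηy) (i : Fin m) :
    (a - u * Polynomial.X).eval (lf (nd i).1 (nd i).2) =
      v.eval (lf (nd i).1 (nd i).2) * (C (nd i).1 * ηx + C (nd i).2 * ηy) := by
  have h1 := Polynomial.dvd_iff_isRoot.1 (h.1 i)
  rw [Polynomial.IsRoot.def, Polynomial.eval_sub, Polynomial.eval_add, Polynomial.eval_mul,
    Polynomial.eval_mul, Polynomial.eval_C, Polynomial.eval_C, hb, hc] at h1
  simp only [Polynomial.eval_add, Polynomial.eval_mul, Polynomial.eval_C] at h1
  rw [Polynomial.eval_sub, Polynomial.eval_mul, Polynomial.eval_X]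
  have h2 : lf (nd i).1 (nd i).2 = C (nd i).1 * X 0 + C (nd i).2 * X 1 := rfl
  rw [h2] at h1 ⊢
  linear_combination h1

/-- converse of the node conditions -/
theorem isLog_of {nd : Fin m → K × K} {dr : Fin r → K × K} {a b c v : PP K 2}
    {ηx ηy : MvPolynomial (Fin 2) K}
    (hηd : ∀ k, lf (dr k).1 (dr k).2 ∣ C (dr k).1 * ηx + C (dr k).2 * ηy)
    (hb : b = v * Polynomial.C ηx) (hc : c = v * Polynomial.C ηy)
    (h : ∀ i, a.eval (lf (nd i).1 (nd i).2) =
      v.eval (lf (nd i).1 (nd i).2) * (C (nd i).1 * ηx + C (nd i).2 * ηy)) :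
    IsLog nd dr a b c := by
  constructor
  · intro i
    rw [Polynomial.dvd_iff_isRoot, Polynomial.IsRoot.def, hb, hc]
    simp only [Polynomial.eval_sub, Polynomial.eval_add, Polynomial.eval_mul, Polynomial.eval_C]
    rw [h i]
    ring
  · intro k
    obtain ⟨g, hg⟩ := hηd k
    refine ⟨v * Polynomial.C g, ?_⟩
    have : pc (dr k).1 * b + pc (dr k).2 * c =
        v * Polynomial.C (C (dr k).1 * ηx + C (dr k).2 * ηy) := by
      rw [hb, hc]; simp; ring
    rw [this, hg, Polynomial.C_mul]
    ring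

end Pool.Agent.Zk48.PO
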