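import Mathlib
import Pool.Agent.Zk48.PO.Pencil
import Pool.Agent.Zk48.PO.FamPoly
import Pool.Agent.Zk48.PO.Interp

set_option autoImplicit false

/-!
# The general member of the family: interpolation
-/

namespace Pool.Agent.Zk48.PO

open MvPolynomial

universe u

variable {K : Type u} [Field K] {τ : K}

/-- the node conditions -/
structure NodeCond (τ : K) (f v : PP K 2) : Prop where
  h0 : f.eval 0 = 0
  hx : f.eval (X 0) = v.eval (X 0) * Nn (C τ) (X 0) (X 1)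
  hx' : f.eval (-X 0) = -(v.eval (-X 0) * Nn (C τ) (X 0) (X 1))
  hy : f.eval (X 0 + X 1) = v.eval (X 0 + X 1) * Nn (C τ) (X 0) (X 1)
  hy' : f.eval (-(X 0 + X 1)) = -(v.eval (-(X 0 + X 1)) * Nn (C τ) (X 0) (X 1))
  hz : f.eval (X 0 + C τ * X 1) = v.eval (X 0 + C τ * X 1) * Nn (C τ) (X 0) (X 1)
  hz' : f.eval (-(X 0 + C τ * X 1)) =
    -(v.eval (-(X 0 + C τ * X 1)) * Nn (C τ) (X 0) (X 1))

theorem isUnit_C {σ : Type*} {c : K} (hc : c ≠ 0) : IsUnit (C c : MvPolynomial σ K) :=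
  (isUnit_iff_ne_zero.2 hc).map C

theorem isUnit_two {σ : Type*} (h2 : (2 : K) ≠ 0) : IsUnit (2 : MvPolynomial σ K) := by
  have := isUnit_C (σ := σ) h2
  rwa [map_ofNat] at this

theorem x_ndvd_N (h0 : τ ≠ 0) :
    ¬ (X 0 : MvPolynomial (Fin 2) K) ∣ Nn (C τ) (X 0) (X 1) := by
  apply not_dvd_of_eval (![0, 1] : Fin 2 → K) (by simp)
  simp [Nn, h0]

theorem w_eq : Ww (C τ) (X 0) (X 1) = (lf 2 (1 + τ) : MvPolynomial (Fin 2) K) := by
  unfold Ww lf
  rw [map_ofNat, map_add, map_one]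

theorem prime_w (h2 : (2 : K) ≠ 0) :
    Prime (Ww (C τ) (X 0) (X 1) : MvPolynomial (Fin 2) K) := by
  rw [w_eq]; exact prime_lf (Or.inl h2)

theorem w_ndvd_N (h2 : (2 : K) ≠ 0) (h0 : τ ≠ 0) (h1 : τ ≠ 1) :
    ¬ (Ww (C τ) (X 0) (X 1) : MvPolynomial (Fin 2) K) ∣ Nn (C τ) (X 0) (X 1) := by
  rw [w_eq]
  apply lf_not_dvd
  have : eval ![1 + τ, -2] (Nn (C τ) (X 0) (X 1)) = - 4 * (τ - 1) ^ 2 * τ := by
    simp [Nn]; ring
  rw [this]
  have h3 : τ - 1 ≠ 0 := sub_ne_zero.2 h1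
  have h4 : (4 : K) ≠ 0 := by
    have : (4 : K) = 2 * 2 := by norm_num
    rw [this]; exact mul_ne_zero h2 h2
  exact mul_ne_zero (mul_ne_zero (neg_ne_zero.2 h4) (pow_ne_zero _ h3)) h0

theorem w_ndvd_n (h1 : τ ≠ 1) :
    ¬ (Ww (C τ) (X 0) (X 1) : MvPolynomial (Fin 2) K) ∣ X 0 + X 1 := by
  rw [w_eq]
  apply lf_not_dvd
  have : eval ![1 + τ, -2] (X 0 + X 1 : MvPolynomial (Fin 2) K) = τ - 1 := by
    simp; ring
  rw [this]
  exact sub_ne_zero.2 h1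

theorem w_ndvd_x (hm : τ ≠ -1) :
    ¬ (Ww (C τ) (X 0) (X 1) : MvPolynomial (Fin 2) K) ∣ X 0 := by
  rw [w_eq]
  apply lf_not_dvd
  have : eval ![1 + τ, -2] (X 0 : MvPolynomial (Fin 2) K) = 1 + τ := by
    simp
  rw [this]
  intro h
  exact hm (by linear_combination h)

/-- consequences of the node conditions for `v` -/
theorem cond_v (h2 : (2 : K) ≠ 0) (h0 : τ ≠ 0) (h1 : τ ≠ 1) {f v : PP K 2}
    (h : NodeCond τ f v) :
    (X 0 ∣ v.coeff 0 ∧ X 0 ∣ v.coeff 1) ∧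
    (Ww (C τ) (X 0) (X 1) ∣ v.eval (X 0 + X 1) ∧
     Ww (C τ) (X 0) (X 1) ∣ v.eval (-(X 0 + X 1))) := by
  refine ⟨collide3 X_prime (x_ndvd_N h0) (isUnit_two h2) h.h0 h.hx h.hx', ?_, ?_⟩
  · refine (collide (prime_w h2) (w_ndvd_N h2 h0 h1) (isUnit_two h2) (b := -(X 0 + C τ * X 1))
      ?_ h.hy h.hz').1
    refine ⟨1, ?_⟩
    unfold Ww
    ring
  · refine (collide (prime_w h2) (w_ndvd_N h2 h0 h1) (isUnit_two h2) (a := (X 0 + C τ * X 1))
      ?_ h.hz h.hy').2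
    refine ⟨1, ?_⟩
    unfold Ww
    ring

/-- the polynomial of degree two in `z` -/
noncomputable def VV (τ : K) : PP K 2 :=
  Polynomial.X ^ 2 + Polynomial.C (C ((τ - 1) ^ 2 * (2 * (1 + τ))⁻¹) * (X 0 * X 1))

theorem VV_monic : (VV τ).Monic := by
  unfold VV
  exact Polynomial.monic_X_pow_add_C _ (by norm_num)

theorem VV_natDegree : (VV τ).natDegree = 2 := by
  unfold VV
  exact Polynomial.natDegree_X_pow_add_C

theorem V2_eq (h2 : (2 : K) ≠ 0) (hm : τ ≠ -1) :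
    V2 (pc τ) (px K) (py K) Polynomial.X = pc (2 * (1 + τ)) * VV τ := by
  have h3 : 1 + τ ≠ 0 := fun h => hm (by linear_combination h)
  have h4 : (2 * (1 + τ)) ≠ 0 := mul_ne_zero h2 h3
  have h6 : pc (2 * (1 + τ)) * pc ((τ - 1) ^ 2 * (2 * (1 + τ))⁻¹) = pc ((τ - 1) ^ 2) := by
    unfold pc
    rw [← Polynomial.C_mul, ← C_mul]; congr 2; field_simp
  have h7 : pc (2 * (1 + τ)) = 2 * (1 + pc τ) := by
    unfold pc
    simp only [map_mul, map_add, map_one, map_ofNat]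
  have h8 : pc ((τ - 1) ^ 2) = (pc τ - 1) ^ 2 := by
    unfold pc
    simp only [map_pow, map_sub, map_one]
  have h9 : VV τ = Polynomial.X ^ 2 + pc ((τ - 1) ^ 2 * (2 * (1 + τ))⁻¹) * (px K * py K) := by
    unfold VV
    rw [Polynomial.C_mul, Polynomial.C_mul]
  rw [h8] at h6
  unfold V2
  rw [h9]
  linear_combination (-(Polynomial.X ^ 2 : PP K 2)) * h7 - (px K * py K) * h6

theorem V2_dvd (h2 : (2 : K) ≠ 0) (hm : τ ≠ -1) {s : MvPolynomial (Fin 2) K}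
    (hs : Ww (C τ) (X 0) (X 1) ∣ V2 (C τ) (X 0) (X 1) s) :
    Ww (C τ) (X 0) (X 1) ∣ (VV τ).eval s := by
  have h3 : 1 + τ ≠ 0 := fun h => hm (by linear_combination h)
  have h4 : (2 * (1 + τ)) ≠ 0 := mul_ne_zero h2 h3
  have h5 := congrArg (Polynomial.eval s) (V2_eq h2 hm)
  have h6 : (V2 (pc τ) (px K) (py K) Polynomial.X).eval s = V2 (C τ) (X 0) (X 1) s := by
    simp [V2]
  rw [h6, Polynomial.eval_mul, Polynomial.eval_C] at h5
  rw [h5] at hs
  exact ((isUnit_C h4).dvd_mul_left).1 hs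

theorem gen_v (h2 : (2 : K) ≠ 0) (h0 : τ ≠ 0) (h1 : τ ≠ 1) (hm : τ ≠ -1) {f v : PP K 2}
    (h : NodeCond τ f v) :
    ∃ g1 g2 : PP K 2, v = g1 * V1 (pc τ) (px K) (py K) +
      g2 * V2 (pc τ) (px K) (py K) Polynomial.X := by
  have h3 : 1 + τ ≠ 0 := fun h => hm (by linear_combination h)
  have h4 : (2 * (1 + τ)) ≠ 0 := mul_ne_zero h2 h3
  obtain ⟨⟨c0, c1⟩, c2, c3⟩ := cond_v h2 h0 h1 h
  have hw := prime_w (τ := τ) h2
  set q := v /ₘ VV τ with hq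
  set r := v %ₘ VV τ with hr
  have hv : v = r + VV τ * q := (Polynomial.modByMonic_add_div v (VV τ)).symm
  have hdeg : r.natDegree ≤ 1 := by
    have := Polynomial.natDegree_modByMonic_lt v VV_monic (by
      intro h5
      have := VV_natDegree (τ := τ)
      rw [h5] at this
      simp at this)
    rw [VV_natDegree, ← hr] at this
    omega
  have hr2 := Polynomial.eq_X_add_C_of_natDegree_le_one hdeg
  set s := r.coeff 0
  set t := r.coeff 1
  have hV0 : (VV τ).coeff 0 = C ((τ - 1) ^ 2 * (2 * (1 + τ))⁻¹) * (X 0 * X 1) := by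
    unfold VV
    rw [Polynomial.coeff_add, Polynomial.coeff_X_pow, Polynomial.coeff_C_zero, if_neg (by norm_num),
      zero_add]
  have hV1 : (VV τ).coeff 1 = 0 := by
    unfold VV
    rw [Polynomial.coeff_add, Polynomial.coeff_X_pow, Polynomial.coeff_C, if_neg (by norm_num),
      if_neg (by norm_num), zero_add]
  have hx0 : (X 0 : MvPolynomial (Fin 2) K) ∣ (VV τ).coeff 0 := by
    rw [hV0]; exact ⟨C ((τ - 1) ^ 2 * (2 * (1 + τ))⁻¹) * X 1, by ring⟩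
  have hs0 : X 0 ∣ s := by
    have e : v.coeff 0 = s + (VV τ).coeff 0 * q.coeff 0 := by
      conv_lhs => rw [hv]
      rw [Polynomial.coeff_add, Polynomial.mul_coeff_zero]
    rw [e] at c0
    exact (dvd_add_left (hx0.mul_right _)).1 c0
  have ht0 : X 0 ∣ t := by
    have e : v.coeff 1 = t + ((VV τ).coeff 0 * q.coeff 1 + (VV τ).coeff 1 * q.coeff 0) := by
      conv_lhs => rw [hv]
      rw [Polynomial.coeff_add, Polynomial.mul_coeff_one]
    rw [e, hV1, zero_mul, add_zero] at c1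
    exact (dvd_add_left (hx0.mul_right _)).1 c1
  have e1 : Ww (C τ) (X 0) (X 1) ∣ t * (X 0 + X 1) + s := by
    have e : v.eval (X 0 + X 1) = (t * (X 0 + X 1) + s) + (VV τ).eval (X 0 + X 1) *
        q.eval (X 0 + X 1) := by
      conv_lhs => rw [hv, hr2]
      simp
    rw [e] at c2
    refine (dvd_add_left ((V2_dvd h2 hm ?_).mul_right _)).1 c2
    exact ⟨_, V2_w _ _ _⟩
  have e2 : Ww (C τ) (X 0) (X 1) ∣ t * (-(X 0 + X 1)) + s := by
    have e : v.eval (-(X 0 + X 1)) = (t * (-(X 0 + X 1)) + s) + (VV τ).eval (-(X 0 + X 1)) *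
        q.eval (-(X 0 + X 1)) := by
      conv_lhs => rw [hv, hr2]
      simp
    rw [e] at c3
    refine (dvd_add_left ((V2_dvd h2 hm ?_).mul_right _)).1 c3
    rw [V2_neg]
    exact ⟨_, V2_w _ _ _⟩
  have hs1 : Ww (C τ) (X 0) (X 1) ∣ s := by
    have : Ww (C τ) (X 0) (X 1) ∣ 2 * s := by
      have e : 2 * s = (t * (X 0 + X 1) + s) + (t * (-(X 0 + X 1)) + s) := by ring
      rw [e]; exact dvd_add e1 e2
    exact ((isUnit_two h2).dvd_mul_left).1 this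
  have ht1 : Ww (C τ) (X 0) (X 1) ∣ t := by
    have : Ww (C τ) (X 0) (X 1) ∣ t * (X 0 + X 1) := by
      have e : t * (X 0 + X 1) = (t * (X 0 + X 1) + s) - s := by ring
      rw [e]; exact dvd_sub e1 hs1
    rcases hw.dvd_or_dvd this with h5 | h5
    · exact h5
    · exact absurd h5 (w_ndvd_n h1)
  obtain ⟨s', hs'⟩ := mul_dvd_of hw (w_ndvd_x hm) hs0 hs1
  obtain ⟨t', ht'⟩ := mul_dvd_of hw (w_ndvd_x hm) ht0 ht1
  refine ⟨Polynomial.C t' * Polynomial.X + Polynomial.C s', pc (2 * (1 + τ))⁻¹ * q, ?_⟩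
  have e3 : pc (2 * (1 + τ))⁻¹ * pc (2 * (1 + τ)) = (1 : PP K 2) := by
    unfold pc
    rw [← Polynomial.C_mul, ← C_mul, inv_mul_cancel₀ h4]
    simp
  have e4 : V1 (pc τ) (px K) (py K) = Polynomial.C (X 0 * Ww (C τ) (X 0) (X 1)) := by
    unfold V1 Ww
    simp only [map_mul, map_add, map_one, map_ofNat]
  rw [V2_eq h2 hm, e4]
  conv_lhs => rw [hv, hr2, hs', ht']
  simp only [Polynomial.C_mul]
  linear_combination (-(VV τ) * q) * e3

end Pool.Agent.Zk48.PO
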