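import Mathlib
import Pool.Agent.Zk48.PO.FamB

set_option autoImplicit false

/-!
# The family of arrangements of twelve planes
-/

namespace Pool.Agent.Zk48.PO

open MvPolynomial

universe u

variable {K : Type u} [Field K] {τ : K}

/-- the seven planes `z = p x + q y` -/
def nd7 (τ : K) : Fin 7 → K × K :=
  ![(0, 0), (1, 0), (-1, 0), (1, 1), (-1, -1), (1, τ), (-1, -τ)]

/-- the five planes `d x + e y = 0` -/
def dr5 (τ : K) : Fin 5 → K × K := ![(0, 1), (1, 1), (1, τ), (2, 1), (2, τ)]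

/-- the admissible parameters -/
structure Good (τ : K) : Prop where
  two : (2 : K) ≠ 0
  t0 : τ ≠ 0
  t1 : τ ≠ 1
  t2 : τ ≠ 2
  t3 : 2 * τ ≠ 1

theorem indep_dr5 (h : Good τ) : Indep2 (dr5 τ) := by
  have h2 := h.two
  have a1 : τ - 1 ≠ 0 := sub_ne_zero.2 h.t1
  have a2 : τ - 2 ≠ 0 := sub_ne_zero.2 h.t2
  have a3 : 2 * τ - 1 ≠ 0 := sub_ne_zero.2 h.t3
  have key : ∀ c : K, c ≠ 0 → ∀ d : K, (d = c ∨ d = -c) → d ≠ 0 := by
    rintro c hc d (rfl | rfl)
    · exact hc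
    · exact neg_ne_zero.2 hc
  constructor
  · intro k
    fin_cases k <;> simp [dr5, h2]
  · have hk : ∀ k k' : Fin 5, k < k' →
        (dr5 τ k).1 * (dr5 τ k').2 - (dr5 τ k').1 * (dr5 τ k).2 ≠ 0 := by
      intro k k' hkk
      fin_cases k <;> fin_cases k' <;> simp only [Fin.mk_lt_mk] at hkk <;>
        try (exfalso; revert hkk; decide)
      · show (0 : K) * 1 - 1 * 1 ≠ 0
        exact key 1 one_ne_zero _ (Or.inr (by ring1))
      · show (0 : K) * τ - 1 * 1 ≠ 0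
        exact key 1 one_ne_zero _ (Or.inr (by ring1))
      · show (0 : K) * 1 - 2 * 1 ≠ 0
        exact key 2 h2 _ (Or.inr (by ring1))
      · show (0 : K) * τ - 2 * 1 ≠ 0
        exact key 2 h2 _ (Or.inr (by ring1))
      · show (1 : K) * τ - 1 * 1 ≠ 0
        exact key _ a1 _ (Or.inl (by ring1))
      · show (1 : K) * 1 - 2 * 1 ≠ 0
        exact key 1 one_ne_zero _ (Or.inr (by ring1))
      · show (1 : K) * τ - 2 * 1 ≠ 0
        exact key _ a2 _ (Or.inl (by ring1))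
      · show (1 : K) * 1 - 2 * τ ≠ 0
        exact key _ a3 _ (Or.inr (by ring1))
      · show (1 : K) * τ - 2 * τ ≠ 0
        exact key _ h.t0 _ (Or.inr (by ring1))
      · show (2 : K) * τ - 2 * 1 ≠ 0
        exact key _ (mul_ne_zero h2 a1) _ (Or.inl (by ring1))
    intro k k' hne
    rcases lt_or_gt_of_ne hne with h5 | h5
    · exact hk k k' h5
    · have := hk k' k h5
      intro h6
      exact this (by linear_combination (-1 : K) * h6)

theorem hη7 : (X 0 * 0 - X 1 * Nn (C τ) (X 0) (X 1) : MvPolynomial (Fin 2) K) =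
    -(X 1 * Nn (C τ) (X 0) (X 1)) := by ring

theorem prod_dr5 : (∏ k, lf (dr5 τ k).1 (dr5 τ k).2 : MvPolynomial (Fin 2) K) =
    X 1 * Nn (C τ) (X 0) (X 1) := by
  rw [Fin.prod_univ_five]
  simp only [dr5, lf, Nn, Matrix.cons_val, map_zero, map_one, map_ofNat]
  ring

theorem assoc_dr5 : Associated (-(X 1 * Nn (C τ) (X 0) (X 1)) : MvPolynomial (Fin 2) K)
    (∏ k, lf (dr5 τ k).1 (dr5 τ k).2) := by
  rw [prod_dr5]
  exact (Associated.refl _).neg_left

theorem dvd_dr5 (k : Fin 5) : (lf (dr5 τ k).1 (dr5 τ k).2 : MvPolynomial (Fin 2) K) ∣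
    C (dr5 τ k).1 * Nn (C τ) (X 0) (X 1) + C (dr5 τ k).2 * 0 := by
  rw [mul_zero, add_zero]
  fin_cases k
  · show lf 0 1 ∣ C (0 : K) * Nn (C τ) (X 0) (X 1)
    simp
  · show lf 1 1 ∣ C (1 : K) * Nn (C τ) (X 0) (X 1)
    refine Dvd.dvd.mul_left ⟨(X 0 + C τ * X 1) * (2 * X 0 + X 1) * (2 * X 0 + C τ * X 1), ?_⟩ _
    simp only [lf, Nn, map_one]
    ring1
  · show lf 1 τ ∣ C (1 : K) * Nn (C τ) (X 0) (X 1)
    refine Dvd.dvd.mul_left ⟨(X 0 + X 1) * (2 * X 0 + X 1) * (2 * X 0 + C τ * X 1), ?_⟩ _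
    simp only [lf, Nn, map_one]
    ring1
  · show lf 2 1 ∣ C (2 : K) * Nn (C τ) (X 0) (X 1)
    refine Dvd.dvd.mul_left ⟨(X 0 + X 1) * (X 0 + C τ * X 1) * (2 * X 0 + C τ * X 1), ?_⟩ _
    simp only [lf, Nn, map_one, map_ofNat]
    ring1
  · show lf 2 τ ∣ C (2 : K) * Nn (C τ) (X 0) (X 1)
    refine Dvd.dvd.mul_left ⟨(X 0 + X 1) * (X 0 + C τ * X 1) * (2 * X 0 + X 1), ?_⟩ _
    simp only [lf, Nn, map_ofNat]
    ring1

theorem lf_inj {a b a' b' : K} (h : lf a b = lf a' b') : a = a' ∧ b = b' := by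
  have h1 := congrArg (eval ![(1 : K), 0]) h
  have h2 := congrArg (eval ![(0 : K), 1]) h
  rw [eval_lf, eval_lf] at h1 h2
  simp at h1 h2
  exact ⟨h1, h2⟩

theorem nd7_inj (h : Good τ) : Function.Injective (nd7 τ) := by
  have h2 := h.two
  have t0 := h.t0
  have t1 := h.t1
  have b1 : (1 : K) ≠ -1 := fun h5 => h2 (by linear_combination h5)
  have b2 : (-1 : K) ≠ 1 := b1.symm
  intro i j hij
  fin_cases i <;> fin_cases j <;>
    first
      | rfl
      | (exfalso; simp [nd7, Prod.ext_iff, b1, b2, t0, t0.symm, t1, t1.symm] at hij)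

theorem node_inj (h : Good τ) :
    Function.Injective fun i => (lf (nd7 τ i).1 (nd7 τ i).2 : MvPolynomial (Fin 2) K) := by
  intro i j hij
  have := lf_inj hij
  exact nd7_inj h (Prod.ext this.1 this.2)

theorem prod_nd7 : ∏ i, (Polynomial.X - Polynomial.C (lf (nd7 τ i).1 (nd7 τ i).2)) =
    QQp (pc τ) (px K) (py K) Polynomial.X := by
  rw [Fin.prod_univ_seven]
  simp only [nd7, lf, QQp, Matrix.cons_val, map_zero, map_one, map_neg, map_add, map_mul]
  ring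

/-- from `D(A)` to the node conditions -/
theorem log_decomp (h : Good τ) {a b c : PP K 2} (hl : IsLog (nd7 τ) (dr5 τ) a b c) :
    ∃ u v : PP K 2, b = u * px K + v * Nn (pc τ) (px K) (py K) ∧ c = u * py K ∧
      NodeCond τ (a - u * Polynomial.X) v := by
  obtain ⟨u, v, hb, hc⟩ := pencil_decomp (indep_dr5 h) hη7 assoc_dr5 hl.2
  have hN : Polynomial.C (Nn (C τ) (X 0) (X 1)) = Nn (pc τ) (px K) (py K) := by
    unfold Nn
    simp only [map_mul, map_add, map_ofNat]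
  refine ⟨u, v, by rw [← hN]; exact hb, by rw [hc]; simp, ?_⟩
  have hn := node_eval hl hb hc
  have l0 : (lf 0 0 : MvPolynomial (Fin 2) K) = 0 := by simp [lf]
  have l1 : (lf 1 0 : MvPolynomial (Fin 2) K) = X 0 := by simp [lf]
  have l2 : (lf (-1) 0 : MvPolynomial (Fin 2) K) = -X 0 := by simp [lf]
  have l3 : (lf 1 1 : MvPolynomial (Fin 2) K) = X 0 + X 1 := by simp [lf]
  have l4 : (lf (-1) (-1) : MvPolynomial (Fin 2) K) = -(X 0 + X 1) := by simp [lf]; ring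
  have l5 : (lf 1 τ : MvPolynomial (Fin 2) K) = X 0 + C τ * X 1 := by simp [lf]
  have l6 : (lf (-1) (-τ) : MvPolynomial (Fin 2) K) = -(X 0 + C τ * X 1) := by simp [lf]; ring
  have n0 := hn 0
  have n1 := hn 1
  have n2 := hn 2
  have n3 := hn 3
  have n4 := hn 4
  have n5 := hn 5
  have n6 := hn 6
  simp only [nd7, Matrix.cons_val, mul_zero, add_zero] at n0 n1 n2 n3 n4 n5 n6
  rw [l0] at n0
  rw [l1] at n1
  rw [l2] at n2
  rw [l3] at n3
  rw [l4] at n4
  rw [l5] at n5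
  rw [l6] at n6
  constructor
  · rw [n0]; simp
  · rw [n1]; simp
  · rw [n2]; simp
  · rw [n3]; simp
  · rw [n4]; simp
  · rw [n5]; simp
  · rw [n6]; simp

/-- the vanishing at all nodes -/
theorem dvd_of_vanish (h : Good τ) {f : PP K 2}
    (hf : NodeCond τ f 0) : QQp (pc τ) (px K) (py K) Polynomial.X ∣ f := by
  rw [← prod_nd7]
  apply prod_nodes_dvd
  · exact (node_inj h).injOn
  · intro i _
    have l0 : (lf 0 0 : MvPolynomial (Fin 2) K) = 0 := by simp [lf]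
    have l1 : (lf 1 0 : MvPolynomial (Fin 2) K) = X 0 := by simp [lf]
    have l2 : (lf (-1) 0 : MvPolynomial (Fin 2) K) = -X 0 := by simp [lf]
    have l3 : (lf 1 1 : MvPolynomial (Fin 2) K) = X 0 + X 1 := by simp [lf]
    have l4 : (lf (-1) (-1) : MvPolynomial (Fin 2) K) = -(X 0 + X 1) := by simp [lf]; ring
    have l5 : (lf 1 τ : MvPolynomial (Fin 2) K) = X 0 + C τ * X 1 := by simp [lf]
    have l6 : (lf (-1) (-τ) : MvPolynomial (Fin 2) K) = -(X 0 + C τ * X 1) := by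
      simp [lf]; ring
    fin_cases i
    · show f.eval (lf 0 0) = 0
      rw [l0]; exact hf.h0
    · show f.eval (lf 1 0) = 0
      rw [l1, hf.hx]; simp
    · show f.eval (lf (-1) 0) = 0
      rw [l2, hf.hx']; simp
    · show f.eval (lf 1 1) = 0
      rw [l3, hf.hy]; simp
    · show f.eval (lf (-1) (-1)) = 0
      rw [l4, hf.hy']; simp
    · show f.eval (lf 1 τ) = 0
      rw [l5, hf.hz]; simp
    · show f.eval (lf (-1) (-τ)) = 0
      rw [l6, hf.hz']; simp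

/-- from the node conditions to `D(A)` -/
theorem isLog_nd7 {a b c v : PP K 2} (hb : b = v * Nn (pc τ) (px K) (py K)) (hc : c = 0)
    (hf : NodeCond τ a v) : IsLog (nd7 τ) (dr5 τ) a b c := by
  have hN : Polynomial.C (Nn (C τ) (X 0) (X 1)) = Nn (pc τ) (px K) (py K) := by
    unfold Nn
    simp only [map_mul, map_add, map_ofNat]
  refine isLog_of (v := v) (ηx := Nn (C τ) (X 0) (X 1)) (ηy := 0) dvd_dr5 (by rw [hN]; exact hb)
    (by rw [hc]; simp) ?_
  intro i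
  have l0 : (lf 0 0 : MvPolynomial (Fin 2) K) = 0 := by simp [lf]
  have l1 : (lf 1 0 : MvPolynomial (Fin 2) K) = X 0 := by simp [lf]
  have l2 : (lf (-1) 0 : MvPolynomial (Fin 2) K) = -X 0 := by simp [lf]
  have l3 : (lf 1 1 : MvPolynomial (Fin 2) K) = X 0 + X 1 := by simp [lf]
  have l4 : (lf (-1) (-1) : MvPolynomial (Fin 2) K) = -(X 0 + X 1) := by simp [lf]; ring
  have l5 : (lf 1 τ : MvPolynomial (Fin 2) K) = X 0 + C τ * X 1 := by simp [lf]
  have l6 : (lf (-1) (-τ) : MvPolynomial (Fin 2) K) = -(X 0 + C τ * X 1) := by simp [lf]; ring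
  fin_cases i
  · show a.eval (lf 0 0) = v.eval (lf 0 0) * (C 0 * Nn (C τ) (X 0) (X 1) + C 0 * 0)
    rw [l0, hf.h0]; simp
  · show a.eval (lf 1 0) = v.eval (lf 1 0) * (C 1 * Nn (C τ) (X 0) (X 1) + C 0 * 0)
    rw [l1, hf.hx]; simp
  · show a.eval (lf (-1) 0) = v.eval (lf (-1) 0) * (C (-1) * Nn (C τ) (X 0) (X 1) + C 0 * 0)
    rw [l2, hf.hx']; simp
  · show a.eval (lf 1 1) = v.eval (lf 1 1) * (C 1 * Nn (C τ) (X 0) (X 1) + C 1 * 0)
    rw [l3, hf.hy]; simp
  · show a.eval (lf (-1) (-1)) =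
      v.eval (lf (-1) (-1)) * (C (-1) * Nn (C τ) (X 0) (X 1) + C (-1) * 0)
    rw [l4, hf.hy']; simp
  · show a.eval (lf 1 τ) = v.eval (lf 1 τ) * (C 1 * Nn (C τ) (X 0) (X 1) + C τ * 0)
    rw [l5, hf.hz]; simp
  · show a.eval (lf (-1) (-τ)) =
      v.eval (lf (-1) (-τ)) * (C (-1) * Nn (C τ) (X 0) (X 1) + C (-τ) * 0)
    rw [l6, hf.hz']; simp

/-- the Euler derivation is logarithmic -/
theorem isLog_euler {m r : ℕ} (nd : Fin m → K × K) (dr : Fin r → K × K) :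
    IsLog nd dr Polynomial.X (px K) (py K) := by
  constructor
  · intro i
    refine ⟨1, ?_⟩
    simp [lf]
  · intro k
    refine ⟨1, ?_⟩
    simp [lf]

end Pool.Agent.Zk48.PO
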