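import Mathlib
import Pool.Agent.Zk48.PO.FamArr

set_option autoImplicit false

/-!
# Generators and relations in `K[x,y][z]`
-/

namespace Pool.Agent.Zk48.PO

open MvPolynomial

universe u

variable {K : Type u} [Field K] {τ : K}

theorem eval_F1 (s : MvPolynomial (Fin 2) K) :
    (F1 (pc τ) (px K) (py K) Polynomial.X).eval s = F1 (C τ) (X 0) (X 1) s := by
  simp [F1, Nn, Ww]

theorem eval_F2 (s : MvPolynomial (Fin 2) K) :
    (F2 (pc τ) (px K) (py K) Polynomial.X).eval s = F2 (C τ) (X 0) (X 1) s := by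
  simp [F2, Nn]

theorem eval_V1 (s : MvPolynomial (Fin 2) K) :
    (V1 (pc τ) (px K) (py K)).eval s = V1 (C τ) (X 0) (X 1) := by
  simp [V1, Ww]

theorem eval_V2 (s : MvPolynomial (Fin 2) K) :
    (V2 (pc τ) (px K) (py K) Polynomial.X).eval s = V2 (C τ) (X 0) (X 1) s := by
  simp [V2]

theorem eval_QQp (s : MvPolynomial (Fin 2) K) :
    (QQp (pc τ) (px K) (py K) Polynomial.X).eval s = QQp (C τ) (X 0) (X 1) s := by
  simp [QQp]

theorem node_F1 : NodeCond τ (F1 (pc τ) (px K) (py K) Polynomial.X)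
    (V1 (pc τ) (px K) (py K)) := by
  constructor <;> rw [eval_F1] <;> try rw [eval_V1]
  · simp [F1]
  · exact F1_a _ _ _
  · rw [F1_neg, F1_a]
  · exact F1_b _ _ _
  · rw [F1_neg, F1_b]
  · exact F1_c _ _ _
  · rw [F1_neg, F1_c]

theorem node_F2 : NodeCond τ (F2 (pc τ) (px K) (py K) Polynomial.X)
    (V2 (pc τ) (px K) (py K) Polynomial.X) := by
  constructor <;> rw [eval_F2] <;> try rw [eval_V2]
  · simp [F2]
  · exact F2_a _ _ _
  · rw [F2_neg, F2_a, V2_neg]
  · exact F2_b _ _ _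
  · rw [F2_neg, F2_b, V2_neg]
  · exact F2_c _ _ _
  · rw [F2_neg, F2_c, V2_neg]

theorem node_QQp : NodeCond τ (QQp (pc τ) (px K) (py K) Polynomial.X) 0 := by
  constructor <;> rw [eval_QQp] <;> (try rw [Polynomial.eval_zero, zero_mul]) <;>
    (try rw [neg_zero]) <;> unfold QQp <;> ring

theorem NodeCond.lin {f v f' v' : PP K 2} (g : PP K 2) (h : NodeCond τ f v)
    (h' : NodeCond τ f' v') : NodeCond τ (f - g * f') (v - g * v') := by
  constructor
  · simp [h.h0, h'.h0]
  · simp only [Polynomial.eval_sub, Polynomial.eval_mul, h.hx, h'.hx]; ring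
  · simp only [Polynomial.eval_sub, Polynomial.eval_mul, h.hx', h'.hx']; ring
  · simp only [Polynomial.eval_sub, Polynomial.eval_mul, h.hy, h'.hy]; ring
  · simp only [Polynomial.eval_sub, Polynomial.eval_mul, h.hy', h'.hy']; ring
  · simp only [Polynomial.eval_sub, Polynomial.eval_mul, h.hz, h'.hz]; ring
  · simp only [Polynomial.eval_sub, Polynomial.eval_mul, h.hz', h'.hz']; ring

theorem genB (h : Good τ) (hm : τ ≠ -1) {a b c : PP K 2}
    (hl : IsLog (nd7 τ) (dr5 τ) a b c) :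
    ∃ u g1 g2 k : PP K 2,
      a = u * Polynomial.X + g1 * F1 (pc τ) (px K) (py K) Polynomial.X +
        g2 * F2 (pc τ) (px K) (py K) Polynomial.X + k * QQp (pc τ) (px K) (py K) Polynomial.X ∧
      b = u * px K + g1 * (V1 (pc τ) (px K) (py K) * Nn (pc τ) (px K) (py K)) +
        g2 * (V2 (pc τ) (px K) (py K) Polynomial.X * Nn (pc τ) (px K) (py K)) ∧
      c = u * py K := by
  obtain ⟨u, v, hb, hc, hn⟩ := log_decomp h hl
  obtain ⟨g1, g2, hv⟩ := gen_v h.two h.t0 h.t1 hm hn
  have h1 := (hn.lin g1 node_F1).lin g2 node_F2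
  have h2 : v - g1 * V1 (pc τ) (px K) (py K) - g2 * V2 (pc τ) (px K) (py K) Polynomial.X = 0 := by
    rw [hv]; ring
  rw [h2] at h1
  obtain ⟨k, hk⟩ := dvd_of_vanish h h1
  refine ⟨u, g1, g2, k, ?_, ?_, hc⟩
  · linear_combination hk
  · rw [hb, hv]; ring

theorem prime_px : Prime (px K) := Polynomial.prime_C_iff.2 X_prime

theorem px_ndvd_monic {p : PP K 2} {n : ℕ} {c : K} (hc : c ≠ 0) (hp : p.coeff n = C c) :
    ¬ px K ∣ p := by
  intro h
  have h1 := (Polynomial.C_dvd_iff_dvd_coeff _ _).1 h n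
  rw [hp] at h1
  exact not_dvd_of_eval (![0, 1] : Fin 2 → K) (by simp) (by simpa using hc) h1

theorem V2_coeff (τ : K) : (V2 (pc τ) (px K) (py K) Polynomial.X).coeff 2 = C (2 * (1 + τ)) := by
  have : V2 (pc τ) (px K) (py K) Polynomial.X =
      Polynomial.C (C (2 * (1 + τ))) * Polynomial.X ^ 2 +
      Polynomial.C ((C τ - 1) ^ 2 * (X 0 * X 1)) := by
    unfold V2
    simp only [map_mul, map_add, map_one, map_ofNat, map_pow, map_sub]
  rw [this, Polynomial.coeff_add, Polynomial.coeff_C_mul, Polynomial.coeff_X_pow,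
    Polynomial.coeff_C, if_pos rfl, if_neg (by norm_num), mul_one, add_zero]

theorem Nn_ne (h : Good τ) : Nn (pc τ) (px K) (py K) ≠ 0 := by
  have hN : Polynomial.C (Nn (C τ) (X 0) (X 1)) = Nn (pc τ) (px K) (py K) := by
    unfold Nn
    simp only [map_mul, map_add, map_ofNat]
  intro h0
  rw [h0] at hN
  have h1 : (Nn (C τ) (X 0) (X 1) : MvPolynomial (Fin 2) K) = 0 := by
    rw [← Polynomial.C_0] at hN
    exact Polynomial.C_injective hN
  exact x_ndvd_N h.t0 (by rw [h1]; exact dvd_zero _)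

theorem QQp_ne : QQp (pc τ) (px K) (py K) Polynomial.X ≠ 0 := by
  rw [← prod_nd7]
  exact Finset.prod_ne_zero_iff.2 fun i _ => Polynomial.X_sub_C_ne_zero _

theorem relB (h : Good τ) (hm : τ ≠ -1) {u g1 g2 k : PP K 2}
    (ha : u * Polynomial.X + g1 * F1 (pc τ) (px K) (py K) Polynomial.X +
        g2 * F2 (pc τ) (px K) (py K) Polynomial.X +
        k * QQp (pc τ) (px K) (py K) Polynomial.X = 0)
    (hb : u * px K + g1 * (V1 (pc τ) (px K) (py K) * Nn (pc τ) (px K) (py K)) +
        g2 * (V2 (pc τ) (px K) (py K) Polynomial.X * Nn (pc τ) (px K) (py K)) = 0)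
    (hc : u * py K = 0) :
    ∃ c, u = 0 ∧ g1 = c * (- V2 (pc τ) (px K) (py K) Polynomial.X) ∧
      g2 = c * V1 (pc τ) (px K) (py K) ∧ k = c * Al (pc τ) (px K) (py K) := by
  have h3 : 2 * (1 + τ) ≠ 0 := mul_ne_zero h.two (fun h => hm (by linear_combination h))
  have hpy : py K ≠ 0 := Polynomial.C_ne_zero.2 (X_ne_zero 1)
  have hu : u = 0 := by
    rcases mul_eq_zero.1 hc with h0 | h0
    · exact h0
    · exact absurd h0 hpy
  subst hu
  have e1 : g1 * V1 (pc τ) (px K) (py K) + g2 * V2 (pc τ) (px K) (py K) Polynomial.X = 0 := by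
    have : (g1 * V1 (pc τ) (px K) (py K) + g2 * V2 (pc τ) (px K) (py K) Polynomial.X) *
        Nn (pc τ) (px K) (py K) = 0 := by linear_combination hb
    rcases mul_eq_zero.1 this with h0 | h0
    · exact h0
    · exact absurd h0 (Nn_ne h)
  have hW : Ww (pc τ) (px K) (py K) = Polynomial.C (Ww (C τ) (X 0) (X 1)) := by
    unfold Ww
    simp only [map_mul, map_add, map_ofNat, map_one]
  have pw : Prime (Ww (pc τ) (px K) (py K)) := by
    rw [hW]; exact Polynomial.prime_C_iff.2 (prime_w h.two)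
  have d1 : px K ∣ g2 := by
    have : px K ∣ g2 * V2 (pc τ) (px K) (py K) Polynomial.X :=
      ⟨-(g1 * Ww (pc τ) (px K) (py K)), by unfold V1 at e1; linear_combination e1⟩
    rcases prime_px.dvd_or_dvd this with h0 | h0
    · exact h0
    · exact absurd h0 (px_ndvd_monic h3 (V2_coeff τ))
  have d2 : Ww (pc τ) (px K) (py K) ∣ g2 := by
    have : Ww (pc τ) (px K) (py K) ∣ g2 * V2 (pc τ) (px K) (py K) Polynomial.X :=
      ⟨-(g1 * px K), by unfold V1 at e1; linear_combination e1⟩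
    rcases pw.dvd_or_dvd this with h0 | h0
    · exact h0
    · exfalso
      rw [hW] at h0
      have h1 := (Polynomial.C_dvd_iff_dvd_coeff _ _).1 h0 2
      rw [V2_coeff] at h1
      exact (prime_w h.two).not_isUnit (isUnit_of_dvd_unit h1 (isUnit_C h3))
  have d3 : ¬ Ww (pc τ) (px K) (py K) ∣ px K := by
    rw [hW]
    intro h0
    have h1 := (Polynomial.C_dvd_iff_dvd_coeff _ _).1 h0 0
    rw [Polynomial.coeff_C_zero] at h1
    exact w_ndvd_x hm h1
  obtain ⟨c, hc'⟩ := mul_dvd_of pw d3 d1 d2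
  have hV1 : V1 (pc τ) (px K) (py K) ≠ 0 := mul_ne_zero prime_px.ne_zero pw.ne_zero
  have hg2 : g2 = c * V1 (pc τ) (px K) (py K) := by rw [hc']; unfold V1; ring
  have hg1 : g1 = c * (- V2 (pc τ) (px K) (py K) Polynomial.X) := by
    rw [hg2] at e1
    have : (g1 + c * V2 (pc τ) (px K) (py K) Polynomial.X) * V1 (pc τ) (px K) (py K) = 0 := by
      linear_combination e1
    rcases mul_eq_zero.1 this with h0 | h0
    · linear_combination h0
    · exact absurd h0 hV1
  refine ⟨c, rfl, hg1, hg2, ?_⟩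
  have hr := rel_B (pc τ) (px K) (py K) (Polynomial.X : PP K 2)
  rw [hg1, hg2] at ha
  have : (k - c * Al (pc τ) (px K) (py K)) * QQp (pc τ) (px K) (py K) Polynomial.X = 0 := by
    linear_combination ha + c * hr
  rcases mul_eq_zero.1 this with h0 | h0
  · linear_combination h0
  · exact absurd h0 QQp_ne

end Pool.Agent.Zk48.PO
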