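import Mathlib
import Pool.Agent.Zk48.PO.FamGen

set_option autoImplicit false

/-!
# The special member of the family: generators and relations in `K[x,y][z]`
-/

namespace Pool.Agent.Zk48.PO

open MvPolynomial

universe u

variable {K : Type u} [Field K]

theorem cm1 : (C (-1 : K) : MvPolynomial (Fin 2) K) = -1 := by simp
theorem pcm1 : pc (-1 : K) = -1 := by simp [pc]

theorem eval_G1 (s : MvPolynomial (Fin 2) K) :
    (G1 (px K) (py K) Polynomial.X).eval s = G1 (X 0) (X 1) s := by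
  simp [G1, Nm]

theorem eval_G3 (s : MvPolynomial (Fin 2) K) :
    (G3 (px K) (py K) Polynomial.X).eval s = G3 (X 0) (X 1) s := by
  simp [G3, V3]

theorem eval_V3 (s : MvPolynomial (Fin 2) K) :
    (V3 (px K) (py K) Polynomial.X).eval s = V3 (X 0) (X 1) s := by
  simp [V3]

theorem eval_2x (s : MvPolynomial (Fin 2) K) :
    (2 * px K).eval s = 2 * X 0 := by
  simp

theorem node_G1 : NodeCond (-1 : K) (G1 (px K) (py K) Polynomial.X) (2 * px K) := by
  have e1 : (X 0 + C (-1 : K) * X 1 : MvPolynomial (Fin 2) K) = X 0 - X 1 := by simp; ring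
  have e2 : Nn (C (-1 : K)) (X 0) (X 1) = Nm (X 0 : MvPolynomial (Fin 2) K) (X 1) := by
    rw [cm1]; exact Nn_neg_one _ _
  constructor <;> (try rw [e1]) <;> (try rw [e2]) <;> rw [eval_G1] <;> (try rw [eval_2x])
  · simp [G1]
  · exact G1_a _ _
  · rw [G1_neg, G1_a]
  · exact G1_b _ _
  · rw [G1_neg, G1_b]
  · exact G1_c _ _
  · rw [G1_neg, G1_c]

theorem node_G3 : NodeCond (-1 : K) (G3 (px K) (py K) Polynomial.X)
    (V3 (px K) (py K) Polynomial.X) := by
  have e1 : (X 0 + C (-1 : K) * X 1 : MvPolynomial (Fin 2) K) = X 0 - X 1 := by simp; ring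
  have e2 : Nn (C (-1 : K)) (X 0) (X 1) = Nm (X 0 : MvPolynomial (Fin 2) K) (X 1) := by
    rw [cm1]; exact Nn_neg_one _ _
  constructor <;> (try rw [e1]) <;> (try rw [e2]) <;> rw [eval_G3] <;> (try rw [eval_V3])
  · simp [G3]
  · exact G3_a _ _
  · rw [G3_neg, G3_a, V3_neg]
  · exact G3_b _ _
  · rw [G3_neg, G3_b, V3_neg]
  · exact G3_c _ _
  · rw [G3_neg, G3_c, V3_neg]

theorem V3_eq : V3 (px K) (py K) Polynomial.X = Polynomial.X ^ 4 +
    Polynomial.C (-(X 0 ^ 2 + (X 0 + X 1) ^ 2)) * Polynomial.X ^ 2 +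
    Polynomial.C (X 0 ^ 2 * (X 0 + X 1) ^ 2) := by
  unfold V3
  simp only [map_neg, map_add, map_pow, map_mul]
  ring

theorem V3_monic : (V3 (px K) (py K) Polynomial.X).Monic := by
  rw [V3_eq]
  monicity!

theorem V3_natDegree : (V3 (px K) (py K) Polynomial.X).natDegree = 4 := by
  rw [V3_eq]
  compute_degree!

theorem V3_coeff0 : (V3 (px K) (py K) Polynomial.X).coeff 0 = X 0 ^ 2 * (X 0 + X 1) ^ 2 := by
  rw [V3_eq]
  simp only [Polynomial.coeff_add, Polynomial.coeff_X_pow, Polynomial.coeff_C_mul,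
    Polynomial.coeff_C_zero]
  norm_num

theorem V3_coeff1 : (V3 (px K) (py K) Polynomial.X).coeff 1 = 0 := by
  rw [V3_eq]
  simp only [Polynomial.coeff_add, Polynomial.coeff_X_pow, Polynomial.coeff_C_mul,
    Polynomial.coeff_C]
  norm_num

theorem x_ndvd_n : ¬ (X 0 : MvPolynomial (Fin 2) K) ∣ X 0 + X 1 :=
  not_dvd_of_eval (![0, 1] : Fin 2 → K) (by simp) (by simp)

theorem gen_vA (h2 : (2 : K) ≠ 0) {f v : PP K 2}
    (h : NodeCond (-1 : K) f v) :
    ∃ g1 g3 : PP K 2, v = g1 * (2 * px K) + g3 * V3 (px K) (py K) Polynomial.X := by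
  have hm1 : (-1 : K) ≠ 0 := neg_ne_zero.2 one_ne_zero
  obtain ⟨c0, c1⟩ := collide3 X_prime (x_ndvd_N hm1) (isUnit_two h2) h.h0 h.hx h.hx'
  have hab : (X 0 : MvPolynomial (Fin 2) K) ∣ (X 0 + X 1) - -(X 0 + C (-1 : K) * X 1) := by
    refine ⟨2, ?_⟩
    rw [cm1]; ring
  have hab' : (X 0 : MvPolynomial (Fin 2) K) ∣ (X 0 + C (-1 : K) * X 1) - -(X 0 + X 1) := by
    refine ⟨2, ?_⟩
    rw [cm1]; ring
  have c2 := (collide X_prime (x_ndvd_N hm1) (isUnit_two h2) hab h.hy h.hz').1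
  have c3 := (collide X_prime (x_ndvd_N hm1) (isUnit_two h2) hab' h.hz h.hy').2
  set V := V3 (px K) (py K) Polynomial.X with hV
  set q := v /ₘ V with hq
  set r := v %ₘ V with hr
  have hv : v = r + V * q := (Polynomial.modByMonic_add_div v V).symm
  have hVn : V.natDegree = 4 := V3_natDegree
  have hdeg : r.natDegree < 4 := by
    have := Polynomial.natDegree_modByMonic_lt v (q := V) V3_monic (by
      intro h5
      rw [h5] at hVn
      simp at hVn)
    rw [hVn, ← hr] at this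
    exact this
  have hs0 : X 0 ∣ r.coeff 0 := by
    have e : v.coeff 0 = r.coeff 0 + V.coeff 0 * q.coeff 0 := by
      conv_lhs => rw [hv]
      rw [Polynomial.coeff_add, Polynomial.mul_coeff_zero]
    rw [e, V3_coeff0] at c0
    refine (dvd_add_left ?_).1 c0
    exact ⟨X 0 * (X 0 + X 1) ^ 2 * q.coeff 0, by ring⟩
  have hs1 : X 0 ∣ r.coeff 1 := by
    have e : v.coeff 1 = r.coeff 1 + (V.coeff 0 * q.coeff 1 + V.coeff 1 * q.coeff 0) := by
      conv_lhs => rw [hv]
      rw [Polynomial.coeff_add, Polynomial.mul_coeff_one]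
    rw [e, V3_coeff0, V3_coeff1, zero_mul, add_zero] at c1
    refine (dvd_add_left ?_).1 c1
    exact ⟨X 0 * (X 0 + X 1) ^ 2 * q.coeff 1, by ring⟩
  have hev : ∀ s : MvPolynomial (Fin 2) K,
      r.eval s = r.coeff 0 + r.coeff 1 * s + r.coeff 2 * s ^ 2 + r.coeff 3 * s ^ 3 := by
    intro s
    rw [Polynomial.eval_eq_sum_range' hdeg, Finset.sum_range_succ, Finset.sum_range_succ,
      Finset.sum_range_succ, Finset.sum_range_succ, Finset.sum_range_zero]
    ring
  have e1 : X 0 ∣ r.eval (X 0 + X 1) := by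
    have e : v.eval (X 0 + X 1) = r.eval (X 0 + X 1) := by
      conv_lhs => rw [hv]
      rw [Polynomial.eval_add, Polynomial.eval_mul, hV, eval_V3]
      simp [V3]
    rwa [e] at c2
  have e2 : X 0 ∣ r.eval (-(X 0 + X 1)) := by
    have e : v.eval (-(X 0 + X 1)) = r.eval (-(X 0 + X 1)) := by
      conv_lhs => rw [hv]
      rw [Polynomial.eval_add, Polynomial.eval_mul, hV, eval_V3, V3_neg]
      simp [V3]
    rwa [e] at c3
  rw [hev] at e1 e2
  have e3 : X 0 ∣ r.coeff 2 * (X 0 + X 1) ^ 2 + r.coeff 3 * (X 0 + X 1) ^ 3 := by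
    have e : r.coeff 2 * (X 0 + X 1) ^ 2 + r.coeff 3 * (X 0 + X 1) ^ 3 =
        (r.coeff 0 + r.coeff 1 * (X 0 + X 1) + r.coeff 2 * (X 0 + X 1) ^ 2 +
          r.coeff 3 * (X 0 + X 1) ^ 3) - (r.coeff 0 + r.coeff 1 * (X 0 + X 1)) := by ring
    rw [e]
    exact dvd_sub e1 (dvd_add hs0 (hs1.mul_right _))
  have e4 : X 0 ∣ r.coeff 2 * (X 0 + X 1) ^ 2 - r.coeff 3 * (X 0 + X 1) ^ 3 := by
    have e : r.coeff 2 * (X 0 + X 1) ^ 2 - r.coeff 3 * (X 0 + X 1) ^ 3 =
        (r.coeff 0 + r.coeff 1 * (-(X 0 + X 1)) + r.coeff 2 * (-(X 0 + X 1)) ^ 2 +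
          r.coeff 3 * (-(X 0 + X 1)) ^ 3) - (r.coeff 0 - r.coeff 1 * (X 0 + X 1)) := by ring
    rw [e]
    exact dvd_sub e2 (dvd_sub hs0 (hs1.mul_right _))
  have hx : Prime (X 0 : MvPolynomial (Fin 2) K) := X_prime
  have hs2 : X 0 ∣ r.coeff 2 := by
    have : X 0 ∣ 2 * (r.coeff 2 * (X 0 + X 1) ^ 2) := by
      have e : 2 * (r.coeff 2 * (X 0 + X 1) ^ 2) =
        (r.coeff 2 * (X 0 + X 1) ^ 2 + r.coeff 3 * (X 0 + X 1) ^ 3) +
        (r.coeff 2 * (X 0 + X 1) ^ 2 - r.coeff 3 * (X 0 + X 1) ^ 3) := by ring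
      rw [e]; exact dvd_add e3 e4
    have := ((isUnit_two h2).dvd_mul_left).1 this
    rcases hx.dvd_or_dvd this with h5 | h5
    · exact h5
    · exact absurd (hx.dvd_of_dvd_pow h5) x_ndvd_n
  have hs3 : X 0 ∣ r.coeff 3 := by
    have : X 0 ∣ 2 * (r.coeff 3 * (X 0 + X 1) ^ 3) := by
      have e : 2 * (r.coeff 3 * (X 0 + X 1) ^ 3) =
        (r.coeff 2 * (X 0 + X 1) ^ 2 + r.coeff 3 * (X 0 + X 1) ^ 3) -
        (r.coeff 2 * (X 0 + X 1) ^ 2 - r.coeff 3 * (X 0 + X 1) ^ 3) := by ring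
      rw [e]; exact dvd_sub e3 e4
    have := ((isUnit_two h2).dvd_mul_left).1 this
    rcases hx.dvd_or_dvd this with h5 | h5
    · exact h5
    · exact absurd (hx.dvd_of_dvd_pow h5) x_ndvd_n
  have hr0 : px K ∣ r := by
    rw [Polynomial.C_dvd_iff_dvd_coeff]
    intro i
    by_cases hi : i < 4
    · interval_cases i
      · exact hs0
      · exact hs1
      · exact hs2
      · exact hs3
    · rw [Polynomial.coeff_eq_zero_of_natDegree_lt (by omega)]
      exact dvd_zero _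
  obtain ⟨r', hr'⟩ := hr0
  have hinv : pc (2 : K)⁻¹ * 2 = (1 : PP K 2) := by
    have : (2 : PP K 2) = pc 2 := by unfold pc; rw [map_ofNat, map_ofNat]
    rw [this]
    unfold pc
    rw [← Polynomial.C_mul, ← C_mul, inv_mul_cancel₀ h2]
    simp
  refine ⟨pc (2 : K)⁻¹ * r', q, ?_⟩
  rw [hv]
  conv_lhs => rw [hr']
  linear_combination (-(px K) * r') * hinv

theorem genA (h : Good (-1 : K)) {a b c : PP K 2}
    (hl : IsLog (nd7 (-1)) (dr5 (-1)) a b c) :
    ∃ u g1 k g3 : PP K 2,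
      a = u * Polynomial.X + g1 * G1 (px K) (py K) Polynomial.X +
        k * QQp (-1) (px K) (py K) Polynomial.X + g3 * G3 (px K) (py K) Polynomial.X ∧
      b = u * px K + g1 * (2 * px K * Nm (px K) (py K)) +
        g3 * (V3 (px K) (py K) Polynomial.X * Nm (px K) (py K)) ∧
      c = u * py K := by
  obtain ⟨u, v, hb, hc, hn⟩ := log_decomp h hl
  obtain ⟨g1, g3, hv⟩ := gen_vA h.two hn
  have h1 := (hn.lin g1 node_G1).lin g3 node_G3
  have h2 : v - g1 * (2 * px K) - g3 * V3 (px K) (py K) Polynomial.X = 0 := by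
    rw [hv]; ring
  rw [h2] at h1
  obtain ⟨k, hk⟩ := dvd_of_vanish h h1
  rw [pcm1] at hk hb
  rw [Nn_neg_one] at hb
  refine ⟨u, g1, k, g3, ?_, ?_, hc⟩
  · linear_combination hk
  · rw [hb, hv]; ring

theorem relA (h : Good (-1 : K)) {u g1 k g3 : PP K 2}
    (ha : u * Polynomial.X + g1 * G1 (px K) (py K) Polynomial.X +
        k * QQp (-1) (px K) (py K) Polynomial.X + g3 * G3 (px K) (py K) Polynomial.X = 0)
    (hb : u * px K + g1 * (2 * px K * Nm (px K) (py K)) +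
        g3 * (V3 (px K) (py K) Polynomial.X * Nm (px K) (py K)) = 0)
    (hc : u * py K = 0) :
    ∃ c, u = 0 ∧ g1 = c * V3 (px K) (py K) Polynomial.X ∧
      k = c * (- Cc (px K) (py K) Polynomial.X) ∧ g3 = c * (-(2 * px K)) := by
  have hpy : py K ≠ 0 := Polynomial.C_ne_zero.2 (X_ne_zero 1)
  have hu : u = 0 := by
    rcases mul_eq_zero.1 hc with h0 | h0
    · exact h0
    · exact absurd h0 hpy
  subst hu
  have hN := Nn_ne h
  have hQ := QQp_ne (τ := (-1 : K))
  rw [pcm1] at hN hQ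
  rw [Nn_neg_one] at hN
  have e1 : g1 * (2 * px K) + g3 * V3 (px K) (py K) Polynomial.X = 0 := by
    have : (g1 * (2 * px K) + g3 * V3 (px K) (py K) Polynomial.X) * Nm (px K) (py K) = 0 := by
      linear_combination hb
    rcases mul_eq_zero.1 this with h0 | h0
    · exact h0
    · exact absurd h0 hN
  have hc4 : (V3 (px K) (py K) Polynomial.X).coeff 4 = C 1 := by
    rw [V3_eq]
    simp only [Polynomial.coeff_add, Polynomial.coeff_X_pow, Polynomial.coeff_C_mul,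
      Polynomial.coeff_C]
    norm_num
  obtain ⟨g, hg⟩ : px K ∣ g3 := by
    have : px K ∣ g3 * V3 (px K) (py K) Polynomial.X := ⟨-(g1 * 2), by linear_combination e1⟩
    rcases prime_px.dvd_or_dvd this with h0 | h0
    · exact h0
    · exact absurd h0 (px_ndvd_monic one_ne_zero hc4)
  have hinv : pc (2 : K)⁻¹ * 2 = (1 : PP K 2) := by
    have : (2 : PP K 2) = pc 2 := by unfold pc; rw [map_ofNat, map_ofNat]
    rw [this]
    unfold pc
    rw [← Polynomial.C_mul, ← C_mul, inv_mul_cancel₀ h.two]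
    simp
  have hg3 : g3 = (-(pc (2 : K)⁻¹ * g)) * (-(2 * px K)) := by
    rw [hg]; linear_combination (-(px K) * g) * hinv
  have hg1 : g1 = (-(pc (2 : K)⁻¹ * g)) * V3 (px K) (py K) Polynomial.X := by
    rw [hg] at e1
    have : (g1 * 2 + g * V3 (px K) (py K) Polynomial.X) * px K = 0 := by linear_combination e1
    have h1 : g1 * 2 + g * V3 (px K) (py K) Polynomial.X = 0 := by
      rcases mul_eq_zero.1 this with h0 | h0
      · exact h0
      · exact absurd h0 prime_px.ne_zero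
    linear_combination pc (2 : K)⁻¹ * h1 - g1 * hinv
  refine ⟨-(pc (2 : K)⁻¹ * g), rfl, hg1, ?_, hg3⟩
  have hr := rel_A (px K) (py K) (Polynomial.X : PP K 2)
  set c := -(pc (2 : K)⁻¹ * g)
  rw [hg1, hg3] at ha
  have : (k + c * Cc (px K) (py K) Polynomial.X) * QQp (-1) (px K) (py K) Polynomial.X = 0 := by
    linear_combination ha - c * hr
  rcases mul_eq_zero.1 this with h0 | h0
  · linear_combination h0
  · exact absurd h0 hQ

end Pool.Agent.Zk48.PO
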