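import Mathlib
import Pool.Agent.Zk48.PO.FamA

set_option autoImplicit false
set_option linter.unusedSimpArgs false

/-!
# The resolutions of the two members
-/

namespace Pool.Agent.Zk48.PO

open MvPolynomial

universe u

variable {K : Type u} [Field K] {τ : K}

/-- the arrangement with parameter `τ` -/
def Arr (τ : K) : Fin 12 → Fin 3 → K := pencil (nd7 τ) (dr5 τ)

/-- abbreviation for the polynomial ring in three variables -/
abbrev S3 (K : Type u) [Field K] := MvPolynomial (Fin 3) K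

theorem T0 : TT K 2 (X 0) = Polynomial.X := TT_X0
theorem T1 : TT K 2 (X 1) = px K := TT_Xs (K := K) (l := 2) 0
theorem T2 : TT K 2 (X 2) = py K := TT_Xs (K := K) (l := 2) 1
theorem Tc (c : K) : TT K 2 (C c) = pc c := TT_C c

theorem TF1 : TT K 2 (F1 (C τ) (X 1) (X 2) (X 0)) = F1 (pc τ) (px K) (py K) Polynomial.X := by
  unfold F1 Nn Ww
  simp only [map_mul, map_add, map_sub, map_pow, map_ofNat, map_one, T0, T1, T2, Tc]
theorem TF2 : TT K 2 (F2 (C τ) (X 1) (X 2) (X 0)) = F2 (pc τ) (px K) (py K) Polynomial.X := by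
  unfold F2 Nn
  simp only [map_mul, map_add, map_sub, map_pow, map_ofNat, map_one, T0, T1, T2, Tc]
theorem TV1 : TT K 2 (V1 (C τ) (X 1) (X 2)) = V1 (pc τ) (px K) (py K) := by
  unfold V1 Ww
  simp only [map_mul, map_add, map_ofNat, map_one, T1, T2, Tc]
theorem TV2 : TT K 2 (V2 (C τ) (X 1) (X 2) (X 0)) = V2 (pc τ) (px K) (py K) Polynomial.X := by
  unfold V2
  simp only [map_mul, map_add, map_sub, map_pow, map_ofNat, map_one, T0, T1, T2, Tc]
theorem TNn : TT K 2 (Nn (C τ) (X 1) (X 2)) = Nn (pc τ) (px K) (py K) := by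
  unfold Nn
  simp only [map_mul, map_add, map_ofNat, T1, T2, Tc]
theorem TQQp : TT K 2 (QQp (C τ) (X 1) (X 2) (X 0)) = QQp (pc τ) (px K) (py K) Polynomial.X := by
  unfold QQp
  simp only [map_mul, map_add, map_sub, map_pow, T0, T1, T2, Tc]
theorem TAl : TT K 2 (Al (C τ) (X 1) (X 2)) = Al (pc τ) (px K) (py K) := by
  unfold Al
  simp only [map_mul, map_add, map_ofNat, map_one, T1, T2, Tc]
theorem TG1 : TT K 2 (G1 (X 1) (X 2) (X 0)) = G1 (px K) (py K) Polynomial.X := by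
  unfold G1 Nm
  simp only [map_mul, map_add, map_sub, map_pow, map_ofNat, T0, T1, T2]
theorem TG3 : TT K 2 (G3 (X 1) (X 2) (X 0)) = G3 (px K) (py K) Polynomial.X := by
  unfold G3 V3
  simp only [map_mul, map_add, map_sub, map_pow, map_ofNat, T0, T1, T2]
theorem TV3 : TT K 2 (V3 (X 1) (X 2) (X 0)) = V3 (px K) (py K) Polynomial.X := by
  unfold V3
  simp only [map_mul, map_add, map_sub, map_pow, T0, T1, T2]
theorem TNm : TT K 2 (Nm (X 1) (X 2)) = Nm (px K) (py K) := by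
  unfold Nm
  simp only [map_mul, map_add, map_sub, map_ofNat, T1, T2]
theorem TCc : TT K 2 (Cc (X 1) (X 2) (X 0)) = Cc (px K) (py K) Polynomial.X := by
  unfold Cc
  simp only [map_mul, map_sub, map_pow, map_ofNat, T0, T1, T2]
theorem TQm : TT K 2 (QQp (-1) (X 1) (X 2) (X 0)) = QQp (-1) (px K) (py K) Polynomial.X := by
  unfold QQp
  simp only [map_mul, map_add, map_sub, map_pow, map_neg, map_one, T0, T1, T2]

/-! Homogeneity -/

section hom

theorem h2x : (2 * X 1 : S3 K).IsHomogeneous 1 := by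
  have := isHomogeneous_C_mul_X (2 : K) (1 : Fin 3)
  rwa [map_ofNat] at this

theorem h_add_t (c : K) : (X 1 + C c * X 2 : S3 K).IsHomogeneous 1 :=
  (isHomogeneous_X K 1).add (isHomogeneous_C_mul_X c 2)

theorem h_2_t (c : K) : (2 * X 1 + C c * X 2 : S3 K).IsHomogeneous 1 :=
  h2x.add (isHomogeneous_C_mul_X c 2)

theorem h_xy : (X 1 + X 2 : S3 K).IsHomogeneous 1 :=
  (isHomogeneous_X K 1).add (isHomogeneous_X K 2)

theorem h_2xy : (2 * X 1 + X 2 : S3 K).IsHomogeneous 1 := h2x.add (isHomogeneous_X K 2)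

theorem h_lin (a b : K) : (C a * X 1 + C b * X 2 : S3 K).IsHomogeneous 1 :=
  (isHomogeneous_C_mul_X a 1).add (isHomogeneous_C_mul_X b 2)

theorem h_W : (Ww (C τ) (X 1) (X 2) : S3 K).IsHomogeneous 1 := by
  have := h_2_t (1 + τ)
  rwa [map_add, map_one] at this

theorem h_N : (Nn (C τ) (X 1) (X 2) : S3 K).IsHomogeneous 4 :=
  ((h_xy.mul (h_add_t τ)).mul h_2xy).mul (h_2_t τ)

theorem h_V1 : (V1 (C τ) (X 1) (X 2) : S3 K).IsHomogeneous 2 :=
  (isHomogeneous_X K 1).mul h_W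

theorem h_z2 : ((X 0) ^ 2 : S3 K).IsHomogeneous 2 := isHomogeneous_X_pow 0 2

theorem h_xy2 : ((X 1 + X 2) ^ 2 : S3 K).IsHomogeneous 2 := by
  have := h_xy (K := K) |>.pow 2
  simpa using this

theorem h_xt2 (c : K) : ((X 1 + C c * X 2) ^ 2 : S3 K).IsHomogeneous 2 := by
  have := (h_add_t c).pow 2
  simpa using this

theorem h_V2 : (V2 (C τ) (X 1) (X 2) (X 0) : S3 K).IsHomogeneous 2 := by
  have e : (V2 (C τ) (X 1) (X 2) (X 0) : S3 K) =
      C (2 * (1 + τ)) * X 0 ^ 2 + C ((τ - 1) ^ 2) * (X 1 * X 2) := by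
    unfold V2
    simp only [map_mul, map_add, map_one, map_ofNat, map_pow, map_sub]
  rw [e]
  exact (h_z2.C_mul _).add (((isHomogeneous_X K 1).mul (isHomogeneous_X K 2)).C_mul _)

theorem h_zx : (X 0 ^ 2 - X 1 ^ 2 : S3 K).IsHomogeneous 2 :=
  h_z2.sub (isHomogeneous_X_pow 1 2)

theorem h_zxy : (X 0 ^ 2 - (X 1 + X 2) ^ 2 : S3 K).IsHomogeneous 2 :=
  h_z2.sub h_xy2

theorem h_F1 : (F1 (C τ) (X 1) (X 2) (X 0) : S3 K).IsHomogeneous 6 := by
  unfold F1
  refine (isHomogeneous_X K 0).mul (n := 5) (((h_N.mul h_W).sub ?_).add ?_)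
  · exact (((h_add_t τ).mul (h_2_t τ)).mul h_W).mul h_zx
  · have := h_lin (K := K) 3 (τ + 1)
    rw [map_add, map_one, map_ofNat] at this
    exact (this.mul h_zx).mul h_zxy

theorem h_F2 : (F2 (C τ) (X 1) (X 2) (X 0) : S3 K).IsHomogeneous 6 := by
  unfold F2
  have l1 := h_lin (K := K) (2 * (1 + τ)) ((τ - 1) ^ 2)
  have l2 := h_lin (K := K) (2 * (1 + τ)) (2 * (1 + τ) - (τ - 1) ^ 2)
  have l3 := h_lin (K := K) (1 + τ) (4 * τ - τ ^ 2 - 1)
  simp only [map_mul, map_add, map_sub, map_pow, map_one, map_ofNat] at l1 l2 l3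
  exact (isHomogeneous_X K 0).mul (n := 5)
    (((h_N.mul l1).add ((((h_add_t τ).mul (h_2_t τ)).mul l2).mul h_zx)).sub
      ((l3.mul h_zx).mul h_zxy))

theorem h_QQp : (QQp (C τ) (X 1) (X 2) (X 0) : S3 K).IsHomogeneous 7 :=
  (((isHomogeneous_X K 0).mul h_zx).mul h_zxy).mul (h_z2.sub (h_xt2 τ))

theorem h_Al : (Al (C τ) (X 1) (X 2) : S3 K).IsHomogeneous 1 := by
  have := (h_lin (K := K) 3 (1 + τ)).C_mul (2 * (1 + τ))
  simp only [map_mul, map_add, map_one, map_ofNat] at this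
  exact this

theorem h_xmy : (X 1 - X 2 : S3 K).IsHomogeneous 1 :=
  (isHomogeneous_X K 1).sub (isHomogeneous_X K 2)

theorem h_2xmy : (2 * X 1 - X 2 : S3 K).IsHomogeneous 1 := h2x.sub (isHomogeneous_X K 2)

theorem h_Nm : (Nm (X 1) (X 2) : S3 K).IsHomogeneous 4 :=
  ((h_xy.mul h_xmy).mul h_2xy).mul h_2xmy

theorem h_G1 : (G1 (X 1) (X 2) (X 0) : S3 K).IsHomogeneous 5 := by
  have c2 : (2 : S3 K) = C 2 := by rw [map_ofNat]
  have c3 : (3 : S3 K) = C 3 := by rw [map_ofNat]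
  have e : (G1 (X 1) (X 2) (X 0) : S3 K) = X 0 * (C 2 * Nm (X 1) (X 2) -
      C 2 * ((X 1 - X 2) * (2 * X 1 - X 2) * (X 0 ^ 2 - X 1 ^ 2)) +
      C 3 * ((X 0 ^ 2 - X 1 ^ 2) * (X 0 ^ 2 - (X 1 + X 2) ^ 2))) := by
    unfold G1
    rw [← c2, ← c3]
    ring
  rw [e]
  exact (isHomogeneous_X K 0).mul (n := 4)
    (((h_Nm.C_mul 2).sub (((h_xmy.mul h_2xmy).mul h_zx).C_mul 2)).add
      ((h_zx.mul h_zxy).C_mul 3))

theorem h_2xN : (2 * X 1 * Nm (X 1) (X 2) : S3 K).IsHomogeneous 5 := h2x.mul h_Nm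

theorem h_V3 : (V3 (X 1) (X 2) (X 0) : S3 K).IsHomogeneous 4 := h_zx.mul h_zxy

theorem h_G3 : (G3 (X 1) (X 2) (X 0) : S3 K).IsHomogeneous 8 :=
  h_V3.mul ((isHomogeneous_X K 0).mul (n := 3) ((h_xy.mul h_2xy).mul h_2xmy))

theorem h_Qm : (QQp (-1) (X 1) (X 2) (X 0) : S3 K).IsHomogeneous 7 := by
  have := h_QQp (τ := (-1 : K))
  rwa [map_neg, map_one] at this

theorem h_Cc : (Cc (X 1) (X 2) (X 0) : S3 K).IsHomogeneous 2 := by
  have e : (Cc (X 1) (X 2) (X 0) : S3 K) = C 3 * X 0 ^ 2 - C 7 * X 1 ^ 2 -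
      C 6 * (X 1 * X 2) - C 2 * X 2 ^ 2 := by
    unfold Cc
    simp only [map_ofNat]
  rw [e]
  exact (((h_z2.C_mul 3).sub ((isHomogeneous_X_pow 1 2).C_mul 7)).sub
    (((isHomogeneous_X K 1).mul (isHomogeneous_X K 2)).C_mul 6)).sub
    ((isHomogeneous_X_pow 2 2).C_mul 2)

end hom

/-- a homogeneous polynomial of positive degree has no constant term -/
theorem cc_zero {σ : Type*} {p : MvPolynomial σ K} {n : ℕ} (hn : n ≠ 0)
    (hp : p.IsHomogeneous n) : constantCoeff p = 0 := by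
  rw [constantCoeff_eq]
  exact hp.coeff_eq_zero (by simpa using hn.symm)

theorem vec3_ext {η ζ : Fin 3 → S3 K} (h0 : TT K 2 (η 0) = TT K 2 (ζ 0))
    (h1 : TT K 2 (η 1) = TT K 2 (ζ 1)) (h2 : TT K 2 (η 2) = TT K 2 (ζ 2)) : η = ζ := by
  funext j
  fin_cases j
  · exact (TT K 2).injective h0
  · exact (TT K 2).injective h1
  · exact (TT K 2).injective h2

/-- the Euler derivation -/
noncomputable def vE : Fin 3 → S3 K := ![X 0, X 1, X 2]
/-- a derivation of degree six -/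
noncomputable def vB1 (τ : K) : Fin 3 → S3 K :=
  ![F1 (C τ) (X 1) (X 2) (X 0), V1 (C τ) (X 1) (X 2) * Nn (C τ) (X 1) (X 2), 0]
/-- a derivation of degree six -/
noncomputable def vB2 (τ : K) : Fin 3 → S3 K :=
  ![F2 (C τ) (X 1) (X 2) (X 0), V2 (C τ) (X 1) (X 2) (X 0) * Nn (C τ) (X 1) (X 2), 0]
/-- a derivation of degree seven -/
noncomputable def vQ (τ : K) : Fin 3 → S3 K := ![QQp (C τ) (X 1) (X 2) (X 0), 0, 0]

theorem mem_E {m r : ℕ} (nd : Fin m → K × K) (dr : Fin r → K × K) :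
    (vE : Fin 3 → S3 K) ∈ logDer (pencil nd dr) := by
  rw [mem_logDer_pencil]
  show IsLog nd dr (TT K 2 (X 0)) (TT K 2 (X 1)) (TT K 2 (X 2))
  rw [T0, T1, T2]
  exact isLog_euler nd dr

theorem mem_B1 : vB1 τ ∈ logDer (Arr τ) := by
  unfold Arr
  rw [mem_logDer_pencil]
  show IsLog _ _ (TT K 2 (F1 (C τ) (X 1) (X 2) (X 0)))
    (TT K 2 (V1 (C τ) (X 1) (X 2) * Nn (C τ) (X 1) (X 2))) (TT K 2 0)
  rw [TF1, map_mul, TV1, TNn, map_zero]
  exact isLog_nd7 rfl rfl node_F1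

theorem mem_B2 : vB2 τ ∈ logDer (Arr τ) := by
  unfold Arr
  rw [mem_logDer_pencil]
  show IsLog _ _ (TT K 2 (F2 (C τ) (X 1) (X 2) (X 0)))
    (TT K 2 (V2 (C τ) (X 1) (X 2) (X 0) * Nn (C τ) (X 1) (X 2))) (TT K 2 0)
  rw [TF2, map_mul, TV2, TNn, map_zero]
  exact isLog_nd7 rfl rfl node_F2

theorem mem_Q : vQ τ ∈ logDer (Arr τ) := by
  unfold Arr
  rw [mem_logDer_pencil]
  show IsLog _ _ (TT K 2 (QQp (C τ) (X 1) (X 2) (X 0))) (TT K 2 0) (TT K 2 0)
  rw [TQQp, map_zero]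
  exact isLog_nd7 (v := 0) (by simp) rfl node_QQp

theorem resB (h : Good τ) (hm : τ ≠ -1) :
    IsPlusOneResolution (Arr τ) ![1, 6, 6] 7 ![vE, vB1 τ, vB2 τ] (vQ τ)
      ![0, -V2 (C τ) (X 1) (X 2) (X 0), V1 (C τ) (X 1) (X 2)] (Al (C τ) (X 1) (X 2)) where
  theta_mem := by
    intro i
    fin_cases i
    · exact mem_E _ _
    · exact mem_B1
    · exact mem_B2
  phi_mem := mem_Q
  theta_homogeneous := by
    intro i j
    fin_cases i <;> fin_cases j
    · exact isHomogeneous_X K 0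
    · exact isHomogeneous_X K 1
    · exact isHomogeneous_X K 2
    · exact h_F1
    · exact h_V1.mul h_N
    · exact isHomogeneous_zero _ _ _
    · exact h_F2
    · exact h_V2.mul h_N
    · exact isHomogeneous_zero _ _ _
  phi_homogeneous := by
    intro j
    fin_cases j
    · exact h_QQp
    · exact isHomogeneous_zero _ _ _
    · exact isHomogeneous_zero _ _ _
  coeff_homogeneous := by
    intro i
    fin_cases i
    · exact Or.inl rfl
    · exact Or.inr ⟨2, rfl, h_V2.neg⟩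
    · exact Or.inr ⟨2, rfl, h_V1⟩
  alpha_homogeneous := h_Al
  generate := by
    intro η hη
    rw [Arr, mem_logDer_pencil] at hη
    obtain ⟨u, g1, g2, k, ha, hb, hc⟩ := genB h hm hη
    refine ⟨![(TT K 2).symm u, (TT K 2).symm g1, (TT K 2).symm g2], (TT K 2).symm k,
      vec3_ext ?_ ?_ ?_⟩
    · rw [ha]
      simp only [Fin.sum_univ_three, Matrix.cons_val, Pi.add_apply, Pi.smul_apply, smul_eq_mul,
        vE, vB1, vB2, vQ, map_add, map_mul, AlgEquiv.apply_symm_apply, TF1, TF2, TQQp, T0]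
    · rw [hb]
      simp only [Fin.sum_univ_three, Matrix.cons_val, Pi.add_apply, Pi.smul_apply, smul_eq_mul,
        vE, vB1, vB2, vQ, map_add, map_mul, AlgEquiv.apply_symm_apply, TV1, TV2, TNn, T1,
        map_zero, mul_zero, add_zero]
    · rw [hc]
      simp only [Fin.sum_univ_three, Matrix.cons_val, Pi.add_apply, Pi.smul_apply, smul_eq_mul,
        vE, vB1, vB2, vQ, map_add, map_mul, AlgEquiv.apply_symm_apply, T2,
        map_zero, mul_zero, add_zero]
  relation := by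
    have hr := rel_B (C τ) (X 1) (X 2) (X 0 : S3 K)
    funext j
    fin_cases j
    · show (∑ i, (![0, -V2 (C τ) (X 1) (X 2) (X 0), V1 (C τ) (X 1) (X 2)] : Fin 3 → S3 K) i •
        ![vE, vB1 τ, vB2 τ] i) 0 + Al (C τ) (X 1) (X 2) * vQ τ 0 = 0
      simp only [Fin.sum_univ_three, Matrix.cons_val, Pi.add_apply, Pi.smul_apply, smul_eq_mul,
        vE, vB1, vB2, vQ]
      linear_combination -hr
    · show (∑ i, (![0, -V2 (C τ) (X 1) (X 2) (X 0), V1 (C τ) (X 1) (X 2)] : Fin 3 → S3 K) i •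
        ![vE, vB1 τ, vB2 τ] i) 1 + Al (C τ) (X 1) (X 2) * vQ τ 1 = 0
      simp only [Fin.sum_univ_three, Matrix.cons_val, Pi.add_apply, Pi.smul_apply, smul_eq_mul,
        vE, vB1, vB2, vQ]
      ring
    · show (∑ i, (![0, -V2 (C τ) (X 1) (X 2) (X 0), V1 (C τ) (X 1) (X 2)] : Fin 3 → S3 K) i •
        ![vE, vB1 τ, vB2 τ] i) 2 + Al (C τ) (X 1) (X 2) * vQ τ 2 = 0
      simp only [Fin.sum_univ_three, Matrix.cons_val, Pi.add_apply, Pi.smul_apply, smul_eq_mul,
        vE, vB1, vB2, vQ]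
      ring
  relations := by
    intro g k hg
    have e0 := congrArg (TT K 2) (congrFun hg 0)
    have e1 := congrArg (TT K 2) (congrFun hg 1)
    have e2 := congrArg (TT K 2) (congrFun hg 2)
    simp only [Fin.sum_univ_three, Matrix.cons_val, Pi.add_apply, Pi.smul_apply, smul_eq_mul,
      vE, vB1, vB2, vQ, map_add, map_mul, TF1, TF2, TQQp, TV1, TV2, TNn, T0, T1, T2, Pi.zero_apply,
      map_zero, mul_zero, add_zero] at e0 e1 e2
    obtain ⟨c, hu, h1, h2, h3⟩ := relB h hm e0 e1 e2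
    refine ⟨(TT K 2).symm c, ?_, ?_⟩
    · intro i
      apply (TT K 2).injective
      rw [map_mul, AlgEquiv.apply_symm_apply]
      fin_cases i
      · show TT K 2 (g 0) = c * TT K 2 0
        rw [hu, map_zero, mul_zero]
      · show TT K 2 (g 1) = c * TT K 2 (-V2 (C τ) (X 1) (X 2) (X 0))
        rw [h1, map_neg, TV2]
      · show TT K 2 (g 2) = c * TT K 2 (V1 (C τ) (X 1) (X 2))
        rw [h2, TV1]
    · apply (TT K 2).injective
      rw [map_mul, AlgEquiv.apply_symm_apply, h3, TAl]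
  nonzero := by
    right
    refine ⟨2, ?_⟩
    show V1 (C τ) (X 1) (X 2) ≠ (0 : S3 K)
    intro h0
    have := congrArg (eval ![(0 : K), 1, 0]) h0
    simp [V1, Ww] at this
    exact h.two this
  minimal := by
    intro i
    fin_cases i
    · exact map_zero _
    · exact cc_zero two_ne_zero h_V2.neg
    · exact cc_zero two_ne_zero h_V1

theorem Al_ne (h : Good τ) (hm : τ ≠ -1) : (Al (C τ) (X 1) (X 2) : S3 K) ≠ 0 := by
  intro h0
  have h3 : 1 + τ ≠ 0 := fun h => hm (by linear_combination h)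
  have h1 := congrArg (eval ![(0 : K), 0, 1]) h0
  have h4 : eval ![(0 : K), 0, 1] (Al (C τ) (X 1) (X 2) : S3 K) = 2 * (1 + τ) * (1 + τ) := by
    simp [Al]
  rw [h4, map_zero] at h1
  exact mul_ne_zero (mul_ne_zero h.two h3) h3 h1

/-- a derivation of degree five -/
noncomputable def vA1 : Fin 3 → S3 K :=
  ![G1 (X 1) (X 2) (X 0), 2 * X 1 * Nm (X 1) (X 2), 0]
/-- a derivation of degree eight -/
noncomputable def vA3 : Fin 3 → S3 K :=
  ![G3 (X 1) (X 2) (X 0), V3 (X 1) (X 2) (X 0) * Nm (X 1) (X 2), 0]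

theorem mem_A1 : vA1 ∈ logDer (Arr (-1 : K)) := by
  unfold Arr
  rw [mem_logDer_pencil]
  show IsLog _ _ (TT K 2 (G1 (X 1) (X 2) (X 0)))
    (TT K 2 (2 * X 1 * Nm (X 1) (X 2))) (TT K 2 0)
  rw [TG1, map_mul, map_mul, map_ofNat, TNm, map_zero, T1]
  refine isLog_nd7 ?_ rfl node_G1
  rw [pcm1, Nn_neg_one]

theorem mem_A3 : vA3 ∈ logDer (Arr (-1 : K)) := by
  unfold Arr
  rw [mem_logDer_pencil]
  show IsLog _ _ (TT K 2 (G3 (X 1) (X 2) (X 0)))
    (TT K 2 (V3 (X 1) (X 2) (X 0) * Nm (X 1) (X 2))) (TT K 2 0)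
  rw [TG3, map_mul, TV3, TNm, map_zero]
  refine isLog_nd7 ?_ rfl node_G3
  rw [pcm1, Nn_neg_one]

theorem resA (h : Good (-1 : K)) :
    IsPlusOneResolution (Arr (-1 : K)) ![1, 5, 7] 8 ![vE, vA1, vQ (-1)] vA3
      ![0, V3 (X 1) (X 2) (X 0), -Cc (X 1) (X 2) (X 0)] (-(2 * X 1)) where
  theta_mem := by
    intro i
    fin_cases i
    · exact mem_E _ _
    · exact mem_A1
    · exact mem_Q
  phi_mem := mem_A3
  theta_homogeneous := by
    intro i j
    fin_cases i <;> fin_cases j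
    · exact isHomogeneous_X K 0
    · exact isHomogeneous_X K 1
    · exact isHomogeneous_X K 2
    · exact h_G1
    · exact h_2xN
    · exact isHomogeneous_zero _ _ _
    · exact h_QQp
    · exact isHomogeneous_zero _ _ _
    · exact isHomogeneous_zero _ _ _
  phi_homogeneous := by
    intro j
    fin_cases j
    · exact h_G3
    · exact h_V3.mul h_Nm
    · exact isHomogeneous_zero _ _ _
  coeff_homogeneous := by
    intro i
    fin_cases i
    · exact Or.inl rfl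
    · exact Or.inr ⟨4, rfl, h_V3⟩
    · exact Or.inr ⟨2, rfl, h_Cc.neg⟩
  alpha_homogeneous := h2x.neg
  generate := by
    intro η hη
    rw [Arr, mem_logDer_pencil] at hη
    obtain ⟨u, g1, k, g3, ha, hb, hc⟩ := genA h hη
    refine ⟨![(TT K 2).symm u, (TT K 2).symm g1, (TT K 2).symm k], (TT K 2).symm g3,
      vec3_ext ?_ ?_ ?_⟩
    · rw [ha]
      simp only [Fin.sum_univ_three, Matrix.cons_val, Pi.add_apply, Pi.smul_apply, smul_eq_mul,
        vE, vA1, vA3, vQ, map_add, map_mul, AlgEquiv.apply_symm_apply, TG1, TG3, TQQp, T0, pcm1]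
    · rw [hb]
      simp only [Fin.sum_univ_three, Matrix.cons_val, Pi.add_apply, Pi.smul_apply, smul_eq_mul,
        vE, vA1, vA3, vQ, map_add, map_mul, AlgEquiv.apply_symm_apply, TV3, TNm, T1,
        map_zero, mul_zero, add_zero, map_ofNat]
    · rw [hc]
      simp only [Fin.sum_univ_three, Matrix.cons_val, Pi.add_apply, Pi.smul_apply, smul_eq_mul,
        vE, vA1, vA3, vQ, map_add, map_mul, AlgEquiv.apply_symm_apply, T2,
        map_zero, mul_zero, add_zero]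
  relation := by
    have hr := rel_A (X 1) (X 2) (X 0 : S3 K)
    have hq : QQp (C (-1 : K)) (X 1) (X 2) (X 0 : S3 K) = QQp (-1) (X 1) (X 2) (X 0) := by
      rw [map_neg, map_one]
    funext j
    fin_cases j
    · show (∑ i, (![0, V3 (X 1) (X 2) (X 0), -Cc (X 1) (X 2) (X 0)] : Fin 3 → S3 K) i •
        ![vE, vA1, vQ (-1)] i) 0 + (-(2 * X 1)) * (vA3 : Fin 3 → S3 K) 0 = 0
      simp only [Fin.sum_univ_three, Matrix.cons_val, Pi.add_apply, Pi.smul_apply, smul_eq_mul,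
        vE, vA1, vA3, vQ, hq]
      linear_combination hr
    · show (∑ i, (![0, V3 (X 1) (X 2) (X 0), -Cc (X 1) (X 2) (X 0)] : Fin 3 → S3 K) i •
        ![vE, vA1, vQ (-1)] i) 1 + (-(2 * X 1)) * (vA3 : Fin 3 → S3 K) 1 = 0
      simp only [Fin.sum_univ_three, Matrix.cons_val, Pi.add_apply, Pi.smul_apply, smul_eq_mul,
        vE, vA1, vA3, vQ]
      ring
    · show (∑ i, (![0, V3 (X 1) (X 2) (X 0), -Cc (X 1) (X 2) (X 0)] : Fin 3 → S3 K) i •
        ![vE, vA1, vQ (-1)] i) 2 + (-(2 * X 1)) * (vA3 : Fin 3 → S3 K) 2 = 0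
      simp only [Fin.sum_univ_three, Matrix.cons_val, Pi.add_apply, Pi.smul_apply, smul_eq_mul,
        vE, vA1, vA3, vQ]
      ring
  relations := by
    intro g k hg
    have e0 := congrArg (TT K 2) (congrFun hg 0)
    have e1 := congrArg (TT K 2) (congrFun hg 1)
    have e2 := congrArg (TT K 2) (congrFun hg 2)
    simp only [Fin.sum_univ_three, Matrix.cons_val, Pi.add_apply, Pi.smul_apply, smul_eq_mul,
      vE, vA1, vA3, vQ, map_add, map_mul, TG1, TG3, TQQp, TV3, TNm, T0, T1, T2, Pi.zero_apply,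
      map_zero, mul_zero, add_zero, pcm1, map_ofNat] at e0 e1 e2
    obtain ⟨c, hu, h1, h2, h3⟩ := relA h e0 e1 e2
    refine ⟨(TT K 2).symm c, ?_, ?_⟩
    · intro i
      apply (TT K 2).injective
      rw [map_mul, AlgEquiv.apply_symm_apply]
      fin_cases i
      · show TT K 2 (g 0) = c * TT K 2 0
        rw [hu, map_zero, mul_zero]
      · show TT K 2 (g 1) = c * TT K 2 (V3 (X 1) (X 2) (X 0))
        rw [h1, TV3]
      · show TT K 2 (g 2) = c * TT K 2 (-Cc (X 1) (X 2) (X 0))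
        rw [h2, map_neg, TCc]
    · apply (TT K 2).injective
      rw [map_mul, AlgEquiv.apply_symm_apply, h3, map_neg, map_mul, map_ofNat, T1]
  nonzero := by
    left
    intro h0
    have := congrArg (eval ![(0 : K), 1, 0]) h0
    simp at this
    exact h.two this
  minimal := by
    intro i
    fin_cases i
    · exact map_zero _
    · exact cc_zero four_ne_zero h_V3
    · exact cc_zero two_ne_zero h_Cc.neg

end Pool.Agent.Zk48.PO
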