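import Mathlib
import Pool.Agent.Zk48.PO.Lat
import Pool.Agent.Zk48.PO.FamRes

set_option autoImplicit false

/-!
# The intersection lattices of the members of the family
-/

namespace Pool.Agent.Zk48.PO

open MvPolynomial

universe u

variable {K : Type u} [Field K] {τ : K}

/-- integer data -/
def ep : Fin 12 → ℤ := ![1, 1, 1, 1, 1, 1, 1, 0, 0, 0, 0, 0]
/-- integer data -/
def vp : Fin 12 → ℤ := ![0, -1, 1, -1, 1, -1, 1, 0, 1, 1, 2, 2]
/-- integer data -/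
def vq0 : Fin 12 → ℤ := ![0, 0, 0, -1, 1, 0, 0, 1, 1, 0, 1, 0]
/-- integer data -/
def vq1 : Fin 12 → ℤ := ![0, 0, 0, 0, 0, -1, 1, 0, 0, 1, 0, 1]

theorem arr_eq (i : Fin 12) :
    Arr τ i = ![(ep i : K), (vp i : K), (vq0 i : K) + (vq1 i : K) * τ] := by
  have hc : ∀ j : Fin 7, Arr τ (Fin.castAdd 5 j) = ![1, -(nd7 τ j).1, -(nd7 τ j).2] := by
    intro j
    unfold Arr pencil
    rw [Fin.append_left]
  have hn : ∀ j : Fin 5, Arr τ (Fin.natAdd 7 j) = ![0, (dr5 τ j).1, (dr5 τ j).2] := by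
    intro j
    unfold Arr pencil
    rw [Fin.append_right]
  fin_cases i
  · refine (hc 0).trans ?_
    simp [nd7, ep, vp, vq0, vq1]
  · refine (hc 1).trans ?_
    simp [nd7, ep, vp, vq0, vq1]
  · refine (hc 2).trans ?_
    simp [nd7, ep, vp, vq0, vq1]
  · refine (hc 3).trans ?_
    simp [nd7, ep, vp, vq0, vq1]
  · refine (hc 4).trans ?_
    simp [nd7, ep, vp, vq0, vq1]
  · refine (hc 5).trans ?_
    simp [nd7, ep, vp, vq0, vq1]
  · refine (hc 6).trans ?_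
    simp [nd7, ep, vp, vq0, vq1]
  · refine (hn 0).trans ?_
    simp [dr5, ep, vp, vq0, vq1]
  · refine (hn 1).trans ?_
    simp [dr5, ep, vp, vq0, vq1]
  · refine (hn 2).trans ?_
    simp [dr5, ep, vp, vq0, vq1]
  · refine (hn 3).trans ?_
    simp [dr5, ep, vp, vq0, vq1]
  · refine (hn 4).trans ?_
    simp [dr5, ep, vp, vq0, vq1]

/-- constant coefficient of the minor -/
def D0 (i j k : Fin 12) : ℤ :=
  ep i * (vp j * vq0 k - vp k * vq0 j) - ep j * (vp i * vq0 k - vp k * vq0 i) +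
    ep k * (vp i * vq0 j - vp j * vq0 i)
/-- linear coefficient of the minor -/
def D1 (i j k : Fin 12) : ℤ :=
  ep i * (vp j * vq1 k - vp k * vq1 j) - ep j * (vp i * vq1 k - vp k * vq1 i) +
    ep k * (vp i * vq1 j - vp j * vq1 i)

theorem det_arr (i j k : Fin 12) :
    Matrix.det (Matrix.of ![Arr τ i, Arr τ j, Arr τ k]) = (D0 i j k : K) + (D1 i j k : K) * τ := by
  rw [Matrix.det_fin_three, arr_eq, arr_eq, arr_eq]
  simp only [Matrix.of_apply, Matrix.cons_val]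
  unfold D0 D1
  push_cast
  ring

/-- the possible values of the minors -/
def okL : List (ℤ × ℤ) :=
  [(0, 0), (0, 1), (0, -1), (0, 2), (0, -2), (1, -2), (-1, 2), (1, -1), (-1, 1), (1, 0), (-1, 0),
   (2, -4), (-2, 4), (2, -2), (-2, 2), (2, -1), (-2, 1), (2, 0), (-2, 0), (4, -2), (-4, 2)]

theorem ok_all : ∀ i j k : Fin 12, (D0 i j k, D1 i j k) ∈ okL := by
  decide +kernel

theorem ok_ne (h : Good τ) {a b : ℤ} (hab : (a, b) ∈ okL) :
    (a : K) + (b : K) * τ = 0 ↔ a = 0 ∧ b = 0 := by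
  have h2 := h.two
  have h0 := h.t0
  have a1 : τ - 1 ≠ 0 := sub_ne_zero.2 h.t1
  have a2 : τ - 2 ≠ 0 := sub_ne_zero.2 h.t2
  have a3 : 2 * τ - 1 ≠ 0 := sub_ne_zero.2 h.t3
  simp only [okL, List.mem_cons, Prod.mk.injEq, List.not_mem_nil, or_false] at hab
  have key : ∀ (a b : ℤ) (c d : K), c ≠ 0 → d ≠ 0 → (a : K) + (b : K) * τ = c * d →
      ¬ (a = 0 ∧ b = 0) → ((a : K) + (b : K) * τ = 0 ↔ a = 0 ∧ b = 0) := by
    intro a b c d hc hd he hn
    rw [he]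
    exact ⟨fun h5 => absurd h5 (mul_ne_zero hc hd), fun h5 => absurd h5 hn⟩
  have m1 : (-1 : K) ≠ 0 := neg_ne_zero.2 one_ne_zero
  have m2 : (-2 : K) ≠ 0 := neg_ne_zero.2 h2
  rcases hab with ⟨rfl, rfl⟩ | ⟨rfl, rfl⟩ | ⟨rfl, rfl⟩ | ⟨rfl, rfl⟩ | ⟨rfl, rfl⟩ | ⟨rfl, rfl⟩ |
    ⟨rfl, rfl⟩ | ⟨rfl, rfl⟩ | ⟨rfl, rfl⟩ | ⟨rfl, rfl⟩ | ⟨rfl, rfl⟩ | ⟨rfl, rfl⟩ | ⟨rfl, rfl⟩ |
    ⟨rfl, rfl⟩ | ⟨rfl, rfl⟩ | ⟨rfl, rfl⟩ | ⟨rfl, rfl⟩ | ⟨rfl, rfl⟩ | ⟨rfl, rfl⟩ | ⟨rfl, rfl⟩ |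
    ⟨rfl, rfl⟩
  · simp
  · exact key _ _ 1 τ one_ne_zero h0 (by push_cast; ring) (by decide)
  · exact key _ _ (-1) τ m1 h0 (by push_cast; ring) (by decide)
  · exact key _ _ 2 τ h2 h0 (by push_cast; ring) (by decide)
  · exact key _ _ (-2) τ m2 h0 (by push_cast; ring) (by decide)
  · exact key _ _ (-1) (2 * τ - 1) m1 a3 (by push_cast; ring) (by decide)
  · exact key _ _ 1 (2 * τ - 1) one_ne_zero a3 (by push_cast; ring) (by decide)
  · exact key _ _ (-1) (τ - 1) m1 a1 (by push_cast; ring) (by decide)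
  · exact key _ _ 1 (τ - 1) one_ne_zero a1 (by push_cast; ring) (by decide)
  · exact key _ _ 1 1 one_ne_zero one_ne_zero (by push_cast; ring) (by decide)
  · exact key _ _ (-1) 1 m1 one_ne_zero (by push_cast; ring) (by decide)
  · exact key _ _ (-2) (2 * τ - 1) m2 a3 (by push_cast; ring) (by decide)
  · exact key _ _ 2 (2 * τ - 1) h2 a3 (by push_cast; ring) (by decide)
  · exact key _ _ (-2) (τ - 1) m2 a1 (by push_cast; ring) (by decide)
  · exact key _ _ 2 (τ - 1) h2 a1 (by push_cast; ring) (by decide)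
  · exact key _ _ (-1) (τ - 2) m1 a2 (by push_cast; ring) (by decide)
  · exact key _ _ 1 (τ - 2) one_ne_zero a2 (by push_cast; ring) (by decide)
  · exact key _ _ 2 1 h2 one_ne_zero (by push_cast; ring) (by decide)
  · exact key _ _ (-2) 1 m2 one_ne_zero (by push_cast; ring) (by decide)
  · exact key _ _ (-2) (τ - 2) m2 a2 (by push_cast; ring) (by decide)
  · exact key _ _ 2 (τ - 2) h2 a2 (by push_cast; ring) (by decide)

theorem det_zero_iff (h : Good τ) (i j k : Fin 12) :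
    Matrix.det (Matrix.of ![Arr τ i, Arr τ j, Arr τ k]) = 0 ↔ D0 i j k = 0 ∧ D1 i j k = 0 := by
  rw [det_arr]
  exact ok_ne h (ok_all i j k)

theorem of3 (e : Fin 3 → Fin 12) :
    (Matrix.of (fun i => Arr τ (e i)) : Matrix (Fin 3) (Fin 3) K) =
      Matrix.of ![Arr τ (e 0), Arr τ (e 1), Arr τ (e 2)] := by
  ext i j
  fin_cases i <;> rfl

theorem span_arr (h : Good τ) : Submodule.span K (Set.range (Arr τ)) = ⊤ := by
  have h1 : Matrix.det (Matrix.of (fun i => Arr τ ((![0, 7, 8] : Fin 3 → Fin 12) i))) ≠ 0 := by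
    rw [of3]
    intro h0
    have := (det_zero_iff h 0 7 8).1 h0
    exact absurd this (by decide)
  have h2 : LinearIndependent K (fun i => Arr τ ((![0, 7, 8] : Fin 3 → Fin 12) i)) :=
    Matrix.linearIndependent_rows_of_det_ne_zero h1
  have h3 := h2.span_eq_top_of_card_eq_finrank' (by simp)
  rw [eq_top_iff, ← h3]
  apply Submodule.span_mono
  rintro _ ⟨i, rfl⟩
  exact ⟨_, rfl⟩

theorem cl_arr {τ τ' : K} (h : Good τ) (h' : Good τ') (s : Set (Fin 12)) (i : Fin 12) :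
    Cl (Arr τ) s i ↔ Cl (Arr τ') s i := by
  apply cl_of_indep
  intro t
  constructor
  · refine indep_of_minors (span_arr h) (fun e he => ?_) t
    rw [of3, Ne, det_zero_iff h] at he
    rw [of3, Ne, det_zero_iff h']
    exact he
  · refine indep_of_minors (span_arr h') (fun e he => ?_) t
    rw [of3, Ne, det_zero_iff h'] at he
    rw [of3, Ne, det_zero_iff h]
    exact he

end Pool.Agent.Zk48.PO
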