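import Mathlib
import Pool.Agent.Zk48.PO.Hom

set_option autoImplicit false

/-!
# Uniqueness of the degrees of minimal generators
-/

namespace Pool.Agent.Zk48.PO

open MvPolynomial

universe u

variable {K : Type u} [Field K] {l n : ℕ}

/-- a minimal homogeneous system of generators -/
structure HGen (A : Fin n → Fin l → K) {ι : Type} [Fintype ι] (deg : ι → ℕ)
    (g : ι → Fin l → MvPolynomial (Fin l) K) : Prop where
  mem : ∀ i, g i ∈ logDer A
  hom : ∀ i j, (g i j).IsHomogeneous (deg i)
  generate : ∀ η ∈ logDer A, ∃ c : ι → MvPolynomial (Fin l) K, η = ∑ i, c i • g i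
  minimal : ∀ c : ι → MvPolynomial (Fin l) K, ∑ i, c i • g i = 0 → ∀ i, constantCoeff (c i) = 0

theorem HGen.of_res {A : Fin n → Fin l → K} {e : Fin l → ℕ} {d : ℕ}
    {θ : Fin l → Fin l → MvPolynomial (Fin l) K} {φ : Fin l → MvPolynomial (Fin l) K}
    {f : Fin l → MvPolynomial (Fin l) K} {α : MvPolynomial (Fin l) K}
    (h : IsPlusOneResolution A e d θ φ f α) :
    HGen A (fun o : Option (Fin l) => o.elim d e) (fun o => o.elim φ θ) where
  mem := by
    rintro (_ | i)
    · exact h.phi_mem
    · exact h.theta_mem i
  hom := by
    rintro (_ | i) j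
    · exact h.phi_homogeneous j
    · exact h.theta_homogeneous i j
  generate := by
    intro η hη
    obtain ⟨c, k, hk⟩ := h.generate η hη
    refine ⟨fun o => o.elim k c, ?_⟩
    rw [Fintype.sum_option, hk, add_comm]
    rfl
  minimal := by
    intro c hc
    rw [Fintype.sum_option, add_comm] at hc
    obtain ⟨r, h1, h2⟩ := h.relations (fun i => c (some i)) (c none) hc
    rintro (_ | i)
    · rw [h2, map_mul]
      have : constantCoeff α = 0 := by
        rw [constantCoeff_eq]
        exact h.alpha_homogeneous.coeff_eq_zero (by simp)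
      rw [this, mul_zero]
    · rw [h1, map_mul, h.minimal, mul_zero]

/-- a homogeneous element is a combination with homogeneous coefficients -/
theorem HGen.combo {A : Fin n → Fin l → K} {ι : Type} [Fintype ι] {deg : ι → ℕ}
    {g : ι → Fin l → MvPolynomial (Fin l) K} (h : HGen A deg g)
    {η : Fin l → MvPolynomial (Fin l) K} (hη : η ∈ logDer A) {k : ℕ}
    (hk : ∀ j, (η j).IsHomogeneous k) :
    ∃ c : ι → MvPolynomial (Fin l) K, η = ∑ i, c i • g i ∧
      ∀ i, deg i ≠ k → constantCoeff (c i) = 0 := by
  classical
  obtain ⟨c, hc⟩ := h.generate η hη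
  refine ⟨fun i => if deg i ≤ k then homogeneousComponent (k - deg i) (c i) else 0, ?_, ?_⟩
  · funext j
    have h1 := congrArg (homogeneousComponent k) (congrFun hc j)
    rw [homogeneousComponent_eq_self (hk j), Finset.sum_apply, map_sum] at h1
    rw [h1, Finset.sum_apply]
    refine Finset.sum_congr rfl fun i _ => ?_
    simp only [Pi.smul_apply, smul_eq_mul]
    by_cases hi : deg i ≤ k
    · rw [if_pos hi]
      have h2 := hc_mul (h.hom i j) (c i) (k - deg i)
      rw [Nat.add_sub_cancel' hi] at h2
      rw [mul_comm (c i), h2, mul_comm]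
    · rw [if_neg hi, zero_mul, mul_comm (c i)]
      exact hc_mul_lt (h.hom i j) (c i) (by omega)
  · intro i hi
    by_cases hi2 : deg i ≤ k
    · simp only [if_pos hi2]
      rw [constantCoeff_eq]
      apply (homogeneousComponent_isHomogeneous (k - deg i) (c i)).coeff_eq_zero
      simp
      omega
    · simp only [if_neg hi2]
      exact map_zero _

theorem HGen.card_le {A : Fin n → Fin l → K} {ι κ : Type} [Fintype ι] [Fintype κ]
    {deg : ι → ℕ} {g : ι → Fin l → MvPolynomial (Fin l) K} (h : HGen A deg g)
    {deg' : κ → ℕ} {g' : κ → Fin l → MvPolynomial (Fin l) K} (h' : HGen A deg' g') (k : ℕ) :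
    Fintype.card {i // deg i = k} ≤ Fintype.card {j // deg' j = k} := by
  classical
  choose R hR hR0 using fun i => h'.combo (h.mem i) (h.hom i)
  choose P hP using fun j => h.generate (g' j) (h'.mem j)
  -- the product of the two transition matrices is the identity modulo the maximal ideal
  have key : ∀ i i', ∑ j, constantCoeff (R i j) * constantCoeff (P j i') =
      if i = i' then 1 else 0 := by
    intro i
    have h1 : ∑ i', (∑ j, R i j * P j i' - if i = i' then 1 else 0) • g i' = 0 := by
      simp only [sub_smul, Finset.sum_sub_distrib, ite_smul, one_smul, zero_smul,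
        Finset.sum_ite_eq, Finset.mem_univ, if_true]
      rw [sub_eq_zero]
      conv_rhs => rw [hR i]
      simp only [Finset.sum_smul]
      rw [Finset.sum_comm]
      refine Finset.sum_congr rfl fun j _ => ?_
      conv_rhs => rw [hP j]
      rw [Finset.smul_sum]
      exact Finset.sum_congr rfl fun i' _ => by rw [mul_smul]
    intro i'
    have h2 := h.minimal _ h1 i'
    rw [map_sub, map_sum, sub_eq_zero] at h2
    simp only [map_mul] at h2
    rw [h2]
    split_ifs <;> simp
  -- the linear map
  let L : ({i // deg i = k} → K) →ₗ[K] ({j // deg' j = k} → K) :=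
    { toFun := fun x j => ∑ i : {i // deg i = k}, x i * constantCoeff (R i.1 j.1)
      map_add' := by
        intro x y
        funext j
        simp only [Pi.add_apply, add_mul, Finset.sum_add_distrib]
      map_smul' := by
        intro c x
        funext j
        simp only [Pi.smul_apply, smul_eq_mul, RingHom.id_apply, Finset.mul_sum, mul_assoc] }
  have hinj : Function.Injective L := by
    rw [injective_iff_map_eq_zero]
    intro x hx
    funext i'
    have h1 : ∀ j : κ, ∑ i : {i // deg i = k}, x i * constantCoeff (R i.1 j) = 0 := by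
      intro j
      by_cases hj : deg' j = k
      · exact congrFun hx ⟨j, hj⟩
      · apply Finset.sum_eq_zero
        intro i _
        rw [hR0 i.1 j (by rw [i.2]; exact hj), mul_zero]
    calc x i' = ∑ i : {i // deg i = k}, x i * (if i.1 = i'.1 then 1 else 0) := by
          rw [Finset.sum_eq_single i']
          · simp
          · intro i _ hi
            rw [if_neg (fun h5 => hi (Subtype.ext h5)), mul_zero]
          · intro h5; exact absurd (Finset.mem_univ _) h5
      _ = ∑ i : {i // deg i = k}, x i * ∑ j, constantCoeff (R i.1 j) *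
            constantCoeff (P j i'.1) := by
          exact Finset.sum_congr rfl fun i _ => by rw [key]
      _ = ∑ j, (∑ i : {i // deg i = k}, x i * constantCoeff (R i.1 j)) *
            constantCoeff (P j i'.1) := by
          simp only [Finset.mul_sum, Finset.sum_mul]
          rw [Finset.sum_comm]
          exact Finset.sum_congr rfl fun j _ => Finset.sum_congr rfl fun i _ => by ring
      _ = 0 := by simp [h1]
  have := LinearMap.finrank_le_finrank_of_injective hinj
  simpa using this

theorem HGen.card_eq {A : Fin n → Fin l → K} {ι κ : Type} [Fintype ι] [Fintype κ]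
    {deg : ι → ℕ} {g : ι → Fin l → MvPolynomial (Fin l) K} (h : HGen A deg g)
    {deg' : κ → ℕ} {g' : κ → Fin l → MvPolynomial (Fin l) K} (h' : HGen A deg' g') (k : ℕ) :
    Fintype.card {i // deg i = k} = Fintype.card {j // deg' j = k} :=
  le_antisymm (h.card_le h' k) (h'.card_le h k)

/-- the multiset of degrees of minimal generators is determined by the arrangement -/
theorem degrees_unique {A : Fin n → Fin l → K} {e e' : Fin l → ℕ} {d d' : ℕ}
    (h : PlusOneGenerated A e d) (h' : PlusOneGenerated A e' d') :
    (Finset.univ.val.map e) + {d} = (Finset.univ.val.map e') + {d'} := by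
  obtain ⟨θ, φ, f, α, h⟩ := h
  obtain ⟨θ', φ', f', α', h'⟩ := h'
  have key := (HGen.of_res h).card_eq (HGen.of_res h')
  have conv : ∀ (e : Fin l → ℕ) (d k : ℕ),
      Fintype.card {o : Option (Fin l) // (o.elim d e : ℕ) = k} =
        Multiset.count k ((Finset.univ.val.map e) + {d}) := by
    intro e d k
    have h1 : (Finset.univ.val.map e) + {d} =
        (Finset.univ : Finset (Option (Fin l))).val.map (fun o => (o.elim d e : ℕ)) := by
      rw [univ_option]
      simp [Finset.insertNone]
      rw [add_comm]
      rfl
    rw [h1, Multiset.count_map, Fintype.card_subtype]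
    rw [Finset.card_def, Finset.filter_val]
    congr 1
    apply Multiset.filter_congr
    intro o _
    exact eq_comm
  apply Multiset.ext'
  intro k
  rw [← conv, ← conv]
  exact key k

end Pool.Agent.Zk48.PO
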