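import Mathlib
import Pool.Agent.Zk48.PO.Betti

set_option autoImplicit false

/-!
# Uniqueness of the level, and permutations of the exponents
-/

namespace Pool.Agent.Zk48.PO

open MvPolynomial

universe u

variable {K : Type u} [Field K] {l n : ℕ}

/-- a homogeneous element is a combination with homogeneous coefficients -/
theorem HGen.combo' {A : Fin n → Fin l → K} {ι : Type} [Fintype ι] {deg : ι → ℕ}
    {g : ι → Fin l → MvPolynomial (Fin l) K} (h : HGen A deg g)
    {η : Fin l → MvPolynomial (Fin l) K} (hη : η ∈ logDer A) {k : ℕ}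
    (hk : ∀ j, (η j).IsHomogeneous k) :
    ∃ c : ι → MvPolynomial (Fin l) K, η = ∑ i, c i • g i ∧
      ∀ i, c i = 0 ∨ ∃ m, m + deg i = k ∧ (c i).IsHomogeneous m := by
  classical
  obtain ⟨c, hc⟩ := h.generate η hη
  refine ⟨fun i => if deg i ≤ k then homogeneousComponent (k - deg i) (c i) else 0, ?_, ?_⟩
  · funext j
    have h1 := congrArg (homogeneousComponent k) (congrFun hc j)
    rw [homogeneousComponent_eq_self (hk j), Finset.sum_apply, map_sum] at h1
    rw [h1, Finset.sum_apply]
    refine Finset.sum_congr rfl fun i _ => ?_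
    simp only [Pi.smul_apply, smul_eq_mul]
    by_cases hi : deg i ≤ k
    · rw [if_pos hi]
      have h2 := hc_mul (h.hom i j) (c i) (k - deg i)
      rw [Nat.add_sub_cancel' hi] at h2
      rw [mul_comm (c i), h2, mul_comm]
    · rw [if_neg hi, zero_mul, mul_comm (c i)]
      exact hc_mul_lt (h.hom i j) (c i) (by omega)
  · intro i
    by_cases hi2 : deg i ≤ k
    · right
      simp only [if_pos hi2]
      exact ⟨k - deg i, Nat.sub_add_cancel hi2, homogeneousComponent_isHomogeneous _ _⟩
    · left
      simp only [if_neg hi2]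

/-- the relation of a plus-one resolution, as a vector -/
theorem rel_vec {A : Fin n → Fin l → K} {e : Fin l → ℕ} {d : ℕ}
    {θ : Fin l → Fin l → MvPolynomial (Fin l) K} {φ : Fin l → MvPolynomial (Fin l) K}
    {f : Fin l → MvPolynomial (Fin l) K} {α : MvPolynomial (Fin l) K}
    (h : IsPlusOneResolution A e d θ φ f α) :
    let g : Option (Fin l) → Fin l → MvPolynomial (Fin l) K := fun o => o.elim φ θ
    let ρ : Option (Fin l) → MvPolynomial (Fin l) K := fun o => o.elim α f
    let deg : Option (Fin l) → ℕ := fun o => o.elim d e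
    (∑ o, ρ o • g o = 0) ∧ (∀ o, ρ o = 0 ∨ ∃ m, m + deg o = d + 1 ∧ (ρ o).IsHomogeneous m) ∧
    (∀ c : Option (Fin l) → MvPolynomial (Fin l) K, ∑ o, c o • g o = 0 →
      ∃ s, ∀ o, c o = s * ρ o) ∧ (∃ o, ρ o ≠ 0) ∧ (∀ o, constantCoeff (ρ o) = 0) := by
  refine ⟨?_, ?_, ?_, ?_, ?_⟩
  · rw [Fintype.sum_option, add_comm]
    exact h.relation
  · rintro (_ | i)
    · right
      exact ⟨1, add_comm 1 d, h.alpha_homogeneous⟩
    · exact h.coeff_homogeneous i
  · intro c hc
    rw [Fintype.sum_option, add_comm] at hc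
    obtain ⟨s, h1, h2⟩ := h.relations (fun i => c (some i)) (c none) hc
    refine ⟨s, ?_⟩
    rintro (_ | i)
    · exact h2
    · exact h1 i
  · rcases h.nonzero with h1 | ⟨i, h1⟩
    · exact ⟨none, h1⟩
    · exact ⟨some i, h1⟩
  · rintro (_ | i)
    · show constantCoeff α = 0
      rw [constantCoeff_eq]
      exact h.alpha_homogeneous.coeff_eq_zero (by simp)
    · exact h.minimal i

theorem level_le {A : Fin n → Fin l → K} {e e' : Fin l → ℕ} {d d' : ℕ}
    (h : PlusOneGenerated A e d) (h' : PlusOneGenerated A e' d') : d' ≤ d := by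
  classical
  by_contra hlt
  push Not at hlt
  obtain ⟨θ, φ, f, α, h⟩ := h
  obtain ⟨θ', φ', f', α', h'⟩ := h'
  obtain ⟨r1, r2, r3, ⟨o1, r4⟩, r5⟩ := rel_vec h
  obtain ⟨s1, s2, s3, ⟨o2, s4⟩, s5⟩ := rel_vec h'
  set g : Option (Fin l) → Fin l → MvPolynomial (Fin l) K := fun o => o.elim φ θ with hg
  set ρ : Option (Fin l) → MvPolynomial (Fin l) K := fun o => o.elim α f with hρ
  set deg : Option (Fin l) → ℕ := fun o => o.elim d e with hdeg
  set g' : Option (Fin l) → Fin l → MvPolynomial (Fin l) K := fun o => o.elim φ' θ' with hg'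
  set ρ' : Option (Fin l) → MvPolynomial (Fin l) K := fun o => o.elim α' f' with hρ'
  set deg' : Option (Fin l) → ℕ := fun o => o.elim d' e' with hdeg'
  have H : HGen A deg g := HGen.of_res h
  have H' : HGen A deg' g' := HGen.of_res h'
  choose R hR hR0 using fun i => H'.combo' (H.mem i) (H.hom i)
  choose P hP using fun j => H.generate (g' j) (H'.mem j)
  -- the relation expressed through the other generators
  have e1 : ∑ j, (∑ o, ρ o * R o j) • g' j = 0 := by
    rw [← r1]
    simp only [Finset.sum_smul]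
    rw [Finset.sum_comm]
    refine Finset.sum_congr rfl fun o _ => ?_
    conv_rhs => rw [hR o]
    rw [Finset.smul_sum]
    exact Finset.sum_congr rfl fun j _ => by rw [mul_smul]
  obtain ⟨s, hs⟩ := s3 _ e1
  have e2 : ∀ j, (∑ o, ρ o * R o j) = 0 ∨
      ∃ m, m + deg' j = d + 1 ∧ (∑ o, ρ o * R o j).IsHomogeneous m := by
    intro j
    have t : ∀ o, ρ o * R o j = 0 ∨
        ∃ m, m + deg' j = d + 1 ∧ (ρ o * R o j).IsHomogeneous m := by
      intro o
      rcases r2 o with h1 | ⟨m1, h1, h2⟩
      · left; rw [h1, zero_mul]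
      · rcases hR0 o j with h3 | ⟨m2, h3, h4⟩
        · left; rw [h3, mul_zero]
        · right
          exact ⟨m1 + m2, by omega, h2.mul h4⟩
    by_cases hj : deg' j ≤ d + 1
    · right
      refine ⟨d + 1 - deg' j, Nat.sub_add_cancel hj, ?_⟩
      apply IsHomogeneous.sum
      intro o _
      rcases t o with h1 | ⟨m, h1, h2⟩
      · rw [h1]; exact isHomogeneous_zero _ _ _
      · have : m = d + 1 - deg' j := by omega
        rw [← this]; exact h2
    · left
      apply Finset.sum_eq_zero
      intro o _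
      rcases t o with h1 | ⟨m, h1, -⟩
      · exact h1
      · omega
  have e3 : s = 0 := by
    have h1 := hs o2
    have h2 : (∑ o, ρ o * R o o2) = 0 := by
      rcases e2 o2 with h2 | ⟨m, h2, h3⟩
      · exact h2
      · rcases s2 o2 with h4 | ⟨m', h4, h5⟩
        · exact absurd h4 s4
        · rw [← homogeneousComponent_eq_self h3, h1, mul_comm]
          exact hc_mul_lt h5 s (by omega)
    rw [h2] at h1
    rcases mul_eq_zero.1 h1.symm with h3 | h3
    · exact h3
    · exact absurd h3 s4
  have e4 : ∀ j, ∑ o, ρ o * R o j = 0 := by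
    intro j
    rw [hs, e3, zero_mul]
  -- the product of the transition matrices
  have e5 : ∀ o, ∃ t, ∀ i, (∑ j, R o j * P j i) - (if o = i then 1 else 0) = t * ρ i := by
    intro o
    apply r3
    simp only [sub_smul, Finset.sum_sub_distrib, ite_smul, one_smul, zero_smul,
      Finset.sum_ite_eq, Finset.mem_univ, if_true]
    rw [sub_eq_zero]
    conv_rhs => rw [hR o]
    simp only [Finset.sum_smul]
    rw [Finset.sum_comm]
    refine Finset.sum_congr rfl fun j _ => ?_
    conv_rhs => rw [hP j]
    rw [Finset.smul_sum]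
    exact Finset.sum_congr rfl fun i' _ => by rw [mul_smul]
  choose t ht using e5
  have e6 : ρ o1 * (1 + ∑ o, ρ o * t o) = 0 := by
    have h1 : ∑ o, ρ o * (∑ j, R o j * P j o1) = 0 := by
      have h2 : ∑ o, ρ o * (∑ j, R o j * P j o1) = ∑ j, (∑ o, ρ o * R o j) * P j o1 := by
        simp only [Finset.mul_sum, Finset.sum_mul]
        rw [Finset.sum_comm]
        exact Finset.sum_congr rfl fun j _ => Finset.sum_congr rfl fun i _ => by ring
      rw [h2]
      simp [e4]
    have h3 : ∀ o, ∑ j, R o j * P j o1 = (if o = o1 then 1 else 0) + t o * ρ o1 := by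
      intro o
      rw [← ht o o1]; ring
    simp only [h3, mul_add, Finset.sum_add_distrib, mul_ite, mul_one, mul_zero,
      Finset.sum_ite_eq', Finset.mem_univ, if_true] at h1
    rw [← h1, mul_add, mul_one, Finset.mul_sum]
    congr 1
    exact Finset.sum_congr rfl fun o _ => by ring
  rcases mul_eq_zero.1 e6 with h1 | h1
  · exact r4 h1
  · have h2 := congrArg constantCoeff h1
    rw [map_add, map_one, map_sum, map_zero] at h2
    simp only [map_mul, r5, zero_mul, Finset.sum_const_zero, add_zero] at h2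
    exact one_ne_zero h2

/-- the level is determined by the arrangement -/
theorem level_unique {A : Fin n → Fin l → K} {e e' : Fin l → ℕ} {d d' : ℕ}
    (h : PlusOneGenerated A e d) (h' : PlusOneGenerated A e' d') : d = d' :=
  le_antisymm (level_le h' h) (level_le h h')

/-- the exponents are determined by the arrangement, as a multiset -/
theorem exps_unique {A : Fin n → Fin l → K} {e e' : Fin l → ℕ} {d d' : ℕ}
    (h : PlusOneGenerated A e d) (h' : PlusOneGenerated A e' d') :
    (Finset.univ.val.map e) = (Finset.univ.val.map e') := by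
  have h1 := degrees_unique h h'
  rw [level_unique h h'] at h1
  exact (add_left_inj _).1 h1

/-- permuting the exponents -/
theorem res_perm {A : Fin n → Fin l → K} {e : Fin l → ℕ} {d : ℕ}
    {θ : Fin l → Fin l → MvPolynomial (Fin l) K} {φ : Fin l → MvPolynomial (Fin l) K}
    {f : Fin l → MvPolynomial (Fin l) K} {α : MvPolynomial (Fin l) K}
    (h : IsPlusOneResolution A e d θ φ f α) (σ : Equiv.Perm (Fin l)) :
    IsPlusOneResolution A (e ∘ σ) d (θ ∘ σ) φ (f ∘ σ) α := by
  have sum_eq : ∀ (g : Fin l → MvPolynomial (Fin l) K),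
      ∑ i, g i • (θ ∘ σ) i = ∑ i, g (σ.symm i) • θ i := by
    intro g
    rw [← Equiv.sum_comp σ (fun i => g (σ.symm i) • θ i)]
    simp
  constructor
  · exact fun i => h.theta_mem _
  · exact h.phi_mem
  · exact fun i j => h.theta_homogeneous _ j
  · exact h.phi_homogeneous
  · exact fun i => h.coeff_homogeneous _
  · exact h.alpha_homogeneous
  · intro η hη
    obtain ⟨g, k, hg⟩ := h.generate η hη
    refine ⟨g ∘ σ, k, ?_⟩
    rw [sum_eq, hg]
    simp
  · rw [sum_eq, ← h.relation]
    simp
  · intro g k hg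
    rw [sum_eq] at hg
    obtain ⟨c, h1, h2⟩ := h.relations _ _ hg
    refine ⟨c, fun i => ?_, h2⟩
    have := h1 (σ i)
    simpa using this
  · rcases h.nonzero with h1 | ⟨i, h1⟩
    · exact Or.inl h1
    · exact Or.inr ⟨σ.symm i, by simpa using h1⟩
  · exact fun i => h.minimal _

theorem exists_perm {e e' : Fin l → ℕ}
    (h : (Finset.univ.val.map e) = (Finset.univ.val.map e')) :
    ∃ σ : Equiv.Perm (Fin l), e' = e ∘ σ := by
  classical
  have key : ∀ k : ℕ, Fintype.card {i // e i = k} = Fintype.card {i // e' i = k} := by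
    intro k
    have h1 := congrArg (Multiset.count k) h
    rw [Multiset.count_map, Multiset.count_map] at h1
    rw [Fintype.card_subtype, Fintype.card_subtype, Finset.card_def, Finset.card_def,
      Finset.filter_val, Finset.filter_val]
    have c : ∀ e : Fin l → ℕ, Multiset.filter (fun i => e i = k) (Finset.univ.val) =
        Multiset.filter (fun i => k = e i) (Finset.univ.val) := by
      intro e
      apply Multiset.filter_congr
      intro i _
      exact eq_comm
    rw [c e, c e']
    exact h1
  have E : ∀ k : ℕ, Nonempty ({i // e' i = k} ≃ {i // e i = k}) := fun k =>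
    ⟨Fintype.equivOfCardEq (key k).symm⟩
  let σ : Fin l ≃ Fin l :=
    (Equiv.sigmaFiberEquiv e').symm.trans
      ((Equiv.sigmaCongrRight fun k => Classical.choice (E k)).trans (Equiv.sigmaFiberEquiv e))
  refine ⟨σ, ?_⟩
  funext i
  show e' i = e (σ i)
  have : e (σ i) = e' i := ((Classical.choice (E (e' i))) ⟨i, rfl⟩).2
  exact this.symm

theorem spog_perm {A : Fin n → Fin l → K} {e e' : Fin l → ℕ} {d : ℕ}
    (h : StrictlyPlusOneGenerated A e d)
    (he : (Finset.univ.val.map e) = (Finset.univ.val.map e')) :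
    StrictlyPlusOneGenerated A e' d := by
  obtain ⟨σ, rfl⟩ := exists_perm he
  obtain ⟨θ, φ, f, α, h, hα⟩ := h
  exact ⟨_, _, _, _, res_perm h σ, hα⟩

/-- for an arrangement which is strictly plus-one generated, all the possible exponents and
levels -/
theorem pog_iff {A : Fin n → Fin l → K} {e : Fin l → ℕ} {d : ℕ}
    (h : StrictlyPlusOneGenerated A e d) (e' : Fin l → ℕ) (d' : ℕ) :
    (PlusOneGenerated A e' d' ↔ (Finset.univ.val.map e') = (Finset.univ.val.map e) ∧ d' = d) ∧
    (StrictlyPlusOneGenerated A e' d' ↔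
      (Finset.univ.val.map e') = (Finset.univ.val.map e) ∧ d' = d) := by
  have h0 : PlusOneGenerated A e d := by
    obtain ⟨θ, φ, f, α, h, -⟩ := h
    exact ⟨θ, φ, f, α, h⟩
  have s2p : StrictlyPlusOneGenerated A e' d' → PlusOneGenerated A e' d' := by
    rintro ⟨θ, φ, f, α, h, -⟩
    exact ⟨θ, φ, f, α, h⟩
  have back : (Finset.univ.val.map e') = (Finset.univ.val.map e) ∧ d' = d →
      StrictlyPlusOneGenerated A e' d' := by
    rintro ⟨h1, rfl⟩
    exact spog_perm h h1.symm
  have forth : PlusOneGenerated A e' d' →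
      (Finset.univ.val.map e') = (Finset.univ.val.map e) ∧ d' = d := by
    intro h1
    exact ⟨exps_unique h1 h0, level_unique h1 h0⟩
  exact ⟨⟨forth, fun h => s2p (back h)⟩, ⟨fun h => forth (s2p h), back⟩⟩

end Pool.Agent.Zk48.PO
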