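import Mathlib
import Pool.Agent.Zk48.PO.FamLat
import Pool.Agent.Zk48.PO.ExtRes
import Pool.Agent.Zk48.PO.Level

set_option autoImplicit false

/-!
# The family in every dimension
-/

namespace Pool.Agent.Zk48.PO

open MvPolynomial

universe u

variable {K : Type u} [Field K] {τ : K}

theorem arr_vec (i : Fin 12) (v : Fin 3 → K)
    (h : v = ![(ep i : K), (vp i : K), (vq0 i : K) + (vq1 i : K) * τ]) : Arr τ i = v :=
  (arr_eq i).trans h.symm

theorem a0 : Arr τ 0 = ![1, 0, 0] := arr_vec _ _ (by simp [ep, vp, vq0, vq1])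
theorem a1 : Arr τ 1 = ![1, -1, 0] := arr_vec _ _ (by simp [ep, vp, vq0, vq1])
theorem a2 : Arr τ 2 = ![1, 1, 0] := arr_vec _ _ (by simp [ep, vp, vq0, vq1])
theorem a3 : Arr τ 3 = ![1, -1, -1] := arr_vec _ _ (by simp [ep, vp, vq0, vq1])
theorem a4 : Arr τ 4 = ![1, 1, 1] := arr_vec _ _ (by simp [ep, vp, vq0, vq1])
theorem a5 : Arr τ 5 = ![1, -1, -τ] := arr_vec _ _ (by simp [ep, vp, vq0, vq1])
theorem a6 : Arr τ 6 = ![1, 1, τ] := arr_vec _ _ (by simp [ep, vp, vq0, vq1])
theorem a7 : Arr τ 7 = ![0, 0, 1] := arr_vec _ _ (by simp [ep, vp, vq0, vq1])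
theorem a8 : Arr τ 8 = ![0, 1, 1] := arr_vec _ _ (by simp [ep, vp, vq0, vq1])
theorem a9 : Arr τ 9 = ![0, 1, τ] := arr_vec _ _ (by simp [ep, vp, vq0, vq1])
theorem a10 : Arr τ 10 = ![0, 2, 1] := arr_vec _ _ (by simp [ep, vp, vq0, vq1])
theorem a11 : Arr τ 11 = ![0, 2, τ] := arr_vec _ _ (by simp [ep, vp, vq0, vq1])

theorem conn_arr (h : Good τ) : Conn (Arr τ) := by
  intro side hs
  have m1 : (-1 : K) ≠ 0 := neg_ne_zero.2 one_ne_zero
  have p1 : (1 : K) ≠ 0 := one_ne_zero
  have t0 := h.t0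
  have mt : (-τ : K) ≠ 0 := neg_ne_zero.2 t0
  have r1 := hs 1 3 7 (-1) (-1) m1 m1 (by rw [a1, a3, a7]; ext m; fin_cases m <;> simp)
  have r2 := hs 1 5 7 (-1) (-τ) m1 mt (by rw [a1, a5, a7]; ext m; fin_cases m <;> simp)
  have r3 := hs 2 4 7 (-1) 1 m1 p1 (by rw [a2, a4, a7]; ext m; fin_cases m <;> simp)
  have r4 := hs 2 6 7 (-1) τ m1 t0 (by rw [a2, a6, a7]; ext m; fin_cases m <;> simp)
  have r5 := hs 0 3 8 (-1) (-1) m1 m1 (by rw [a0, a3, a8]; ext m; fin_cases m <;> simp)
  have r6 := hs 0 5 9 (-1) (-1) m1 m1 (by rw [a0, a5, a9]; ext m; fin_cases m <;> simp)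
  have r7 := hs 1 4 10 (-1) 1 m1 p1 (by
    rw [a1, a4, a10]; ext m; fin_cases m <;> simp; norm_num)
  have r8 := hs 1 6 11 (-1) 1 m1 p1 (by
    rw [a1, a6, a11]; ext m; fin_cases m <;> simp; norm_num)
  have key : ∀ i, side i ↔ side 1 := by
    intro i
    fin_cases i
    · exact r5.1.trans r1.1.symm
    · exact Iff.rfl
    · exact r3.2.trans r1.2.symm
    · exact r1.1.symm
    · exact r7.1.symm
    · exact r2.1.symm
    · exact r8.1.symm
    · exact r1.2.symm
    · exact r5.2.symm.trans (r5.1.trans r1.1.symm)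
    · exact r6.2.symm.trans (r5.1.trans r1.1.symm)
    · exact r7.2.symm
    · exact r8.2.symm
  intro i j
  exact (key i).trans (key j).symm

theorem arr_essential : IsEssential (Arr τ) := by
  rw [essential_iff]
  intro x hx
  have h0 := hx 0
  have h7 := hx 7
  have h8 := hx 8
  rw [a0, Fin.sum_univ_three] at h0
  rw [a7, Fin.sum_univ_three] at h7
  rw [a8, Fin.sum_univ_three] at h8
  simp at h0 h7 h8
  funext m
  fin_cases m
  · exact h0
  · show x 1 = 0
    rw [h7, add_zero] at h8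
    exact h8
  · exact h7

theorem sep : ∀ i j : Fin 12, i ≠ j → ∃ k, ¬ (D0 i j k = 0 ∧ D1 i j k = 0) := by
  decide +kernel

theorem arr_arrangement (h : Good τ) : IsArrangement (Arr τ) := by
  have key : ∀ i j : Fin 12, i ≠ j → LinearIndependent K ![Arr τ i, Arr τ j] := by
    intro i j hij
    obtain ⟨k, hk⟩ := sep i j hij
    have h1 : Matrix.det (Matrix.of ![Arr τ i, Arr τ j, Arr τ k]) ≠ 0 := fun h0 =>
      hk ((det_zero_iff h i j k).1 h0)
    have h2 : LinearIndependent K ![Arr τ i, Arr τ j, Arr τ k] := by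
      have := Matrix.linearIndependent_rows_of_det_ne_zero h1
      exact this
    have h3 := h2.comp (![0, 1] : Fin 2 → Fin 3) (by
      intro a b hab
      fin_cases a <;> fin_cases b <;> simp at hab <;> rfl)
    convert h3 using 1
    ext a b
    fin_cases a <;> rfl
  have hne : ∀ i, Arr τ i ≠ 0 := by
    intro i
    have : ∃ j : Fin 12, i ≠ j := by
      by_cases hi : i = 0
      · exact ⟨1, by rw [hi]; decide⟩
      · exact ⟨0, hi⟩
    obtain ⟨j, hj⟩ := this
    have := (key i j hj).ne_zero 0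
    simpa using this
  refine ⟨hne, ?_⟩
  intro i j hij
  by_contra hne2
  have hli := key i j hne2
  rw [LinearIndependent.pair_iff] at hli
  -- a proportional pair
  obtain ⟨m, hm⟩ : ∃ m, Arr τ i m ≠ 0 := by
    by_contra hc
    push Not at hc
    exact hne i (funext hc)
  have hprop : ∀ m', Arr τ j m * Arr τ i m' - Arr τ i m * Arr τ j m' = 0 := by
    intro m'
    have h1 : (Pi.single m (Arr τ i m') - Pi.single m' (Arr τ i m) : Fin 3 → K) ∈
        hyperplane (Arr τ i) := by
      rw [mem_hyperplane]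
      simp only [Pi.sub_apply, mul_sub, Finset.sum_sub_distrib, Pi.single_apply, mul_ite, mul_zero,
        Finset.sum_ite_eq', Finset.mem_univ, if_true]
      ring
    have h2 : (Pi.single m (Arr τ i m') - Pi.single m' (Arr τ i m) : Fin 3 → K) ∈
        hyperplane (Arr τ j) := by
      have : hyperplane (Arr τ i) = hyperplane (Arr τ j) := hij
      rw [← this]; exact h1
    rw [mem_hyperplane] at h2
    simp only [Pi.sub_apply, mul_sub, Finset.sum_sub_distrib, Pi.single_apply, mul_ite, mul_zero,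
        Finset.sum_ite_eq', Finset.mem_univ, if_true] at h2
    linear_combination h2
  have h3 := hli (Arr τ j m) (-(Arr τ i m)) (by
    funext m'
    simp only [Pi.add_apply, Pi.smul_apply, smul_eq_mul, Pi.zero_apply]
    linear_combination hprop m')
  exact hm (neg_eq_zero.1 h3.2)

/-- the first index -/
def ix (m : ℕ) : Fin (12 + 2 * m) := ⟨0, by omega⟩

/-- the family in dimension `3 + m` -/
def AM : (m : ℕ) → K → Fin (12 + 2 * m) → Fin (3 + m) → K
  | 0, τ => Arr τ
  | m + 1, τ => ext (AM m τ) (ix m)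

theorem AM_zero (τ : K) : AM 0 τ = Arr τ := rfl
theorem AM_succ (m : ℕ) (τ : K) : AM (m + 1) τ = ext (AM m τ) (ix m) := rfl

theorem AM_arrangement (h : Good τ) (m : ℕ) : IsArrangement (AM m τ) := by
  induction m with
  | zero => exact arr_arrangement h
  | succ m ih => exact arrangement_ext (ix m) ih

theorem AM_essential (m : ℕ) : IsEssential (AM m τ) := by
  induction m with
  | zero => exact arr_essential
  | succ m ih => exact essential_ext (ix m) ih

theorem AM_conn (h : Good τ) (m : ℕ) : Conn (AM m τ) := by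
  induction m with
  | zero => exact conn_arr h
  | succ m ih => exact conn_ext (ix m) ih

theorem AM_cl {τ τ' : K} (h : Good τ) (h' : Good τ') (m : ℕ) :
    ∀ s i, Cl (AM m τ) s i ↔ Cl (AM m τ') s i := by
  induction m with
  | zero => exact cl_arr h h'
  | succ m ih => exact cl_ext (ix m) ih

/-- the exponents -/
def eM (a b : ℕ) : (m : ℕ) → Fin (3 + m) → ℕ
  | 0 => ![1, a, b]
  | m + 1 => Fin.cons 2 (eM a b m)

theorem eM_multiset (a b m : ℕ) :
    Finset.univ.val.map (eM a b m) = {1, a, b} + Multiset.replicate m 2 := by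
  induction m with
  | zero =>
    show Multiset.map ![1, a, b] (Finset.univ : Finset (Fin 3)).val = _
    have : (Finset.univ : Finset (Fin 3)).val = {0, 1, 2} := rfl
    rw [this]
    rfl
  | succ m ih =>
    show Multiset.map (Fin.cons 2 (eM a b m)) (Finset.univ : Finset (Fin (3 + m + 1))).val = _
    rw [Fin.univ_succ, Finset.cons_val, Multiset.map_cons, Finset.map_val, Multiset.map_map]
    have : (Fin.cons 2 (eM a b m) : Fin (3 + m + 1) → ℕ) ∘ (⟨Fin.succ, Fin.succ_injective _⟩ :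
        Fin (3 + m) ↪ Fin (3 + m + 1)) = eM a b m := by
      funext i
      rfl
    rw [this, ih, Multiset.replicate_succ, Multiset.add_cons]
    rfl

theorem AM_spogB (h : Good τ) (hm : τ ≠ -1) (m : ℕ) :
    StrictlyPlusOneGenerated (AM m τ) (eM 6 6 m) 7 := by
  induction m with
  | zero => exact ⟨_, _, _, _, resB h hm, Al_ne h hm⟩
  | succ m ih =>
    obtain ⟨θ, φ, f, α, h1, h2⟩ := ih
    obtain ⟨θ', φ', f', h3⟩ := res_ext ((AM_arrangement h m).1 (ix m)) h1
    exact ⟨θ', φ', f', _, h3, fun h4 => h2 (ren_inj (by rw [h4, map_zero]))⟩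

theorem AM_spogA (h : Good (-1 : K)) (m : ℕ) :
    StrictlyPlusOneGenerated (AM m (-1 : K)) (eM 5 7 m) 8 := by
  induction m with
  | zero =>
    refine ⟨_, _, _, _, resA h, ?_⟩
    intro h0
    have := congrArg (eval ![(0 : K), 1, 0]) h0
    simp at this
    exact h.two this
  | succ m ih =>
    obtain ⟨θ, φ, f, α, h1, h2⟩ := ih
    obtain ⟨θ', φ', f', h3⟩ := res_ext ((AM_arrangement h m).1 (ix m)) h1
    exact ⟨θ', φ', f', _, h3, fun h4 => h2 (ren_inj (by rw [h4, map_zero]))⟩

end Pool.Agent.Zk48.PO
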